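import Pool.Agent.Zk60.LL.Dif

/-! # Bounded differences of the weighted Hilbert-Schmidt norm: rank one bound -/

set_option autoImplicit false
set_option linter.unusedSectionVars false

open scoped BigOperators Topology
open MeasureTheory Filter

namespace Pool.Agent.Zk60.LQ

open Pool.Agent.W788.MFP.Four (T e NN e_add e_zero e_neg e_normSq card_T)
open Pool.Agent.Zk11.QD (Hz HM HM_apply HM_det e_norm)
open Pool.Agent.Zk60.LL.Cau Pool.Agent.Zk60.LL.Det Pool.Agent.Zk60.LL.Prob Pool.Agent.Zk60.LL.Dif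

variable {d L : ℕ} [NeZero L]

theorem im_rz (a : ℝ) (z : ℂ) (hz : 0 < z.im) :
    ‖((a : ℂ) - z)⁻¹‖ ^ 2 = (((a : ℂ) - z)⁻¹).im / z.im := by
  rw [Complex.inv_im, norm_inv, inv_pow, ← Complex.normSq_eq_norm_sq]
  have h1 : ((a : ℂ) - z).im = -z.im := by simp
  rw [h1, neg_neg]
  have h2 : 0 < Complex.normSq ((a : ℂ) - z) := Complex.normSq_pos.2 (ne_z a z hz)
  field_simp

/-- columns, exact -/
theorem col_eq (z : ℂ) (hz : 0 < z.im) (σ : ℝ) (V : T d L → ℝ) (v : T d L) :
    ∑ x, ‖RR z σ V x v‖ ^ 2 = (RR z σ V v v).im / z.im := by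
  obtain ⟨ψ, E, h⟩ := exists_EB σ V
  have e1 : ∀ x, RR z σ V x v = ∑ j, ((starRingEnd ℂ) (ψ j v) * ((E j : ℂ) - z)⁻¹) * ψ j x := by
    intro x
    rw [RR_eq h z hz]
    exact Finset.sum_congr rfl fun j _ => by ring
  have e2 : (RR z σ V v v).im = ∑ j, ‖ψ j v‖ ^ 2 * (((E j : ℂ) - z)⁻¹).im := by
    rw [RR_eq h z hz, Complex.im_sum]
    refine Finset.sum_congr rfl fun j _ => ?_
    rw [Complex.mul_conj, Complex.normSq_eq_norm_sq, Complex.im_ofReal_mul]
  rw [e2, Finset.sum_div]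
  simp only [e1]
  rw [pars1 h]
  refine Finset.sum_congr rfl fun j _ => ?_
  rw [norm_mul, RCLike.norm_conj, mul_pow, im_rz (E j) z hz, mul_div_assoc]

/-- rows, exact -/
theorem row_eq (z : ℂ) (hz : 0 < z.im) (σ : ℝ) (V : T d L → ℝ) (v : T d L) :
    ∑ y, ‖RR z σ V v y‖ ^ 2 = (RR z σ V v v).im / z.im := by
  obtain ⟨ψ, E, h⟩ := exists_EB σ V
  have e1 : ∀ y, ‖RR z σ V v y‖ ^ 2 =
      ‖∑ j, (starRingEnd ℂ) (ψ j v * ((E j : ℂ) - z)⁻¹) * ψ j y‖ ^ 2 := by
    intro y
    rw [RR_eq h z hz, ← RCLike.norm_conj, map_sum]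
    congr 2
    refine Finset.sum_congr rfl fun j _ => ?_
    simp only [map_mul, Complex.conj_conj]
    ring
  have e2 : (RR z σ V v v).im = ∑ j, ‖ψ j v‖ ^ 2 * (((E j : ℂ) - z)⁻¹).im := by
    rw [RR_eq h z hz, Complex.im_sum]
    refine Finset.sum_congr rfl fun j _ => ?_
    rw [Complex.mul_conj, Complex.normSq_eq_norm_sq, Complex.im_ofReal_mul]
  rw [e2, Finset.sum_div]
  simp only [e1]
  rw [pars1 h]
  refine Finset.sum_congr rfl fun j _ => ?_
  rw [RCLike.norm_conj, norm_mul, mul_pow, im_rz (E j) z hz, mul_div_assoc]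

/-- the bilinear form of the resolvent -/
theorem bil_le' (z : ℂ) (hz : 0 < z.im) (σ : ℝ) (V : T d L → ℝ) (a b : T d L → ℂ) :
    ‖∑ x, ∑ y, a x * b y * (starRingEnd ℂ) (RR z σ V x y)‖ ≤
      1 / z.im * (Real.sqrt (∑ x, ‖a x‖ ^ 2) * Real.sqrt (∑ x, ‖b x‖ ^ 2)) := by
  obtain ⟨ψ, E, h⟩ := exists_EB σ V
  have e1 : ∑ x, ∑ y, a x * b y * (starRingEnd ℂ) (RR z σ V x y) =
      ∑ j, (starRingEnd ℂ) (((E j : ℂ) - z)⁻¹) * (∑ x, a x * (starRingEnd ℂ) (ψ j x)) *
        (∑ y, b y * ψ j y) := by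
    have h1 : ∀ x y, a x * b y * (starRingEnd ℂ) (RR z σ V x y) = ∑ j,
        (starRingEnd ℂ) (((E j : ℂ) - z)⁻¹) * ((a x * (starRingEnd ℂ) (ψ j x)) * (b y * ψ j y)) := by
      intro x y
      rw [RR_eq h z hz, map_sum, Finset.mul_sum]
      refine Finset.sum_congr rfl fun j _ => ?_
      simp only [map_mul, Complex.conj_conj]
      ring
    simp only [h1]
    have h2 : ∀ x, ∑ y, ∑ j, (starRingEnd ℂ) (((E j : ℂ) - z)⁻¹) *
        ((a x * (starRingEnd ℂ) (ψ j x)) * (b y * ψ j y)) = ∑ j, ∑ y,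
        (starRingEnd ℂ) (((E j : ℂ) - z)⁻¹) * ((a x * (starRingEnd ℂ) (ψ j x)) * (b y * ψ j y)) :=
      fun x => Finset.sum_comm
    simp only [h2]
    rw [Finset.sum_comm]
    refine Finset.sum_congr rfl fun j _ => ?_
    rw [mul_assoc, Finset.sum_mul_sum, Finset.mul_sum]
    refine Finset.sum_congr rfl fun x _ => ?_
    rw [Finset.mul_sum]
  rw [e1]
  have h3 : ∀ j, ‖(starRingEnd ℂ) (((E j : ℂ) - z)⁻¹) * (∑ x, a x * (starRingEnd ℂ) (ψ j x)) *
        (∑ y, b y * ψ j y)‖ ≤ 1 / z.im * (‖∑ x, a x * (starRingEnd ℂ) (ψ j x)‖ *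
          ‖∑ y, (starRingEnd ℂ) (b y) * (starRingEnd ℂ) (ψ j y)‖) := by
    intro j
    have e2 : ‖∑ y, b y * ψ j y‖ = ‖∑ y, (starRingEnd ℂ) (b y) * (starRingEnd ℂ) (ψ j y)‖ := by
      rw [← RCLike.norm_conj, map_sum]
      congr 1
      exact Finset.sum_congr rfl fun y _ => map_mul _ _ _
    rw [norm_mul, norm_mul, RCLike.norm_conj, e2, mul_assoc]
    exact mul_le_mul_of_nonneg_right (rz_le (E j) z hz) (by positivity)
  refine (norm_sum_le _ _).trans ((Finset.sum_le_sum fun j _ => h3 j).trans ?_)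
  rw [← Finset.mul_sum]
  refine mul_le_mul_of_nonneg_left ?_ (by positivity)
  have h4 := Real.sum_mul_le_sqrt_mul_sqrt Finset.univ
    (fun j => ‖∑ x, a x * (starRingEnd ℂ) (ψ j x)‖)
    (fun j => ‖∑ y, (starRingEnd ℂ) (b y) * (starRingEnd ℂ) (ψ j y)‖)
  refine h4.trans (le_of_eq ?_)
  rw [pars2 h, pars2 h]
  simp only [RCLike.norm_conj]

theorem rank_alg (R R' : ℂ) (t : ℝ) (hR : 0 ≤ R.im) (h : R' - R = (t : ℂ) * (R * R')) :
    |t| * (Real.sqrt R.im * Real.sqrt R'.im) ≤ 1 := by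
  have h1 : R' * (1 - (t : ℂ) * R) = R := by linear_combination h
  have hn : Complex.normSq R' * Complex.normSq (1 - (t : ℂ) * R) = Complex.normSq R := by
    rw [← Complex.normSq_mul, h1]
  have hre : R'.re - R.re = t * (R.re * R'.re - R.im * R'.im) := by
    have := congrArg Complex.re h
    simpa using this
  have him : R'.im - R.im = t * (R.re * R'.im + R.im * R'.re) := by
    have := congrArg Complex.im h
    simpa using this
  -- |1 - tR|^2 Im R' = Im R
  have key : ((1 - t * R.re) ^ 2 + (t * R.im) ^ 2) * R'.im = R.im := by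
    linear_combination (t * R.im) * hre + (1 - t * R.re) * him
  have hR' : 0 ≤ R'.im := by
    by_contra hneg
    push Not at hneg
    have h2 : 0 ≤ (1 - t * R.re) ^ 2 + (t * R.im) ^ 2 := by positivity
    rcases h2.lt_or_eq with h3 | h3
    · have := mul_neg_of_pos_of_neg h3 hneg
      linarith
    · have h4 : (1 - t * R.re) ^ 2 = 0 := by nlinarith [sq_nonneg (1 - t * R.re), sq_nonneg (t * R.im)]
      have h5 : R.im = 0 := by rw [← key, ← h3]; ring
      have h6 : 1 - t * R.re = 0 := by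
        exact pow_eq_zero_iff (two_ne_zero) |>.1 h4
      have h7 : t * R'.im * R.re = R'.im := by
        have : t * R.re = 1 := by linarith
        calc t * R'.im * R.re = (t * R.re) * R'.im := by ring
          _ = R'.im := by rw [this, one_mul]
      rw [h5] at hre him
      have h8 : t * R.re = 1 := by linarith
      have h9 : R'.re - R.re = R'.re := by
        rw [hre]
        have : t * (R.re * R'.re - 0 * R'.im) = (t * R.re) * R'.re := by ring
        rw [this, h8, one_mul]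
      have h10 : R.re = 0 := by linarith
      rw [h10, mul_zero] at h8
      norm_num at h8
  have h2 : t ^ 2 * (R.im * R'.im) ≤ 1 := by
    have h3 : (t * R.im) ^ 2 * R'.im ≤ R.im := by
      calc (t * R.im) ^ 2 * R'.im ≤ ((1 - t * R.re) ^ 2 + (t * R.im) ^ 2) * R'.im := by
            refine mul_le_mul_of_nonneg_right ?_ hR'
            nlinarith [sq_nonneg (1 - t * R.re)]
        _ = R.im := key
    rcases hR.lt_or_eq with h4 | h4
    · have h5 : R.im * (t ^ 2 * (R.im * R'.im)) ≤ R.im * 1 := by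
        calc R.im * (t ^ 2 * (R.im * R'.im)) = (t * R.im) ^ 2 * R'.im := by ring
          _ ≤ R.im * 1 := by rw [mul_one]; exact h3
      exact le_of_mul_le_mul_left h5 h4
    · rw [← h4]
      norm_num
  have h3 : |t| * (Real.sqrt R.im * Real.sqrt R'.im) = Real.sqrt (t ^ 2 * (R.im * R'.im)) := by
    rw [Real.sqrt_mul (sq_nonneg t), Real.sqrt_sq_eq_abs, Real.sqrt_mul hR]
  rw [h3]
  exact Real.sqrt_le_one.2 h2

/-- bounded differences, independent of the size of the change -/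
theorem SS_diff2 {ι : Type} [Fintype ι] (Q : ι → T d L) (w : ι → ℝ) (hw : ∀ q, 0 ≤ w q)
    (hw1 : ∑ q, w q = 1) (K : T d L → ℝ)
    (hK : ∀ x, ((K x : ℝ) : ℂ) = ∑ q, (w q : ℂ) * e (Q q) x) (z : ℂ) (hz : 0 < z.im) (σ : ℝ)
    (V : T d L → ℝ) (v : T d L) (s : ℝ) :
    |SS K z σ (Function.update V v s) - SS K z σ V| ≤ 2 / z.im ^ 2 := by
  set R := RR z σ V with hR
  set R' := RR z σ (Function.update V v s) with hR'
  set t : ℂ := -((σ : ℂ) * ((s : ℂ) - V v)) with ht
  have h1 : ∀ x y, ‖R' x y‖ ^ 2 - ‖R x y‖ ^ 2 = ((R' x y - R x y) *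
      ((starRingEnd ℂ) (R' x y) + (starRingEnd ℂ) (R x y))).re := by
    intro x y
    rw [← Complex.normSq_eq_norm_sq, ← Complex.normSq_eq_norm_sq, Complex.normSq_apply,
      Complex.normSq_apply]
    simp only [Complex.mul_re, Complex.sub_re, Complex.add_re, Complex.conj_re, Complex.sub_im,
      Complex.add_im, Complex.conj_im]
    ring
  have h2 : SS K z σ (Function.update V v s) - SS K z σ V =
      (∑ x, ∑ y, ((K (x - y) : ℝ) : ℂ) * ((R' x y - R x y) *
      ((starRingEnd ℂ) (R' x y) + (starRingEnd ℂ) (R x y)))).re := by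
    unfold SS
    rw [← Finset.sum_sub_distrib, Complex.re_sum]
    refine Finset.sum_congr rfl fun x _ => ?_
    rw [← Finset.sum_sub_distrib, Complex.re_sum]
    refine Finset.sum_congr rfl fun y _ => ?_
    rw [Complex.re_ofReal_mul, ← h1]
    ring
  have h3 : ∑ x, ∑ y, ((K (x - y) : ℝ) : ℂ) * ((R' x y - R x y) *
      ((starRingEnd ℂ) (R' x y) + (starRingEnd ℂ) (R x y))) =
      ∑ q, (w q : ℂ) * (t * ((∑ x, ∑ y, (e (Q q) x * R x v) *
        ((starRingEnd ℂ) (e (Q q) y) * R' v y) * (starRingEnd ℂ) (R' x y)) +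
        ∑ x, ∑ y, (e (Q q) x * R x v) *
        ((starRingEnd ℂ) (e (Q q) y) * R' v y) * (starRingEnd ℂ) (R x y))) := by
    have h4 : ∀ x y, ((K (x - y) : ℝ) : ℂ) * ((R' x y - R x y) *
      ((starRingEnd ℂ) (R' x y) + (starRingEnd ℂ) (R x y))) =
      ∑ q, (w q : ℂ) * (t * (((e (Q q) x * R x v) *
        ((starRingEnd ℂ) (e (Q q) y) * R' v y) * (starRingEnd ℂ) (R' x y)) +
        (e (Q q) x * R x v) *
        ((starRingEnd ℂ) (e (Q q) y) * R' v y) * (starRingEnd ℂ) (R x y))) := by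
      intro x y
      rw [hR, hR', rank_one z hz σ V v s x y, hK, Finset.sum_mul]
      refine Finset.sum_congr rfl fun q _ => ?_
      rw [sub_eq_add_neg, e_add, e_neg]
      ring
    simp only [h4]
    have h5 : ∀ F : T d L → T d L → ι → ℂ, ∑ x, ∑ y, ∑ q, F x y q = ∑ q, ∑ x, ∑ y, F x y q := by
      intro F
      have : ∀ x, ∑ y, ∑ q, F x y q = ∑ q, ∑ y, F x y q := fun x => Finset.sum_comm
      simp only [this]
      exact Finset.sum_comm
    rw [h5]
    refine Finset.sum_congr rfl fun q _ => ?_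
    simp only [← Finset.mul_sum, ← Finset.sum_add_distrib]
  rw [h2]
  refine (Complex.abs_re_le_norm _).trans ?_
  rw [h3]
  -- the rank one bound
  have hrk : ‖t‖ * (Real.sqrt ((R v v).im / z.im) * Real.sqrt ((R' v v).im / z.im)) ≤
      1 / z.im := by
    obtain ⟨tr, htr⟩ : ∃ tr : ℝ, tr = -(σ * (s - V v)) := ⟨_, rfl⟩
    have htt : t = (tr : ℂ) := by rw [ht, htr]; push_cast; ring
    have hRim : 0 ≤ (R v v).im := by
      have h4 := col_eq z hz σ V v
      have h5 : 0 ≤ ∑ x, ‖RR z σ V x v‖ ^ 2 := Finset.sum_nonneg fun x _ => by positivity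
      rw [h4] at h5
      by_contra hneg
      push Not at hneg
      have := div_neg_of_neg_of_pos hneg hz
      rw [hR] at this
      linarith
    have h4 := rank_alg (R v v) (R' v v) tr hRim (by
      rw [hR, hR', rank_one z hz σ V v s v v, ← htt, ht])
    have h5 : ‖t‖ = |tr| := by rw [htt, Complex.norm_real, Real.norm_eq_abs]
    rw [h5, Real.sqrt_div' _ hz.le, Real.sqrt_div' _ hz.le]
    have h6 : |tr| * (Real.sqrt (R v v).im / Real.sqrt z.im *
        (Real.sqrt (R' v v).im / Real.sqrt z.im)) =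
        (|tr| * (Real.sqrt (R v v).im * Real.sqrt (R' v v).im)) /
          (Real.sqrt z.im * Real.sqrt z.im) := by
      field_simp
    rw [h6, Real.mul_self_sqrt hz.le]
    exact div_le_div_of_nonneg_right h4 hz.le
  have hn : ∀ q, ‖(w q : ℂ) * (t * ((∑ x, ∑ y, (e (Q q) x * R x v) *
        ((starRingEnd ℂ) (e (Q q) y) * R' v y) * (starRingEnd ℂ) (R' x y)) +
        ∑ x, ∑ y, (e (Q q) x * R x v) *
        ((starRingEnd ℂ) (e (Q q) y) * R' v y) * (starRingEnd ℂ) (R x y)))‖ ≤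
      w q * (2 / z.im ^ 2) := by
    intro q
    have ha : ∑ x, ‖e (Q q) x * R x v‖ ^ 2 = (R v v).im / z.im := by
      simp only [norm_mul, e_norm, one_mul]
      exact col_eq z hz σ V v
    have hb : ∑ y, ‖(starRingEnd ℂ) (e (Q q) y) * R' v y‖ ^ 2 = (R' v v).im / z.im := by
      simp only [norm_mul, RCLike.norm_conj, e_norm, one_mul]
      exact row_eq z hz σ (Function.update V v s) v
    have b1 := bil_le' z hz σ (Function.update V v s) (fun x => e (Q q) x * R x v)
      (fun y => (starRingEnd ℂ) (e (Q q) y) * R' v y)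
    have b2 := bil_le' z hz σ V (fun x => e (Q q) x * R x v)
      (fun y => (starRingEnd ℂ) (e (Q q) y) * R' v y)
    rw [ha, hb] at b1 b2
    rw [norm_mul, norm_mul, Complex.norm_real, Real.norm_eq_abs, abs_of_nonneg (hw q)]
    refine mul_le_mul_of_nonneg_left ?_ (hw q)
    have b3 := (norm_add_le _ _).trans (add_le_add b1 b2)
    refine (mul_le_mul_of_nonneg_left b3 (norm_nonneg t)).trans ?_
    calc _ = 2 / z.im * (‖t‖ * (Real.sqrt ((R v v).im / z.im) *
          Real.sqrt ((R' v v).im / z.im))) := by ring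
      _ ≤ 2 / z.im * (1 / z.im) := mul_le_mul_of_nonneg_left hrk (by positivity)
      _ = _ := by field_simp
  refine (norm_sum_le _ _).trans ((Finset.sum_le_sum fun q _ => hn q).trans (le_of_eq ?_))
  rw [← Finset.sum_mul, hw1, one_mul]

end Pool.Agent.Zk60.LQ
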