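import Pool.Agent.Zk60.LQ.Wey
import Pool.Agent.Zk11.QD.Dec

/-! # Few eigenvalues near the edges of the spectrum -/

set_option autoImplicit false
set_option linter.unusedSectionVars false

open scoped BigOperators Topology
open MeasureTheory Filter

namespace Pool.Agent.Zk60.LQ

open Pool.Agent.W788.MFP.Four (T e NN e_add e_add_left e_zero e_comm e_neg e_neg_left e_normSq
  card_T NN_pos)
open Pool.Agent.Zk11.QD (Hz aa aa_eq co si co_si co_le co_sub na co_small na_count Lpos)
open Pool.Agent.Zk60.LL.Det (EB)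

variable {d L : ℕ} [NeZero L]

theorem shift_count (q0 : ZMod L) (X : ℝ) (hX : 0 ≤ X) :
    (((Finset.univ.filter fun q : ZMod L => (na (q - q0) : ℝ) ≤ X).card : ℕ) : ℝ) ≤ 2 * X + 2 := by
  refine le_trans (le_of_eq ?_) (na_count (L := L) X hX)
  congr 1
  refine Finset.card_bij (fun q _ => q - q0) ?_ ?_ ?_
  · intro q hq
    rw [Finset.mem_filter] at hq ⊢
    exact ⟨Finset.mem_univ _, hq.2⟩
  · intro q _ q' _ h
    exact sub_left_injective h
  · intro r hr
    refine ⟨r + q0, ?_, by ring⟩
    rw [Finset.mem_filter] at hr ⊢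
    refine ⟨Finset.mem_univ _, ?_⟩
    rw [add_sub_cancel_right]
    exact hr.2

theorem co_count (s x : ℝ) (hs : s = 1 ∨ s = -1) (hx : 0 < x) (hx1 : x ≤ 1) :
    (((Finset.univ.filter fun q : ZMod L => 1 - x / 2 < s * co q).card : ℕ) : ℝ) ≤
      2 * ((L : ℝ) * Real.sqrt x) + 2 := by
  have hL := Lpos (L := L)
  have hsx : 0 < Real.sqrt x := Real.sqrt_pos.2 hx
  by_cases hne : ∃ q0 : ZMod L, 1 - x / 2 < s * co q0
  · obtain ⟨q0, hq0⟩ := hne
    refine le_trans ?_ (shift_count q0 (L * Real.sqrt x) (by positivity))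
    have hsub : (Finset.univ.filter fun q : ZMod L => 1 - x / 2 < s * co q) ⊆
        Finset.univ.filter fun q : ZMod L => (na (q - q0) : ℝ) ≤ L * Real.sqrt x := by
      intro q hq
      rw [Finset.mem_filter] at hq ⊢
      refine ⟨Finset.mem_univ _, ?_⟩
      apply co_small (q - q0) (L * Real.sqrt x) (by positivity)
      have h1 := hq.2
      have hss : s * s = 1 := by rcases hs with h | h <;> rw [h] <;> norm_num
      have e1 : 8 * (L * Real.sqrt x) ^ 2 / (L : ℝ) ^ 2 = 8 * x := by
        rw [mul_pow, Real.sq_sqrt hx.le]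
        field_simp
      rw [e1, co_sub]
      -- the sines are small
      have h2 : (1 - x / 2) ^ 2 ≤ (s * co q) * (s * co q0) := by
        rw [sq]
        exact mul_le_mul h1.le hq0.le (by linarith) (by linarith)
      have h3 : (s * co q) * (s * co q0) = co q * co q0 := by
        linear_combination (co q * co q0) * hss
      have hsq : ∀ r : ZMod L, 1 - x / 2 < s * co r → si r ^ 2 ≤ x := by
        intro r hr
        have h4 := co_si r
        have h5 : (1 - x / 2) ^ 2 ≤ (s * co r) ^ 2 := pow_le_pow_left₀ (by linarith) hr.le 2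
        have h6 : (s * co r) ^ 2 = co r ^ 2 := by
          linear_combination (co r ^ 2) * hss
        nlinarith [sq_nonneg x]
      have h4 : -(x) ≤ si q * si q0 := by
        have h5 := hsq q h1
        have h6 := hsq q0 hq0
        nlinarith [sq_nonneg (si q + si q0)]
      rw [h3] at h2
      nlinarith [sq_nonneg x]
    exact_mod_cast Finset.card_le_card hsub
  · have : (Finset.univ.filter fun q : ZMod L => 1 - x / 2 < s * co q) = ∅ := by
      rw [Finset.filter_eq_empty_iff]
      intro q _ hq
      exact hne ⟨q, hq⟩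
    rw [this, Finset.card_empty]
    push_cast
    positivity

theorem line_count (hd : 1 ≤ d) (S : Finset (ZMod L)) :
    (((Finset.univ.filter fun p : T d L => p ⟨0, by omega⟩ ∈ S).card : ℕ) : ℝ) =
      (S.card : ℝ) * (L : ℝ) ^ (d - 1) := by
  classical
  have h1 : (Finset.univ.filter fun p : T d L => p ⟨0, by omega⟩ ∈ S) =
      Fintype.piFinset (fun i : Fin d => if (i : ℕ) = 0 then S else Finset.univ) := by
    ext p
    rw [Finset.mem_filter, Fintype.mem_piFinset]
    constructor
    · rintro ⟨-, h⟩ i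
      split_ifs with hi
      · have : i = ⟨0, by omega⟩ := Fin.ext hi
        rw [this]; exact h
      · exact Finset.mem_univ _
    · intro h
      refine ⟨Finset.mem_univ _, ?_⟩
      have := h ⟨0, by omega⟩
      simpa using this
  rw [h1, Fintype.card_piFinset]
  obtain ⟨n, rfl⟩ : ∃ n, d = n + 1 := ⟨d - 1, by omega⟩
  rw [Fin.prod_univ_succ]
  simp only [Fin.val_zero, if_true, Fin.val_succ, Nat.succ_ne_zero, if_false, Finset.prod_const,
    Finset.card_univ, ZMod.card, Fintype.card_fin, Nat.add_sub_cancel]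
  push_cast
  rfl

theorem free_count (hd : 1 ≤ d) (x : ℝ) (hx : 0 < x) (hx1 : x ≤ 1) :
    (((Finset.univ.filter fun p : T d L => aa p < x).card : ℕ) : ℝ) ≤
      (2 * ((L : ℝ) * Real.sqrt x) + 2) * (L : ℝ) ^ (d - 1) ∧
    (((Finset.univ.filter fun p : T d L => 4 * d - x < aa p).card : ℕ) : ℝ) ≤
      (2 * ((L : ℝ) * Real.sqrt x) + 2) * (L : ℝ) ^ (d - 1) := by
  have hL := Lpos (L := L)
  have key : ∀ s : ℝ, (s = 1 ∨ s = -1) → ∀ P : T d L → Prop, ∀ _ : DecidablePred P,
      (∀ p, P p → 1 - x / 2 < s * co (p ⟨0, by omega⟩)) →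
      (((Finset.univ.filter P).card : ℕ) : ℝ) ≤
        (2 * ((L : ℝ) * Real.sqrt x) + 2) * (L : ℝ) ^ (d - 1) := by
    intro s hs P _ hP
    have h1 := line_count hd (Finset.univ.filter fun q : ZMod L => 1 - x / 2 < s * co q)
    have h2 := co_count (L := L) s x hs hx hx1
    have h3 : (Finset.univ.filter P) ⊆ Finset.univ.filter fun p : T d L => p ⟨0, by omega⟩ ∈
        (Finset.univ.filter fun q : ZMod L => 1 - x / 2 < s * co q) := by
      intro p hp
      rw [Finset.mem_filter] at hp ⊢
      refine ⟨Finset.mem_univ _, ?_⟩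
      rw [Finset.mem_filter]
      exact ⟨Finset.mem_univ _, hP p hp.2⟩
    have h4 : (((Finset.univ.filter P).card : ℕ) : ℝ) ≤
        ((Finset.univ.filter fun p : T d L => p ⟨0, by omega⟩ ∈
        (Finset.univ.filter fun q : ZMod L => 1 - x / 2 < s * co q)).card : ℝ) := by
      exact_mod_cast Finset.card_le_card h3
    rw [h1] at h4
    exact h4.trans (mul_le_mul_of_nonneg_right h2 (by positivity))
  constructor
  · refine key 1 (Or.inl rfl) _ _ fun p hp => ?_
    rw [aa_eq] at hp
    have h1 : 2 - 2 * co (p ⟨0, by omega⟩) ≤ ∑ i, (2 - 2 * co (p i)) :=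
      Finset.single_le_sum (f := fun i => 2 - 2 * co (p i))
        (fun i _ => by linarith [(abs_le.1 (co_le (p i))).2]) (Finset.mem_univ _)
    linarith
  · refine key (-1) (Or.inr rfl) _ _ fun p hp => ?_
    rw [aa_eq] at hp
    have h1 : ∑ i, (4 - (2 - 2 * co (p i))) = 4 * d - ∑ i, (2 - 2 * co (p i)) := by
      rw [Finset.sum_sub_distrib]
      simp
      ring
    have h2 : 4 - (2 - 2 * co (p ⟨0, by omega⟩)) ≤ ∑ i, (4 - (2 - 2 * co (p i))) :=
      Finset.single_le_sum (f := fun i => 4 - (2 - 2 * co (p i)))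
        (fun i _ => by linarith [(abs_le.1 (co_le (p i))).1]) (Finset.mem_univ _)
    linarith

/-- few eigenvalues near the edges -/
theorem edge_count (hd : 1 ≤ d) {σ b : ℝ} {V : T d L → ℝ} {ψ : T d L → T d L → ℂ}
    {E : T d L → ℝ} (h : EB σ V ψ E) (hσ : 0 ≤ σ) (hb : ∀ x, |V x| ≤ b) (x : ℝ) (hx : 0 < x)
    (hx1 : x ≤ 1) (hσb : σ * b ≤ x / 2) :
    (((Finset.univ.filter fun j => E j < x / 2).card : ℕ) : ℝ) ≤
      (2 * ((L : ℝ) * Real.sqrt x) + 2) * (L : ℝ) ^ (d - 1) ∧
    (((Finset.univ.filter fun j => 4 * d - x / 2 < E j).card : ℕ) : ℝ) ≤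
      (2 * ((L : ℝ) * Real.sqrt x) + 2) * (L : ℝ) ^ (d - 1) := by
  obtain ⟨f1, f2⟩ := free_count (L := L) hd x hx hx1
  constructor
  · have h1 := weyl h pw_EB hσ hb (x / 2) 1 (by norm_num)
      (Finset.univ.filter fun j => E j < x / 2) (Finset.univ.filter fun p => ¬ aa p < x)
      (fun j hj => by rw [one_mul]; exact (Finset.mem_filter.1 hj).2)
      (fun j hj => by
        have := not_lt.1 (Finset.mem_filter.1 hj).2
        rw [one_mul]; linarith)
    have h2 : (Finset.univ.filter fun p : T d L => aa p < x).card +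
        (Finset.univ.filter fun p : T d L => ¬ aa p < x).card = Fintype.card (T d L) := by
      rw [Finset.card_filter_add_card_filter_not, Finset.card_univ]
    refine le_trans ?_ f1
    exact_mod_cast (by omega : (Finset.univ.filter fun j => E j < x / 2).card ≤
      (Finset.univ.filter fun p : T d L => aa p < x).card)
  · have h1 := weyl h pw_EB hσ hb (-(4 * d - x / 2)) (-1) (by norm_num)
      (Finset.univ.filter fun j => 4 * d - x / 2 < E j)
      (Finset.univ.filter fun p => ¬ 4 * d - x < aa p)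
      (fun j hj => by
        have := (Finset.mem_filter.1 hj).2
        linarith)
      (fun j hj => by
        have := not_lt.1 (Finset.mem_filter.1 hj).2
        linarith)
    have h2 : (Finset.univ.filter fun p : T d L => 4 * d - x < aa p).card +
        (Finset.univ.filter fun p : T d L => ¬ 4 * d - x < aa p).card =
        Fintype.card (T d L) := by
      rw [Finset.card_filter_add_card_filter_not, Finset.card_univ]
    refine le_trans ?_ f2
    exact_mod_cast (by omega : (Finset.univ.filter fun j => 4 * d - x / 2 < E j).card ≤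
      (Finset.univ.filter fun p : T d L => 4 * d - x < aa p).card)

end Pool.Agent.Zk60.LQ
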