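import Pool.Agent.Zk60.LL.Glob

/-! # Monotonicity in the width of the spectral window, averages, limit of large tori -/

set_option autoImplicit false
set_option linter.unusedSectionVars false

open scoped BigOperators Topology
open MeasureTheory Filter

namespace Pool.Agent.Zk60.LQ.Et

open Pool.Agent.W788.MFP.Four (T e NN)
open Pool.Agent.Zk11.QD (PL PZ Zd IsG uu)
open Pool.Agent.Zk60.LL.Cau Pool.Agent.Zk60.LL.Det Pool.Agent.Zk60.LL.Phi

theorem fcv_mono (η' η a b : ℝ) (h0 : 0 < η') (h : η' ≤ η) :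
    η' * ∫ u, fc η' a b u ≤ η * ∫ u, fc η a b u := by
  have hη : 0 < η := h0.trans_le h
  have hpi := Real.pi_pos
  rw [fc_val η' a b h0, fc_val η a b hη, ← mul_div_assoc, ← mul_div_assoc,
    div_le_div_iff₀ (by positivity) (by positivity)]
  have hD : 0 ≤ (a - b) ^ 2 := sq_nonneg _
  have h2 : η' ^ 2 ≤ η ^ 2 := pow_le_pow_left₀ h0.le h 2
  have h3 := mul_le_mul_of_nonneg_left (mul_le_mul_of_nonneg_right h2 hD)
    (by positivity : 0 ≤ 4 * Real.pi)
  linarith

section
variable {d L : ℕ} [NeZero L]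

theorem full {σ : ℝ} {V : T d L → ℝ} {K : T d L → ℝ} (hK : Rep K) (η' η : ℝ) (h0 : 0 < η')
    (hη' : η' ≤ η) (E1 E2 U : ℝ) :
    (∫ u in Set.Icc (-U) U, η' * SS K ((u : ℂ) + η' * Complex.I) σ V) ≤
      (∫ u in Set.Icc E1 E2, η * (SS K ((u : ℂ) + η * Complex.I) σ V -
        SS (fun _ => 1) ((u : ℂ) + η * Complex.I) σ V)) + Real.pi * (Fintype.card (T d L) : ℝ) := by
  have hη : 0 < η := h0.trans_le hη'
  obtain ⟨ψ, E, h⟩ := exists_EB σ V
  obtain ⟨ι, _, Q, w, hw, -, hKr⟩ := hK.ex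
  set SK' : ℝ → ℝ := fun u => η' * SS K ((u : ℂ) + η' * Complex.I) σ V with hSK'
  set SK : ℝ → ℝ := fun u => η * SS K ((u : ℂ) + η * Complex.I) σ V with hSK
  set S1 : ℝ → ℝ := fun u => η * SS (fun _ => 1) ((u : ℂ) + η * Complex.I) σ V with hS1
  have eK' : SK' = fun u => η' * ∑ j, ∑ k, AA Q w (ψ j) (ψ k) * fc η' (E j) (E k) u := by
    funext u
    rw [hSK']
    simp only
    rw [SS_eq h Q w K hKr η' u h0]
  have eK : SK = fun u => η * ∑ j, ∑ k, AA Q w (ψ j) (ψ k) * fc η (E j) (E k) u := by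
    funext u
    rw [hSK]
    simp only
    rw [SS_eq h Q w K hKr η u hη]
  have e1 : S1 = fun u => η * ∑ j, fc η (E j) (E j) u := by
    funext u
    rw [hS1]
    simp only
    rw [SS_one h η u hη]
  have iK' : Integrable SK' := by
    rw [eK']
    exact (integrable_finsetSum _ fun j _ => integrable_finsetSum _ fun k _ =>
      (fc_int η' (E j) (E k) h0).const_mul _).const_mul _
  have iK : Integrable SK := by
    rw [eK]
    exact (integrable_finsetSum _ fun j _ => integrable_finsetSum _ fun k _ =>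
      (fc_int η (E j) (E k) hη).const_mul _).const_mul _
  have i1 : Integrable S1 := by
    rw [e1]
    exact (integrable_finsetSum _ fun j _ => fc_int η (E j) (E j) hη).const_mul _
  have vK : ∫ u, SK' u ≤ ∫ u, SK u := by
    rw [eK', eK, integral_const_mul, integral_const_mul,
      integral_finsetSum _ fun j _ => integrable_finsetSum _ fun k _ =>
      (fc_int η' (E j) (E k) h0).const_mul _,
      integral_finsetSum _ fun j _ => integrable_finsetSum _ fun k _ =>
      (fc_int η (E j) (E k) hη).const_mul _, Finset.mul_sum, Finset.mul_sum]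
    refine Finset.sum_le_sum fun j _ => ?_
    rw [integral_finsetSum _ fun k _ => (fc_int η' (E j) (E k) h0).const_mul _,
      integral_finsetSum _ fun k _ => (fc_int η (E j) (E k) hη).const_mul _,
      Finset.mul_sum, Finset.mul_sum]
    refine Finset.sum_le_sum fun k _ => ?_
    rw [integral_const_mul, integral_const_mul]
    have h1 := mul_le_mul_of_nonneg_left (fcv_mono η' η (E j) (E k) h0 hη')
      (AA_nonneg Q w hw (ψ j) (ψ k))
    linarith
  have v1 : ∫ u, S1 u = Real.pi * (Fintype.card (T d L) : ℝ) := by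
    rw [e1, integral_const_mul, integral_finsetSum _ fun j _ => fc_int η (E j) (E j) hη]
    simp only [fc_diag η _ hη]
    rw [Finset.sum_const, Finset.card_univ, nsmul_eq_mul]
    field_simp
  have v0 : ∫ u in Set.Icc (-U) U, SK' u ≤ ∫ u, SK' u :=
    setIntegral_le_integral iK' (Eventually.of_forall fun u =>
      mul_nonneg h0.le (SS_nonneg hK _ σ V))
  have hle : ∀ u, SK u ≤ S1 u := fun u =>
    mul_le_mul_of_nonneg_left (SS_mono hK.le _ σ V) hη.le
  have hsplitK := integral_add_compl (f := SK) (measurableSet_Icc (a := E1) (b := E2)) iK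
  have hsplit1 := integral_add_compl (f := S1) (measurableSet_Icc (a := E1) (b := E2)) i1
  have hcomp : ∫ u in (Set.Icc E1 E2)ᶜ, SK u ≤ ∫ u in (Set.Icc E1 E2)ᶜ, S1 u :=
    setIntegral_mono iK.integrableOn i1.integrableOn hle
  have hdiff : ∫ u in Set.Icc E1 E2, η * (SS K ((u : ℂ) + η * Complex.I) σ V -
        SS (fun _ => 1) ((u : ℂ) + η * Complex.I) σ V) =
      (∫ u in Set.Icc E1 E2, SK u) - ∫ u in Set.Icc E1 E2, S1 u := by
    rw [← integral_sub iK.integrableOn i1.integrableOn]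
    refine integral_congr_ae (Eventually.of_forall fun u => ?_)
    simp only [hSK, hS1]
    ring
  rw [hdiff]
  linarith

/-- the same in the form of averages -/
theorem full' {σ : ℝ} {V : T d L → ℝ} {K : T d L → ℝ} (hK : Rep K) (η' η : ℝ) (h0 : 0 < η')
    (hη' : η' ≤ η) (E1 E2 U : ℝ) :
    η' * Phi (volume.restrict (Set.Icc (-U) U)) K η' σ V ≤
      η * Phi (volume.restrict (Set.Icc E1 E2)) K η σ V -
      η * Phi (volume.restrict (Set.Icc E1 E2)) (fun _ => 1) η σ V +
      Real.pi * (Fintype.card (T d L) : ℝ) := by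
  have hη : 0 < η := h0.trans_le hη'
  have h1 := full (σ := σ) (V := V) hK η' η h0 hη' E1 E2 U
  rw [integral_const_mul, integral_const_mul, integral_sub (SS_int _ hK η hη σ V)
    (SS_int _ rep_one η hη σ V)] at h1
  unfold Phi
  linarith

theorem Phi_int (ν : Measure ℝ) [IsFiniteMeasure ν] (μ : Measure ℝ) [IsProbabilityMeasure μ]
    {K : T d L → ℝ} (hK : Rep K) (η : ℝ) (hη : 0 < η) (σ : ℝ) :
    Integrable (Phi ν K η σ) (PL (T d L) μ) := by
  refine Integrable.mono' (integrable_const ((Fintype.card (T d L) : ℝ) * (1 / η ^ 2) *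
    ν.real Set.univ)) (Phi_meas ν K η hη σ).aestronglyMeasurable (Eventually.of_forall fun V => ?_)
  rw [Real.norm_eq_abs]
  exact Phi_bdd ν hK η hη σ V

theorem avg (μ : Measure ℝ) [IsProbabilityMeasure μ] {σ : ℝ} {K : T d L → ℝ} (hK : Rep K)
    (η' η : ℝ) (h0 : 0 < η') (hη' : η' ≤ η) (E1 E2 U : ℝ) :
    η' * ∫ u in Set.Icc (-U) U, hv μ K η' σ u ≤
      η * (∫ u in Set.Icc E1 E2, hv μ K η σ u) -
      η * (∫ u in Set.Icc E1 E2, hv μ (fun _ : T d L => (1 : ℝ)) η σ u) + Real.pi := by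
  have hη : 0 < η := h0.trans_le hη'
  have hN : (0 : ℝ) < Fintype.card (T d L) := by exact_mod_cast Fintype.card_pos
  have i1 := Phi_int (volume.restrict (Set.Icc (-U) U)) μ hK η' h0 σ
  have i2 := Phi_int (volume.restrict (Set.Icc E1 E2)) μ hK η hη σ
  have i3 := Phi_int (volume.restrict (Set.Icc E1 E2)) μ (rep_one (d := d) (L := L)) η hη σ
  have h1 : ∫ V, η' * Phi (volume.restrict (Set.Icc (-U) U)) K η' σ V ∂(PL (T d L) μ) ≤
      ∫ V, (η * Phi (volume.restrict (Set.Icc E1 E2)) K η σ V -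
      η * Phi (volume.restrict (Set.Icc E1 E2)) (fun _ => 1) η σ V +
      Real.pi * (Fintype.card (T d L) : ℝ)) ∂(PL (T d L) μ) :=
    integral_mono (i1.const_mul _) (((i2.const_mul _).sub (i3.const_mul _)).add
      (integrable_const _)) fun V => full' hK η' η h0 hη' E1 E2 U
  have i23 : Integrable (fun V => η * Phi (volume.restrict (Set.Icc E1 E2)) K η σ V -
      η * Phi (volume.restrict (Set.Icc E1 E2)) (fun _ => 1) η σ V) (PL (T d L) μ) :=
    (i2.const_mul _).sub (i3.const_mul _)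
  rw [integral_add i23 (integrable_const _),
    integral_sub (i2.const_mul _) (i3.const_mul _), integral_const_mul, integral_const_mul,
    integral_const_mul, Phi_avg _ μ hK η' h0 σ, Phi_avg _ μ hK η hη σ,
    Phi_avg _ μ rep_one η hη σ, integral_const] at h1
  simp only [probReal_univ, smul_eq_mul, one_mul] at h1
  refine le_of_mul_le_mul_left ?_ hN
  linarith

end

section
variable {d : ℕ}

/-- the limit of large tori -/
theorem lim (μ : Measure ℝ) [IsProbabilityMeasure μ] (σ : ℝ)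
    (K : ∀ h : ℕ, T d (2 * h + 1) → ℝ) (hK : ∀ h, Rep (K h)) (η' η : ℝ) (h0 : 0 < η')
    (hη' : η' ≤ η) (E1 E2 U : ℝ) (l' l l1 : ℝ → ℝ)
    (hl' : ∀ u, Tendsto (fun h => hv μ (K h) η' σ u) atTop (𝓝 (l' u)))
    (hl : ∀ u, Tendsto (fun h => hv μ (K h) η σ u) atTop (𝓝 (l u)))
    (hl1 : ∀ u, Tendsto (fun h : ℕ => hv μ (fun _ : T d (2 * h + 1) => (1 : ℝ)) η σ u) atTop
      (𝓝 (l1 u))) :
    η' * ∫ u in Set.Icc (-U) U, l' u ≤
      η * (∫ u in Set.Icc E1 E2, l u) - η * (∫ u in Set.Icc E1 E2, l1 u) + Real.pi := by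
  have hη : 0 < η := h0.trans_le hη'
  have t1 := (hv_dom (volume.restrict (Set.Icc (-U) U)) μ K hK η' h0 σ l'
    (Eventually.of_forall hl')).const_mul η'
  have t2 := (hv_dom (volume.restrict (Set.Icc E1 E2)) μ K hK η hη σ l
    (Eventually.of_forall hl)).const_mul η
  have t3 := (hv_dom (volume.restrict (Set.Icc E1 E2)) μ (fun h => fun _ => 1)
    (fun h => rep_one) η hη σ l1 (Eventually.of_forall hl1)).const_mul η
  exact le_of_tendsto_of_tendsto' t1 ((t2.sub t3).add_const Real.pi) fun h =>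
    avg μ (hK h) η' η h0 hη' E1 E2 U

end

end Pool.Agent.Zk60.LQ.Et
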