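import Pool.Agent.Zk60.LQ.Et1

/-! # The averaged resolvent on the lattice, for all widths below the threshold -/

set_option autoImplicit false
set_option linter.unusedSectionVars false

open scoped BigOperators Topology
open MeasureTheory Filter

namespace Pool.Agent.Zk60.LQ.Et

open Pool.Agent.W788.MFP.Four (T NN NN_pos card_T)
open Pool.Agent.Zk11.QD
open Pool.Agent.Zk60.LL.Ker Pool.Agent.Zk60.LL.Prob Pool.Agent.Zk60.LL.Det Pool.Agent.Zk60.LL.Bnd
open Pool.Agent.Zk60.LL.Phi Pool.Agent.Zk60.LL.Lv Pool.Agent.Zk60.LL.Win Pool.Agent.Zk60.LL.Rar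
open Pool.Agent.Zk60.LL.Wdt Pool.Agent.Zk60.LL.Fin Pool.Agent.Zk60.LL.Dos

variable {d : ℕ}

theorem kz_large (i0 : Fin d) (s A : ℝ) (hs : 0 ≤ s) (hA : 0 ≤ A) (M : ℕ) (hM : 0 < M) (r : ℝ)
    (hr : 0 ≤ r) (hsm : s * (A * M) * r ≤ 1 / 4) (y : Zd d) (hy : |((y i0 : ℤ) : ℝ)| ≤ r) :
    1 / 2 ≤ ‖kz M (th i0 s A M) y‖ ^ 2 := by
  have hM0 : (0 : ℝ) < M := by exact_mod_cast hM
  have hMc : (M : ℂ) ≠ 0 := by exact_mod_cast hM.ne'
  have h1 : ∀ m : Fin M, ‖Complex.exp (((∑ j, th i0 s A M m j * y j : ℝ) : ℂ) * Complex.I) - 1‖ ≤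
      1 / 4 := by
    intro m
    have e1 : ∑ j, th i0 s A M m j * (y j : ℝ) = th i0 s A M m i0 * (y i0 : ℝ) := by
      rw [Finset.sum_eq_single i0]
      · intro j _ hj
        unfold th
        rw [Pi.single_eq_of_ne hj, mul_zero, zero_mul]
      · intro h; exact absurd (Finset.mem_univ _) h
    rw [e1, mul_comm (((th i0 s A M m i0 * (y i0 : ℝ) : ℝ) : ℂ)) Complex.I]
    refine (Real.norm_exp_I_mul_ofReal_sub_one_le).trans ?_
    rw [Real.norm_eq_abs, abs_mul]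
    exact (mul_le_mul (th_le i0 s A hs hA M m i0) hy (abs_nonneg _) (by positivity)).trans hsm
  have h2 : kz M (th i0 s A M) y - 1 = (1 / (M : ℂ)) *
      ∑ m : Fin M, (Complex.exp (((∑ j, th i0 s A M m j * y j : ℝ) : ℂ) * Complex.I) - 1) := by
    unfold kz
    rw [Finset.sum_sub_distrib, mul_sub, Finset.sum_const, Finset.card_univ, Fintype.card_fin,
      nsmul_eq_mul, mul_one, one_div_mul_cancel hMc]
  have h3 : ‖kz M (th i0 s A M) y - 1‖ ≤ 1 / 4 := by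
    rw [h2, norm_mul, norm_div, norm_one, Complex.norm_natCast]
    have h4 : ‖∑ m : Fin M, (Complex.exp (((∑ j, th i0 s A M m j * y j : ℝ) : ℂ) * Complex.I) - 1)‖
        ≤ M * (1 / 4) := by
      refine (norm_sum_le _ _).trans ((Finset.sum_le_sum fun m _ => h1 m).trans (le_of_eq ?_))
      rw [Finset.sum_const, Finset.card_univ, Fintype.card_fin, nsmul_eq_mul]
    calc 1 / (M : ℝ) * _ ≤ 1 / (M : ℝ) * (M * (1 / 4)) :=
          mul_le_mul_of_nonneg_left h4 (by positivity)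
      _ = 1 / 4 := by field_simp
  have h5 : 3 / 4 ≤ ‖kz M (th i0 s A M) y‖ := by
    have h6 := norm_sub_norm_le (1 : ℂ) (1 - kz M (th i0 s A M) y)
    rw [sub_sub_cancel, norm_one] at h6
    have h7 : ‖(1 : ℂ) - kz M (th i0 s A M) y‖ ≤ 1 / 4 := by rw [norm_sub_rev]; exact h3
    linarith
  nlinarith

theorem l_int (ν : Measure ℝ) [IsFiniteMeasure ν] (μ : Measure ℝ) [IsProbabilityMeasure μ]
    (K : ∀ h : ℕ, T d (2 * h + 1) → ℝ) (hK : ∀ h, Rep (K h)) (η : ℝ) (hη : 0 < η) (σ : ℝ)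
    (l : ℝ → ℝ) (hl : ∀ u, Tendsto (fun h => hv μ (K h) η σ u) atTop (𝓝 (l u))) :
    Integrable l ν := by
  refine Integrable.mono' (integrable_const (1 / η ^ 2)) ?_ (Eventually.of_forall fun u => ?_)
  · exact aestronglyMeasurable_of_tendsto_ae (u := atTop) (f := fun h u => hv μ (K h) η σ u)
      (fun h => (hv_cont μ (K h) η hη σ).aestronglyMeasurable) (Eventually.of_forall hl)
  · rw [Real.norm_eq_abs, abs_le]
    constructor
    · have h1 := ge_of_tendsto' (hl u) fun h => hv_nonneg μ (hK h) η σ u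
      have h2 : 0 ≤ 1 / η ^ 2 := by positivity
      linarith
    · exact le_of_tendsto' (hl u) fun h => hv_bdd μ (hK h) η hη σ u

theorem allη (hd : 3 ≤ d) (b v0 β ε : ℝ) (hv0 : 0 < v0) (hβ : β < 9 / 4) (hε : 0 < ε) :
    ∃ l0 : ℝ, 0 < l0 ∧ l0 ≤ 1 ∧ ∀ (μ : Measure ℝ) [IsProbabilityMeasure μ],
      (∀ᵐ s ∂μ, |s| ≤ b) →
      v0 ≤ ∫ s, (s - ∫ t, t ∂μ) ^ 2 ∂μ → ∀ lam : ℝ, 0 < lam → lam < l0 →
      ∀ (i0 : Fin d) (η' : ℝ), 0 < η' → η' ≤ lam ^ (5 / 2 : ℝ) →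
      ∀ G : ℝ → (Zd d → ℝ) → Zd d → ℂ, (∀ u : ℝ, ∀ᵐ ω ∂(PZ d μ),
        IsG lam ω ((u : ℂ) + η' * Complex.I) (G u ω)) →
      ∀ F : Finset (Zd d), (∀ y ∈ F, |((y i0 : ℤ) : ℝ)| ≤ lam ^ (-β)) → ∀ U : ℝ,
        η' * ∫ u in Set.Icc (-U) U, ∑ y ∈ F, ∫ ω, ‖G u ω y‖ ^ 2 ∂(PZ d μ) ≤ ε := by
  have hpi := Real.pi_pos
  have hd0 : (0 : ℝ) < d := by exact_mod_cast (by omega : 0 < d)
  set κ : ℝ := max (1 / 4) (β - 7 / 4) with hκ
  have hκ0 : 0 < κ := lt_of_lt_of_le (by norm_num) (le_max_left _ _)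
  have hκ1 : κ < 1 / 2 := max_lt (by norm_num) (by linarith)
  have hκ2 : 0 < 2 + κ / 2 - β := by
    have := le_max_right (1 / 4 : ℝ) (β - 7 / 4)
    rw [← hκ] at this
    linarith
  set ε4 : ℝ := ε / 2 with hε4
  have hε40 : 0 < ε4 := by positivity
  obtain ⟨E1, E2, hE1, hE12, hE2, hmass⟩ := dos_mass (d := d) hd (ε4 / 4) (by positivity)
  obtain ⟨C0, gm, hm, hC0, hgm, hhm, hbulk⟩ := bulk hd E1 E2 hE1 hE12.le hE2
  set I : ℝ := E2 - E1 with hI
  have hI0 : 0 < I := by linarith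
  set x : ℝ := ε4 / (8 * I) with hx
  have hx0 : 0 < x := by positivity
  have hxI : x * I = ε4 / 8 := by rw [hx]; field_simp
  set VM : ℝ := 4 * b ^ 2 + 1 with hVM
  have hVM0 : 0 < VM := by positivity
  set D0 : ℝ := hm / (4 * C0 ^ 2 * VM) with hD0
  have hD0pos : 0 < D0 := by positivity
  obtain ⟨A, M, hA, hM, hAM⟩ := choose_AM C0 D0 x hC0 hD0pos hx0
  obtain ⟨δ, hδ, hfin⟩ := fin_gen hd E1 E2 hE1 hE2 b v0 hv0 κ hκ0 hκ1 (A * M) x hx0
  have hM0 : (0 : ℝ) < M := by exact_mod_cast hM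
  obtain ⟨l1, hl1, hl1'⟩ := small_rpow κ δ hκ0 hδ
  obtain ⟨l2, hl2, hl2'⟩ := small_rpow (2 + κ / 2 - β) (1 / (16 * (A * M + 1))) hκ2
    (by positivity)
  refine ⟨min (min δ 1) (min l1 l2), lt_min (lt_min hδ one_pos) (lt_min hl1 hl2),
    (min_le_left _ _).trans (min_le_right _ _), ?_⟩
  intro μ _ hb hv lam hlam0 hlam i0 η' hη'0 hη'1 G hG F hF U
  simp only [lt_min_iff] at hlam
  obtain ⟨⟨q0, q3⟩, q1, q2⟩ := hlam
  set η : ℝ := lam ^ (2 + κ) with hη
  have hη0 : 0 < η := Real.rpow_pos_of_pos hlam0 _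
  have hη'η : η' ≤ η := hη'1.trans
    (Real.rpow_le_rpow_of_exponent_ge hlam0 q3.le (by linarith))
  have hηδ : η ≤ δ * lam ^ 2 := by
    rw [hη, Real.rpow_add hlam0, Real.rpow_two, mul_comm]
    exact mul_le_mul_of_nonneg_right (hl1' lam hlam0 q1) (by positivity)
  have hsq : lam * Real.sqrt η = lam ^ (2 + κ / 2) := by
    rw [hη, Real.sqrt_eq_rpow, ← Real.rpow_mul hlam0.le]
    have : lam * lam ^ ((2 + κ) * (1 / 2)) = lam ^ (1 : ℝ) * lam ^ ((2 + κ) * (1 / 2)) := by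
      rw [Real.rpow_one]
    rw [this, ← Real.rpow_add hlam0]
    congr 1
    ring
  have hR0 : 0 < lam ^ (-β) := Real.rpow_pos_of_pos hlam0 _
  have hsmall : lam * Real.sqrt η * (A * M) * lam ^ (-β) ≤ 1 / 4 := by
    have h1 := hl2' lam hlam0 q2
    have h2 : lam * Real.sqrt η * lam ^ (-β) = lam ^ (2 + κ / 2 - β) := by
      rw [hsq, ← Real.rpow_add hlam0]
      congr 1
    have h3 : lam * Real.sqrt η * (A * M) * lam ^ (-β) =
        (A * M) * (lam * Real.sqrt η * lam ^ (-β)) := by ring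
    rw [h3, h2]
    have h4 : (A * M) * lam ^ (2 + κ / 2 - β) ≤ (A * M + 1) * (1 / (16 * (A * M + 1))) := by
      apply mul_le_mul _ h1 (Real.rpow_nonneg hlam0.le _) (by positivity)
      linarith
    refine h4.trans ?_
    have : A * M + 1 ≠ 0 := by positivity
    have e1 : (A * M + 1) * (1 / (16 * (A * M + 1))) = 1 / 16 := by field_simp
    rw [e1]
    norm_num
  set Vv : ℝ := ∫ s, (s - ∫ t, t ∂μ) ^ 2 ∂μ with hVv
  have hVv0 : 0 < Vv := lt_of_lt_of_le hv0 hv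
  have hVle : Vv ≤ VM := (var_le μ b hb).trans (by linarith)
  set ν : Measure ℝ := volume.restrict (Set.Icc E1 E2) with hν
  have hgi : Integrable (fun u : ℝ => (g0 d u).im) ν := by
    have hgc : Continuous fun u : ℝ => (g0 d u).im := Complex.continuous_im.comp (g0_cont hd)
    exact hgc.continuousOn.integrableOn_compact isCompact_Icc
  -- the limits
  set θ := th i0 (lam * Real.sqrt η) A M with hθ
  have hl' := fun u : ℝ => hv_lim_K μ lam M hM θ η' u hη'0 (G u) (hG u)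
  have hz : ∀ u : ℝ, 0 < ((u : ℂ) + η * Complex.I).im := fun u => by simpa using hη0
  choose G' hG' using fun (u : ℝ) (ω : Zd d → ℝ) =>
    isG_exists lam ω ((u : ℂ) + η * Complex.I) (hz u)
  have hl := fun u : ℝ => hv_lim_K μ lam M hM θ η u hη0 (G' u) (Eventually.of_forall (hG' u))
  have hl1 := fun u : ℝ => hv_lim_1 μ lam η u hη0 (G' u) (Eventually.of_forall (hG' u))
  have hmain := lim μ lam (fun h => KT (d := d) (2 * h + 1) M θ) (fun h => rep_KT M hM _) η' η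
    hη'0 hη'η E1 E2 U _ _ _ hl' hl hl1
  set l' : ℝ → ℝ := fun u => (∑' y : Zd d, ((‖kz M θ y‖ ^ 2 : ℝ) : ℂ) *
    ((∫ ω, ‖G u ω y‖ ^ 2 ∂(PZ d μ) : ℝ) : ℂ)).re with hl'def
  set l : ℝ → ℝ := fun u => (∑' y : Zd d, ((‖kz M θ y‖ ^ 2 : ℝ) : ℂ) *
    ((∫ ω, ‖G' u ω y‖ ^ 2 ∂(PZ d μ) : ℝ) : ℂ)).re with hldef
  set L1 : ℝ → ℝ := fun u => (∑' y : Zd d,
    ((∫ ω, ‖G' u ω y‖ ^ 2 ∂(PZ d μ) : ℝ) : ℂ)).re with hL1def
  have il' : Integrable l' (volume.restrict (Set.Icc (-U) U)) :=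
    l_int _ μ _ (fun h => rep_KT M hM θ) η' hη'0 lam l' hl'
  have il : Integrable l ν := l_int _ μ _ (fun h => rep_KT M hM θ) η hη0 lam l hl
  have iL1 : Integrable L1 ν := l_int _ μ (fun h => fun _ => 1) (fun h => rep_one) η hη0 lam L1 hl1
  -- the upper bound
  have up : η * ∫ u in Set.Icc E1 E2, l u ≤ 2 * x * I := by
    rw [← integral_const_mul]
    have h1 : ∫ u in Set.Icc E1 E2, η * l u ≤ ∫ _u in Set.Icc E1 E2, 2 * x := by
      refine integral_mono_ae (il.const_mul _) (integrable_const _) ?_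
      refine (ae_restrict_mem measurableSet_Icc).mono fun u hu => ?_
      obtain ⟨g1, g2, g3⟩ := hbulk u hu
      have hgp : 0 < (g0 d u).im := hgm.trans_le g1
      obtain ⟨l2, hl2, hl2'⟩ := lim_K μ lam η u hη0 i0 A hA M hM x Vv D0 hD0pos (by
        rw [hD0]
        apply div_le_div₀ (hhm.le.trans g3) g3 (by positivity)
        have h1 : (g0 d u).im ^ 2 ≤ C0 ^ 2 := pow_le_pow_left₀ hgp.le g2 2
        calc 4 * (g0 d u).im ^ 2 * Vv ≤ 4 * C0 ^ 2 * Vv :=
              mul_le_mul_of_nonneg_right (by linarith) hVv0.le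
          _ ≤ 4 * C0 ^ 2 * VM := mul_le_mul_of_nonneg_left hVle (by positivity)) hgp.le
        (fun P hP G hG => hfin μ hb Vv hVv hv u hu.1 hu.2 P hP lam η hlam0 q0 le_rfl hηδ G hG)
      have e1 : l2 = l u := tendsto_nhds_unique hl2 (hl u)
      rw [e1] at hl2'
      refine hl2'.trans ?_
      have h2 : (g0 d u).im * (1 / M + 1 / (1 + D0 * A ^ 2)) ≤
          C0 * (1 / M + 1 / (1 + D0 * A ^ 2)) := mul_le_mul_of_nonneg_right g2 (by positivity)
      linarith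
    refine h1.trans (le_of_eq ?_)
    rw [Pool.Agent.Zk60.LL.Wfin.const_restrict E1 E2 _ hE12.le]
  have low : Real.pi - ε4 / 4 - x * I ≤ η * ∫ u in Set.Icc E1 E2, L1 u := by
    rw [← integral_const_mul]
    have h1 : ∫ u in Set.Icc E1 E2, ((g0 d u).im - x) ≤ ∫ u in Set.Icc E1 E2, η * L1 u := by
      refine integral_mono_ae (hgi.sub (integrable_const _)) (iL1.const_mul _) ?_
      refine (ae_restrict_mem measurableSet_Icc).mono fun u hu => ?_
      obtain ⟨l2, hl2, hl2'⟩ := lim_1 μ lam η u hη0 x Vv (A * M) (by positivity)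
        (fun P hP G hG => hfin μ hb Vv hVv hv u hu.1 hu.2 P hP lam η hlam0 q0 le_rfl hηδ G hG)
      have e1 : l2 = L1 u := tendsto_nhds_unique hl2 (hl1 u)
      rw [e1] at hl2'
      have := (abs_le.1 hl2').1
      simp only
      linarith
    rw [integral_sub hgi (integrable_const _), Pool.Agent.Zk60.LL.Wfin.const_restrict E1 E2 _ hE12.le] at h1
    have e1 : x * (E2 - E1) = x * I := by rw [hI]
    rw [e1] at h1
    linarith
  -- the lower bound of the left side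
  have left : 1 / 2 * ∫ u in Set.Icc (-U) U, ∑ y ∈ F, ∫ ω, ‖G u ω y‖ ^ 2 ∂(PZ d μ) ≤
      ∫ u in Set.Icc (-U) U, l' u := by
    rw [← integral_const_mul]
    refine integral_mono_of_nonneg (Eventually.of_forall fun u => ?_) il'
      (Eventually.of_forall fun u => ?_)
    · exact mul_nonneg (by norm_num) (Finset.sum_nonneg fun y _ =>
        integral_nonneg fun ω => by positivity)
    · simp only
      have hz' : 0 < ((u : ℂ) + η' * Complex.I).im := by simpa using hη'0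
      set a : Zd d → ℝ := fun y => ∫ ω, ‖G u ω y‖ ^ 2 ∂(PZ d μ) with ha
      have hs : Summable a := G_summable μ lam _ hz' (G u) (hG u)
      have ha0 : ∀ y, 0 ≤ a y := fun y => integral_nonneg fun ω => by positivity
      have hs2 : Summable fun y => ‖kz M θ y‖ ^ 2 * a y := by
        refine Summable.of_nonneg_of_le (fun y => mul_nonneg (by positivity) (ha0 y))
          (fun y => ?_) hs
        have h1 : ‖kz M θ y‖ ^ 2 ≤ 1 := pow_le_one₀ (norm_nonneg _) (kz_le M hM θ y)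
        exact mul_le_of_le_one_left (ha0 y) h1
      have e1 : l' u = ∑' y, ‖kz M θ y‖ ^ 2 * a y := by
        rw [hl'def]
        simp only
        have h1 : ∀ y, ((‖kz M θ y‖ ^ 2 : ℝ) : ℂ) *
            ((∫ ω, ‖G u ω y‖ ^ 2 ∂(PZ d μ) : ℝ) : ℂ) = ((‖kz M θ y‖ ^ 2 * a y : ℝ) : ℂ) := by
          intro y
          rw [ha]
          push_cast
          rfl
        rw [tsum_congr h1, ← Complex.ofReal_tsum, Complex.ofReal_re]
      rw [e1, Finset.mul_sum]
      refine (Finset.sum_le_sum fun y hy => ?_).trans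
        (hs2.sum_le_tsum F fun y _ => mul_nonneg (by positivity) (ha0 y))
      exact mul_le_mul_of_nonneg_right (kz_large i0 _ A (by positivity) hA M hM _ hR0.le hsmall y
        (hF y hy)) (ha0 y)
  have h9 := mul_le_mul_of_nonneg_left left hη'0.le
  have e9 : 2 * x * I = 2 * (x * I) := by ring
  rw [e9, hxI] at up
  rw [hxI] at low
  have : ε4 = ε / 2 := hε4
  linarith

end Pool.Agent.Zk60.LQ.Et
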