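import Pool.Agent.Zk60.LQ.Et2
import Pool.Agent.Zk93.TE.Ann

/-! # From the resolvent to the evolution -/

set_option autoImplicit false
set_option linter.unusedSectionVars false

open scoped BigOperators Topology
open MeasureTheory Filter

namespace Pool.Agent.Zk60.LQ.Et

open Pool.Agent.Zk93.TE (Ev psi psi_ev ev_unique cl cl_bd cl_eq psi_meas psi_meas2 green
  lap_planch lap_sq)
open Pool.Agent.Zk11.QD (Zd PZ IsG Lap HZ lap_integrable exp_norm exp_int exp_val)

variable {d : ℕ}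

/-- the Laplace transform of the evolution -/
noncomputable def Gl (lam b η u : ℝ) (ω : Zd d → ℝ) (x : Zd d) : ℂ :=
  Lap (fun t => psi lam (cl b ω) 0 t x) ((u : ℂ) + η * Complex.I)

theorem psi_meas3 {b : ℝ} (hb : 0 ≤ b) (lam : ℝ) (x : Zd d) :
    Measurable fun q : (ℝ × (Zd d → ℝ)) × ℝ => psi lam (cl b q.1.2) 0 q.2 x := by
  have h3 : Measurable fun q : (ℝ × (Zd d → ℝ)) × ℝ => (q.2, q.1.2) :=
    measurable_snd.prodMk (measurable_snd.comp measurable_fst)
  have h4 := (psi_meas2 (d := d) hb lam 0 x).comp h3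
  exact h4

theorem exp_meas3 (η : ℝ) : Measurable fun q : (ℝ × (Zd d → ℝ)) × ℝ =>
    Complex.exp (Complex.I * ((q.1.1 : ℂ) + η * Complex.I) * q.2) := by
  have h1 : Measurable fun q : (ℝ × (Zd d → ℝ)) × ℝ => ((q.1.1 : ℝ) : ℂ) :=
    Complex.measurable_ofReal.comp (measurable_fst.comp measurable_fst)
  have h2 : Measurable fun q : (ℝ × (Zd d → ℝ)) × ℝ => ((q.2 : ℝ) : ℂ) :=
    Complex.measurable_ofReal.comp measurable_snd
  exact Complex.measurable_exp.comp ((measurable_const.mul (h1.add measurable_const)).mul h2)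

theorem Gl_meas {b : ℝ} (hb : 0 ≤ b) (lam η : ℝ) (x : Zd d) :
    StronglyMeasurable fun p : ℝ × (Zd d → ℝ) => Gl lam b η p.1 p.2 x := by
  have h1 : StronglyMeasurable fun q : (ℝ × (Zd d → ℝ)) × ℝ =>
      Complex.exp (Complex.I * ((q.1.1 : ℂ) + η * Complex.I) * q.2) *
        psi lam (cl b q.1.2) 0 q.2 x :=
    ((exp_meas3 η).mul (psi_meas3 hb lam x)).stronglyMeasurable
  have h2 := StronglyMeasurable.integral_prod_right' (ν := volume.restrict (Set.Ioi (0 : ℝ))) h1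
  have h3 := h2.const_mul Complex.I
  exact h3

theorem Gl_sq {b : ℝ} (hb : 0 ≤ b) (lam η u : ℝ) (hη : 0 < η) (ω : Zd d → ℝ) (x : Zd d) :
    ‖Gl lam b η u ω x‖ ^ 2 ≤ 1 / η ^ 2 := by
  have hz : 0 < ((u : ℂ) + η * Complex.I).im := by simpa using hη
  have him : ((u : ℂ) + η * Complex.I).im = η := by simp
  have hev := psi_ev (lam := lam) (cl_bd hb ω) (0 : Zd d)
  have h1 := lap_sq (F := fun t => psi lam (cl b ω) 0 t x) (hev.cont x)
    (fun t => hev.le_one t x) _ hz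
  rw [him] at h1
  have h2 : ∫ t in Set.Ioi (0 : ℝ), Real.exp (-(η * t)) * ‖psi lam (cl b ω) 0 t x‖ ^ 2 ≤
      ∫ t in Set.Ioi (0 : ℝ), Real.exp (-(η * t)) := by
    refine integral_mono_of_nonneg (Eventually.of_forall fun t => by positivity) (exp_int η hη)
      (Eventually.of_forall fun t => ?_)
    exact mul_le_of_le_one_right (Real.exp_pos _).le
      (pow_le_one₀ (norm_nonneg _) (hev.le_one t x))
  rw [exp_val η hη] at h2
  unfold Gl
  refine h1.trans ((mul_le_mul_of_nonneg_left h2 (by positivity)).trans (le_of_eq ?_))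
  field_simp

theorem Gl_isG {μ : Measure ℝ} [IsProbabilityMeasure μ] {b : ℝ} (hb : ∀ᵐ s ∂μ, |s| ≤ b)
    (lam η u : ℝ) (hη : 0 < η) :
    ∀ᵐ ω ∂(PZ d μ), IsG lam ω ((u : ℂ) + η * Complex.I) (Gl lam b η u ω) := by
  have hz : 0 < ((u : ℂ) + η * Complex.I).im := by simpa using hη
  have h1 : ∀ᵐ ω ∂(PZ d μ), ∀ x : Zd d, |ω x| ≤ b := Pool.Agent.Zk11.QQ.ae_Z μ b hb
  filter_upwards [h1] with ω hω
  have h2 := green (lam := lam) hω (psi_ev hω 0) ((u : ℂ) + η * Complex.I) hz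
  have h3 : Gl lam b η u ω = fun x => Lap (fun t => psi lam ω 0 t x) ((u : ℂ) + η * Complex.I) := by
    funext x
    unfold Gl
    rw [cl_eq hω]
  rw [h3]
  exact h2

/-- the sum over the sites -/
noncomputable def Sf (lam b η : ℝ) (F : Finset (Zd d)) (u : ℝ) (ω : Zd d → ℝ) : ℝ :=
  ∑ y ∈ F, ‖Gl lam b η u ω y‖ ^ 2

theorem Sf_meas {b : ℝ} (hb : 0 ≤ b) (lam η : ℝ) (F : Finset (Zd d)) :
    StronglyMeasurable fun p : ℝ × (Zd d → ℝ) => Sf lam b η F p.1 p.2 := by
  unfold Sf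
  exact Finset.stronglyMeasurable_fun_sum _ fun y _ => (Gl_meas hb lam η y).norm.pow 2

theorem Sf_nonneg (lam b η : ℝ) (F : Finset (Zd d)) (u : ℝ) (ω : Zd d → ℝ) :
    0 ≤ Sf lam b η F u ω := Finset.sum_nonneg fun _ _ => by positivity

theorem Sf_le {b : ℝ} (hb : 0 ≤ b) (lam η u : ℝ) (hη : 0 < η) (F : Finset (Zd d))
    (ω : Zd d → ℝ) : Sf lam b η F u ω ≤ F.card * (1 / η ^ 2) := by
  unfold Sf
  refine (Finset.sum_le_sum fun y _ => Gl_sq hb lam η u hη ω y).trans (le_of_eq ?_)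
  rw [Finset.sum_const, nsmul_eq_mul]

/-- Plancherel -/
theorem Sf_planch {b : ℝ} (hb : 0 ≤ b) (lam η : ℝ) (hη : 0 < η) (F : Finset (Zd d))
    (ω : Zd d → ℝ) : Integrable (fun u => Sf lam b η F u ω) ∧
      ∫ u, Sf lam b η F u ω = 2 * Real.pi * ∑ y ∈ F,
        ∫ t in Set.Ioi (0 : ℝ), Real.exp (-(2 * η * t)) * ‖psi lam (cl b ω) 0 t y‖ ^ 2 := by
  have hev := psi_ev (lam := lam) (cl_bd hb ω) (0 : Zd d)
  have h1 := fun y : Zd d => lap_planch (F := fun t => psi lam (cl b ω) 0 t y) (hev.cont y)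
    (fun t => hev.le_one t y) η hη
  unfold Sf Gl
  refine ⟨integrable_finsetSum _ fun y _ => (h1 y).1, ?_⟩
  rw [integral_finsetSum _ fun y _ => (h1 y).1, Finset.mul_sum]
  exact Finset.sum_congr rfl fun y _ => (h1 y).2

theorem Sf_tot {b : ℝ} (hb : 0 ≤ b) (lam η : ℝ) (hη : 0 < η) (F : Finset (Zd d))
    (ω : Zd d → ℝ) : ∫ u, Sf lam b η F u ω ≤ F.card * (Real.pi / η) := by
  have hev := psi_ev (lam := lam) (cl_bd hb ω) (0 : Zd d)
  rw [(Sf_planch hb lam η hη F ω).2]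
  have h1 : ∀ y ∈ F, ∫ t in Set.Ioi (0 : ℝ), Real.exp (-(2 * η * t)) *
      ‖psi lam (cl b ω) 0 t y‖ ^ 2 ≤ 1 / (2 * η) := by
    intro y _
    rw [← exp_val (2 * η) (by positivity)]
    refine integral_mono_of_nonneg (Eventually.of_forall fun t => by positivity)
      (exp_int (2 * η) (by positivity)) (Eventually.of_forall fun t => ?_)
    exact mul_le_of_le_one_right (Real.exp_pos _).le
      (pow_le_one₀ (norm_nonneg _) (hev.le_one t y))
  have h2 := Finset.sum_le_sum h1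
  rw [Finset.sum_const, nsmul_eq_mul] at h2
  have hpi := Real.pi_pos
  refine (mul_le_mul_of_nonneg_left h2 (by positivity)).trans (le_of_eq ?_)
  field_simp

theorem ef {b : ℝ} (hb : 0 ≤ b) (μ : Measure ℝ) [IsProbabilityMeasure μ] (lam η : ℝ) (hη : 0 < η)
    (F : Finset (Zd d)) (ε : ℝ)
    (h : ∀ U : ℝ, η * ∫ u in Set.Icc (-U) U, ∑ y ∈ F, ∫ ω, ‖Gl lam b η u ω y‖ ^ 2 ∂(PZ d μ) ≤ ε) :
    η * ∫ ω, (∫ u, Sf lam b η F u ω) ∂(PZ d μ) ≤ ε := by
  have hI : ∀ u : ℝ, ∑ y ∈ F, ∫ ω, ‖Gl lam b η u ω y‖ ^ 2 ∂(PZ d μ) =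
      ∫ ω, Sf lam b η F u ω ∂(PZ d μ) := by
    intro u
    unfold Sf
    rw [integral_finsetSum]
    intro y _
    refine Integrable.mono' (integrable_const (1 / η ^ 2)) ?_ (Eventually.of_forall fun ω => ?_)
    · exact (((Gl_meas hb lam η y).comp_measurable
        (measurable_prodMk_left (x := u))).norm.pow 2).aestronglyMeasurable
    · rw [Real.norm_eq_abs, abs_of_nonneg (by positivity)]
      exact Gl_sq hb lam η u hη ω y
  have hswap : ∀ U : ℝ, ∫ u in Set.Icc (-U) U, ∑ y ∈ F, ∫ ω, ‖Gl lam b η u ω y‖ ^ 2 ∂(PZ d μ) =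
      ∫ ω, (∫ u in Set.Icc (-U) U, Sf lam b η F u ω) ∂(PZ d μ) := by
    intro U
    simp only [hI]
    refine integral_integral_swap (f := fun (u : ℝ) (ω : Zd d → ℝ) => Sf lam b η F u ω) ?_
    refine Integrable.mono' (integrable_const ((F.card : ℝ) * (1 / η ^ 2)))
      (Sf_meas hb lam η F).aestronglyMeasurable (Eventually.of_forall fun p => ?_)
    show ‖Sf lam b η F p.1 p.2‖ ≤ _
    rw [Real.norm_eq_abs, abs_of_nonneg (Sf_nonneg _ _ _ _ _ _)]
    exact Sf_le hb lam η p.1 hη F p.2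
  have hlim : Tendsto (fun n : ℕ => ∫ ω, (∫ u in Set.Icc (-(n : ℝ)) n, Sf lam b η F u ω)
      ∂(PZ d μ)) atTop (𝓝 (∫ ω, (∫ u, Sf lam b η F u ω) ∂(PZ d μ))) := by
    refine tendsto_integral_of_dominated_convergence (fun _ => F.card * (Real.pi / η)) ?_
      (integrable_const _) ?_ ?_
    · intro n
      exact (StronglyMeasurable.integral_prod_left' (μ := volume.restrict
        (Set.Icc (-(n : ℝ)) n)) (Sf_meas hb lam η F)).aestronglyMeasurable
    · intro n
      refine Eventually.of_forall fun ω => ?_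
      rw [Real.norm_eq_abs, abs_of_nonneg (integral_nonneg fun u => Sf_nonneg _ _ _ _ _ _)]
      refine (setIntegral_le_integral (Sf_planch hb lam η hη F ω).1
        (Eventually.of_forall fun u => Sf_nonneg _ _ _ _ _ _)).trans (Sf_tot hb lam η hη F ω)
    · refine Eventually.of_forall fun ω => ?_
      have h1 := tendsto_setIntegral_of_monotone (μ := volume)
        (f := fun u => Sf lam b η F u ω) (s := fun n : ℕ => Set.Icc (-(n : ℝ)) n)
        (fun n => measurableSet_Icc) (fun m n hmn => by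
          have : (m : ℝ) ≤ n := by exact_mod_cast hmn
          exact Set.Icc_subset_Icc (by linarith) this)
        ((Sf_planch hb lam η hη F ω).1.integrableOn)
      have h2 : (⋃ n : ℕ, Set.Icc (-(n : ℝ)) n) = Set.univ := by
        rw [Set.eq_univ_iff_forall]
        intro x
        obtain ⟨n, hn⟩ := exists_nat_ge |x|
        exact Set.mem_iUnion.2 ⟨n, abs_le.1 hn⟩
      rw [h2, setIntegral_univ] at h1
      exact h1
  refine le_of_tendsto' (hlim.const_mul η) fun n => ?_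
  rw [← hswap]
  exact h n

end Pool.Agent.Zk60.LQ.Et
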