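import Pool.Agent.Zk60.LQ.Et3

/-! # The evolution leaves every slab, at all times -/

set_option autoImplicit false
set_option linter.unusedSectionVars false

open scoped BigOperators Topology
open MeasureTheory Filter

namespace Pool.Agent.Zk60.LQ.Et

open Pool.Agent.Zk93.TE (Ev psi psi_ev ev_unique cl cl_bd cl_eq psi_meas psi_meas2 green
  lap_planch lap_sq)
open Pool.Agent.Zk11.QD (Zd PZ IsG Lap HZ lap_integrable exp_norm exp_int exp_val)

variable {d : ℕ}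

/-- the mass on the sites of `F` -/
noncomputable def mF (lam b : ℝ) (F : Finset (Zd d)) (t : ℝ) (ω : Zd d → ℝ) : ℝ :=
  ∑ y ∈ F, ‖psi lam (cl b ω) 0 t y‖ ^ 2

theorem mF_meas {b : ℝ} (hb : 0 ≤ b) (lam : ℝ) (F : Finset (Zd d)) :
    StronglyMeasurable fun p : ℝ × (Zd d → ℝ) => mF lam b F p.1 p.2 := by
  unfold mF
  exact Finset.stronglyMeasurable_fun_sum _ fun y _ =>
    (psi_meas2 (d := d) hb lam 0 y).stronglyMeasurable.norm.pow 2

theorem mF_nonneg (lam b : ℝ) (F : Finset (Zd d)) (t : ℝ) (ω : Zd d → ℝ) :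
    0 ≤ mF lam b F t ω := Finset.sum_nonneg fun _ _ => by positivity

theorem mF_le {b : ℝ} (hb : 0 ≤ b) (lam : ℝ) (F : Finset (Zd d)) (t : ℝ) (ω : Zd d → ℝ) :
    mF lam b F t ω ≤ 1 :=
  sum_le_hasSum F (fun x _ => by positivity) ((psi_ev (lam := lam) (cl_bd hb ω) 0).mass t)

theorem mF_cont {b : ℝ} (hb : 0 ≤ b) (lam : ℝ) (F : Finset (Zd d)) (ω : Zd d → ℝ) :
    Continuous fun t => mF lam b F t ω := by
  unfold mF
  exact continuous_finsetSum _ fun y _ =>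
    ((psi_ev (lam := lam) (cl_bd hb ω) 0).cont y).norm.pow 2

theorem low {b : ℝ} (hb : 0 ≤ b) (lam T : ℝ) (hT : 0 < T) (F : Finset (Zd d)) (ω : Zd d → ℝ) :
    2 * Real.pi * (Real.exp (-1) * ∫ t in Set.Ioc (0 : ℝ) T, mF lam b F t ω) ≤
      ∫ u, Sf lam b (1 / (2 * T)) F u ω := by
  have hη : 0 < 1 / (2 * T) := by positivity
  have hpi := Real.pi_pos
  rw [(Sf_planch hb lam _ hη F ω).2]
  refine mul_le_mul_of_nonneg_left ?_ (by positivity)
  have hev := psi_ev (lam := lam) (cl_bd hb ω) (0 : Zd d)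
  have hi : ∀ y : Zd d, IntegrableOn (fun t => Real.exp (-(2 * (1 / (2 * T)) * t)) *
      ‖psi lam (cl b ω) 0 t y‖ ^ 2) (Set.Ioi 0) := by
    intro y
    refine Integrable.mono' (exp_int (2 * (1 / (2 * T))) (by positivity)) ?_
      (Eventually.of_forall fun t => ?_)
    · exact (Continuous.mul (by fun_prop) ((hev.cont y).norm.pow 2)).aestronglyMeasurable
    · rw [Real.norm_eq_abs, abs_of_nonneg (by positivity)]
      exact mul_le_of_le_one_right (Real.exp_pos _).le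
        (pow_le_one₀ (norm_nonneg _) (hev.le_one t y))
  have hiF : IntegrableOn (fun t => ∑ y ∈ F, Real.exp (-(2 * (1 / (2 * T)) * t)) *
      ‖psi lam (cl b ω) 0 t y‖ ^ 2) (Set.Ioi 0) := integrable_finsetSum _ fun y _ => hi y
  rw [← integral_finsetSum _ fun y _ => hi y, ← integral_const_mul]
  have h1 : ∫ t in Set.Ioc (0 : ℝ) T, Real.exp (-1) * mF lam b F t ω ≤
      ∫ t in Set.Ioc (0 : ℝ) T, ∑ y ∈ F, Real.exp (-(2 * (1 / (2 * T)) * t)) *
        ‖psi lam (cl b ω) 0 t y‖ ^ 2 := by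
    refine setIntegral_mono_on ?_ ?_ measurableSet_Ioc fun t ht => ?_
    · exact ((continuous_const.mul (mF_cont hb lam F ω)).integrableOn_Icc).mono_set
        Set.Ioc_subset_Icc_self
    · exact hiF.mono_set Set.Ioc_subset_Ioi_self
    · rw [← Finset.mul_sum]
      refine mul_le_mul_of_nonneg_right (Real.exp_le_exp.2 ?_) (mF_nonneg _ _ _ _ _)
      have h2 : 2 * (1 / (2 * T)) * t = t / T := by field_simp
      rw [h2]
      have h3 : t / T ≤ 1 := (div_le_one hT).2 ht.2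
      linarith
  refine h1.trans (setIntegral_mono_set hiF
    (Eventually.of_forall fun t => Finset.sum_nonneg fun y _ => by positivity)
    (Eventually.of_forall Set.Ioc_subset_Ioi_self))

theorem canon (μ : Measure ℝ) [IsProbabilityMeasure μ] {b : ℝ} (hb0 : 0 ≤ b)
    (lam T : ℝ) (hT : 0 < T) (F : Finset (Zd d)) (ε : ℝ)
    (h : 1 / (2 * T) * ∫ ω, (∫ u, Sf lam b (1 / (2 * T)) F u ω) ∂(PZ d μ) ≤ ε) :
    1 / T * ∫ t in (0 : ℝ)..T, ∑ y ∈ F, ∫ ω, ‖psi lam (cl b ω) 0 t y‖ ^ 2 ∂(PZ d μ) ≤ ε := by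
  have hpi := Real.pi_pos
  have hη : 0 < 1 / (2 * T) := by positivity
  have e1 : ∀ t : ℝ, ∑ y ∈ F, ∫ ω, ‖psi lam (cl b ω) 0 t y‖ ^ 2 ∂(PZ d μ) =
      ∫ ω, mF lam b F t ω ∂(PZ d μ) := by
    intro t
    unfold mF
    rw [integral_finsetSum]
    intro y _
    refine Integrable.mono' (integrable_const 1)
      ((psi_meas hb0 lam 0 t y).norm.pow_const 2).aestronglyMeasurable
      (Eventually.of_forall fun ω => ?_)
    rw [Real.norm_eq_abs, abs_of_nonneg (by positivity)]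
    exact pow_le_one₀ (norm_nonneg _) ((psi_ev (cl_bd hb0 ω) 0).le_one t y)
  simp only [e1]
  rw [intervalIntegral.integral_of_le hT.le]
  have e2 : ∫ t in Set.Ioc (0 : ℝ) T, ∫ ω, mF lam b F t ω ∂(PZ d μ) =
      ∫ ω, (∫ t in Set.Ioc (0 : ℝ) T, mF lam b F t ω) ∂(PZ d μ) := by
    refine integral_integral_swap (f := fun (t : ℝ) (ω : Zd d → ℝ) => mF lam b F t ω) ?_
    refine Integrable.mono' (integrable_const 1) (mF_meas hb0 lam F).aestronglyMeasurable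
      (Eventually.of_forall fun p => ?_)
    show ‖mF lam b F p.1 p.2‖ ≤ _
    rw [Real.norm_eq_abs, abs_of_nonneg (mF_nonneg _ _ _ _ _)]
    exact mF_le hb0 lam F p.1 p.2
  rw [e2]
  have i1 : Integrable (fun ω => ∫ t in Set.Ioc (0 : ℝ) T, mF lam b F t ω) (PZ d μ) := by
    refine Integrable.mono' (integrable_const T) (StronglyMeasurable.integral_prod_left'
      (μ := volume.restrict (Set.Ioc (0 : ℝ) T)) (mF_meas hb0 lam F)).aestronglyMeasurable
      (Eventually.of_forall fun ω => ?_)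
    rw [Real.norm_eq_abs, abs_of_nonneg (integral_nonneg fun t => mF_nonneg _ _ _ _ _)]
    have h1 : ∫ t in Set.Ioc (0 : ℝ) T, mF lam b F t ω ≤ ∫ _t in Set.Ioc (0 : ℝ) T, (1 : ℝ) := by
      refine integral_mono_of_nonneg (Eventually.of_forall fun t => mF_nonneg _ _ _ _ _)
        (integrable_const _) (Eventually.of_forall fun t => mF_le hb0 lam F t ω)
    refine h1.trans (le_of_eq ?_)
    rw [setIntegral_const, measureReal_def, Real.volume_Ioc, sub_zero,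
      ENNReal.toReal_ofReal hT.le, smul_eq_mul, mul_one]
  have i2 : Integrable (fun ω => ∫ u, Sf lam b (1 / (2 * T)) F u ω) (PZ d μ) := by
    refine Integrable.mono' (integrable_const (F.card * (Real.pi / (1 / (2 * T)))))
      (StronglyMeasurable.integral_prod_left' (μ := volume)
        (Sf_meas hb0 lam (1 / (2 * T)) F)).aestronglyMeasurable (Eventually.of_forall fun ω => ?_)
    rw [Real.norm_eq_abs, abs_of_nonneg (integral_nonneg fun u => Sf_nonneg _ _ _ _ _ _)]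
    exact Sf_tot hb0 lam _ hη F ω
  have h2 := integral_mono ((i1.const_mul (Real.exp (-1))).const_mul (2 * Real.pi)) i2
    fun ω => low hb0 lam T hT F ω
  rw [integral_const_mul, integral_const_mul] at h2
  set X := ∫ ω, (∫ t in Set.Ioc (0 : ℝ) T, mF lam b F t ω) ∂(PZ d μ) with hX
  have hX0 : 0 ≤ X := integral_nonneg fun ω => integral_nonneg fun t => mF_nonneg _ _ _ _ _
  have he : 1 ≤ Real.pi * Real.exp (-1) := by
    rw [Real.exp_neg, ← div_eq_mul_inv, le_div_iff₀ (Real.exp_pos _), one_mul]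
    have := Real.exp_one_lt_d9
    have := Real.pi_gt_three
    linarith
  calc 1 / T * X = 1 / (2 * T) * (2 * (1 * X)) := by field_simp
    _ ≤ 1 / (2 * T) * (2 * (Real.pi * Real.exp (-1) * X)) := by
        refine mul_le_mul_of_nonneg_left ?_ hη.le
        refine mul_le_mul_of_nonneg_left ?_ (by norm_num)
        exact mul_le_mul_of_nonneg_right he hX0
    _ = 1 / (2 * T) * (2 * Real.pi * (Real.exp (-1) * X)) := by ring
    _ ≤ 1 / (2 * T) * ∫ ω, (∫ u, Sf lam b (1 / (2 * T)) F u ω) ∂(PZ d μ) :=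
        mul_le_mul_of_nonneg_left h2 hη.le
    _ ≤ ε := h

/-- **The evolution leaves every slab, at all times.** -/
theorem leave (hd : 3 ≤ d) (b v0 β ε : ℝ) (hv0 : 0 < v0) (hβ : β < 9 / 4) (hε : 0 < ε) :
    ∃ l0 : ℝ, 0 < l0 ∧ ∀ (μ : Measure ℝ) [IsProbabilityMeasure μ],
      (∀ᵐ s ∂μ, |s| ≤ b) →
      v0 ≤ ∫ s, (s - ∫ t, t ∂μ) ^ 2 ∂μ → ∀ lam : ℝ, 0 < lam → lam < l0 →
      ∀ ψ : (Zd d → ℝ) → ℝ → Zd d → ℂ, (∀ᵐ ω ∂(PZ d μ), Ev lam ω 0 (ψ ω)) →
      ∀ (i0 : Fin d) (F : Finset (Zd d)), (∀ y ∈ F, |((y i0 : ℤ) : ℝ)| ≤ lam ^ (-β)) →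
      ∀ T : ℝ, lam ^ (-(5 / 2 : ℝ)) ≤ T →
        1 / T * ∫ t in (0 : ℝ)..T, ∑ y ∈ F, ∫ ω, ‖ψ ω t y‖ ^ 2 ∂(PZ d μ) ≤ ε := by
  obtain ⟨l0, hl0, hl1, hall⟩ := allη hd b v0 β ε hv0 hβ hε
  refine ⟨l0, hl0, ?_⟩
  intro μ _ hb hv lam hlam0 hlam ψ hψ i0 F hF T hT
  have hb0 : 0 ≤ b := by
    obtain ⟨s, hs⟩ := hb.exists
    exact (abs_nonneg s).trans hs
  have hT0 : 0 < T := lt_of_lt_of_le (Real.rpow_pos_of_pos hlam0 _) hT
  have hη0 : 0 < 1 / (2 * T) := by positivity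
  have hη1 : 1 / (2 * T) ≤ lam ^ (5 / 2 : ℝ) := by
    rw [div_le_iff₀ (by positivity)]
    have h1 : lam ^ (5 / 2 : ℝ) * lam ^ (-(5 / 2 : ℝ)) = 1 := by
      rw [← Real.rpow_add hlam0]; simp
    have h2 := mul_le_mul_of_nonneg_left hT (Real.rpow_nonneg hlam0.le (5 / 2 : ℝ))
    rw [h1] at h2
    linarith
  have h1 := hall μ hb hv lam hlam0 hlam i0 (1 / (2 * T)) hη0 hη1
    (fun u ω => Gl lam b (1 / (2 * T)) u ω) (fun u => Gl_isG hb lam (1 / (2 * T)) u hη0) F hF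
  have h2 := canon μ hb0 lam T hT0 F ε (ef hb0 μ lam (1 / (2 * T)) hη0 F ε h1)
  have hae : ∀ t y, (fun ω => ‖ψ ω t y‖ ^ 2) =ᵐ[PZ d μ] fun ω => ‖psi lam (cl b ω) 0 t y‖ ^ 2 := by
    intro t y
    have h1 : ∀ᵐ ω ∂(PZ d μ), ∀ x : Zd d, |ω x| ≤ b := Pool.Agent.Zk11.QQ.ae_Z μ b hb
    filter_upwards [h1, hψ] with ω h2 h3
    rw [cl_eq h2, ev_unique h2 h3 (psi_ev h2 0)]
  have hI : ∀ t y, ∫ ω, ‖ψ ω t y‖ ^ 2 ∂(PZ d μ) = ∫ ω, ‖psi lam (cl b ω) 0 t y‖ ^ 2 ∂(PZ d μ) :=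
    fun t y => integral_congr_ae (hae t y)
  simp only [hI]
  exact h2

end Pool.Agent.Zk60.LQ.Et
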