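import Pool.Agent.Zk60.LQ.Fn

/-! # Localization lengths in small windows of energies: quantitative form, conclusion -/

set_option autoImplicit false
set_option linter.unusedSectionVars false

open scoped BigOperators Topology
open MeasureTheory Filter

namespace Pool.Agent.Zk60.LQ

open Pool.Agent.W788.MFP.Four (T e NN NN_pos card_T)
open Pool.Agent.Zk11.QD
open Pool.Agent.Zk60.LL.Phi (hv Rep rep_KT rep_one)
open Pool.Agent.Zk60.LL.Ker (KT KT_rep KT_large)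
open Pool.Agent.Zk60.LL.Det (EB)
open Pool.Agent.Zk60.LL.Wdt (cover)

variable {d : ℕ}

theorem card_L (L : ℕ) [NeZero L] : (Fintype.card (T d L) : ℝ) = (L : ℝ) ^ d := by
  rw [Fintype.card_fun, ZMod.card, Fintype.card_fin]
  push_cast
  ring

section
variable {κ a s1 γ' β δ C1 g G r0 lam F1 F2 s0 E1 E2 b : ℝ} {μ : Measure ℝ}
  [IsProbabilityMeasure μ]

/-- the centre of the window -/
noncomputable def cen (lam γ' : ℝ) (i : ℤ) : ℝ := (2 * (i : ℝ) + 1) * (lam ^ γ' / 16)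

/-- the indices of the windows -/
noncomputable def Ix (E1 E2 lam γ' : ℝ) : Finset ℤ :=
  Finset.Icc ⌊E1 / (2 * (lam ^ γ' / 16))⌋ ⌊E2 / (2 * (lam ^ γ' / 16))⌋

theorem cen_mem (hS : Sm d κ s1 γ' β δ C1 g G r0 lam) {i : ℤ} (hi : i ∈ Ix E1 E2 lam γ') :
    (E1 - r0) + r0 / 2 ≤ cen lam γ' i ∧ cen lam γ' i + r0 / 2 ≤ E2 + r0 := by
  have hw : 0 < lam ^ γ' / 16 := by
    have := Real.rpow_pos_of_pos hS.l0 γ'
    positivity
  have hwr := hS.wr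
  unfold cen
  unfold Ix at hi
  generalize lam ^ γ' / 16 = w at *
  obtain ⟨h1, h2⟩ := Finset.mem_Icc.1 hi
  have h3 : (i : ℝ) ≤ E2 / (2 * w) := (Int.cast_le.2 h2).trans (Int.floor_le _)
  have h4 : E1 / (2 * w) < (i : ℝ) + 1 :=
    (Int.lt_floor_add_one _).trans_le (by exact_mod_cast Int.add_le_add_right h1 1)
  rw [le_div_iff₀ (by positivity)] at h3
  rw [div_lt_iff₀ (by positivity)] at h4
  constructor <;> linarith

theorem Ix_card (hS : Sm d κ s1 γ' β δ C1 g G r0 lam) (hE1 : 0 < E1) (hE12 : E1 < E2)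
    (hE2 : E2 < 4 * d) (hd : 3 ≤ d) (hγ : 9 / 4 ≤ γ') :
    ((Ix E1 E2 lam γ').card : ℝ) ≤ 64 * d * lam ^ (-γ') := by
  have h0 := hS.l0
  have h1 : lam ≤ 1 := by linarith [hS.l1]
  have hp : 0 < lam ^ γ' := Real.rpow_pos_of_pos hS.l0 γ'
  have hp1 : lam ^ γ' ≤ 1 := Real.rpow_le_one h0.le h1 (by linarith)
  have hw : 0 < lam ^ γ' / 16 := by positivity
  unfold Ix
  rw [Int.card_Icc, Real.rpow_neg h0.le]
  generalize lam ^ γ' = q at *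
  have hab : ⌊E1 / (2 * (q / 16))⌋ ≤ ⌊E2 / (2 * (q / 16))⌋ :=
    Int.floor_le_floor (div_le_div_of_nonneg_right hE12.le (by positivity))
  have h7 : (((⌊E2 / (2 * (q / 16))⌋ + 1 - ⌊E1 / (2 * (q / 16))⌋).toNat : ℕ) : ℝ) =
      (⌊E2 / (2 * (q / 16))⌋ : ℝ) - ⌊E1 / (2 * (q / 16))⌋ + 1 := by
    have h8 : (((⌊E2 / (2 * (q / 16))⌋ + 1 - ⌊E1 / (2 * (q / 16))⌋).toNat : ℕ) : ℤ) =
        ⌊E2 / (2 * (q / 16))⌋ - ⌊E1 / (2 * (q / 16))⌋ + 1 := by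
      rw [Int.toNat_of_nonneg (by omega)]; ring
    have h9 := congrArg (fun z : ℤ => (z : ℝ)) h8
    push_cast at h9
    exact h9
  rw [h7]
  have h8 : (⌊E2 / (2 * (q / 16))⌋ : ℝ) ≤ E2 / (2 * (q / 16)) := Int.floor_le _
  have h9 : (0 : ℝ) ≤ ⌊E1 / (2 * (q / 16))⌋ := by
    exact_mod_cast Int.floor_nonneg.2 (by positivity)
  have h10 : E2 / (2 * (q / 16)) = 8 * E2 * q⁻¹ := by field_simp; ring
  rw [h10] at h8
  have hq1 : 1 ≤ q⁻¹ := (one_le_inv₀ hp).2 hp1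
  have hdR : (3 : ℝ) ≤ d := by exact_mod_cast hd
  rw [h10]
  have h11 : 8 * E2 * q⁻¹ ≤ 32 * d * q⁻¹ := mul_le_mul_of_nonneg_right (by linarith) (by linarith)
  have h12 : (1 : ℝ) ≤ 32 * d * q⁻¹ := by nlinarith
  linarith

/-- the weight -/
noncomputable abbrev Kw (L : ℕ) [NeZero L] (d : ℕ) (lam κ s1 : ℝ) : T d L → ℝ :=
  KT L (Mm lam s1) (th d (Mm lam s1) (Aa lam κ s1))

/-- the bad event -/
noncomputable def Bd (L : ℕ) [NeZero L] (d : ℕ) (lam κ s1 γ' C1 g G r0 E1 E2 : ℝ) :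
    Set (T d L → ℝ) :=
  ⋃ i ∈ Ix E1 E2 lam γ', BW (Kw L d lam κ s1) lam (lam ^ (2 + κ)) (lam ^ γ' / 16)
    (E1 - r0) (E2 + r0) G g (12 * C1 * lam ^ s1) (cen lam γ' i)

theorem Bd_meas (hS : Sm d κ s1 γ' β δ C1 g G r0 lam) (L : ℕ) [NeZero L] :
    MeasurableSet (Bd L d lam κ s1 γ' C1 g G r0 E1 E2) := by
  have hp : 0 < lam ^ γ' := Real.rpow_pos_of_pos hS.l0 γ'
  exact Finset.measurableSet_biUnion _ fun i _ =>
    BW_meas _ _ _ _ _ _ _ _ _ _ (Real.rpow_pos_of_pos hS.l0 _) (by positivity)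

theorem Bd_prob (hd : 3 ≤ d) (hS : Sm d κ s1 γ' β δ C1 g G r0 lam)
    (hH : Hyp d μ κ a (E1 - r0) (E2 + r0) δ C1 s0 g G lam) (hC1 : 1 ≤ C1) (hs1 : 0 < s1)
    (hs : s1 ≤ s0) (hsa : s1 ≤ a / 8)
    (hκa : κ = 1 / 2 - a) (hE1 : 0 < E1) (hE12 : E1 < E2) (hE2 : E2 < 4 * d)
    (hγ : 9 / 4 ≤ γ') (hb : ∀ᵐ s ∂μ, |s| ≤ b)
    {L : ℕ} [NeZero L] (hL : lam ^ (-(5 / 2 : ℝ)) ≤ L) :
    (PL (T d L) μ).real (Bd L d lam κ s1 γ' C1 g G r0 E1 E2) ≤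
      Real.exp (-(2 * (lam ^ 5 * (Fintype.card (T d L) : ℝ)))) := by
  have h0 := hS.l0
  have h1 : lam ≤ 1 := by linarith [hS.l1]
  have hη0 : 0 < lam ^ (2 + κ) := Real.rpow_pos_of_pos h0 _
  have hw0 : 0 < lam ^ γ' / 16 := by
    have := Real.rpow_pos_of_pos h0 γ'
    positivity
  have hx0 : 0 < 12 * C1 * lam ^ s1 := by
    have := Real.rpow_pos_of_pos h0 s1
    positivity
  have hηw : lam ^ (2 + κ) ≤ lam ^ γ' / 16 := by linarith [hS.ηw]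
  have hηL : lam ^ (-a) ≤ lam ^ (2 + κ) * L := by
    have h2 := mul_le_mul_of_nonneg_left hL hη0.le
    rw [← Real.rpow_add h0] at h2
    refine le_trans (le_of_eq ?_) h2
    congr 1
    rw [hκa]; ring
  have hL0 : (0 : ℝ) ≤ L := Nat.cast_nonneg _
  have hwL : lam ^ (-a) ≤ lam ^ γ' / 16 * L :=
    hηL.trans (mul_le_mul_of_nonneg_right hηw hL0)
  set N : ℝ := (Fintype.card (T d L) : ℝ) with hN
  have hN0 : 0 < N := by rw [hN]; exact_mod_cast Fintype.card_pos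
  have hone : ∀ i ∈ Ix E1 E2 lam γ', (PL (T d L) μ).real
      (BW (Kw L d lam κ s1) lam (lam ^ (2 + κ)) (lam ^ γ' / 16)
        (E1 - r0) (E2 + r0) G g (12 * C1 * lam ^ s1) (cen lam γ' i)) ≤
      3 * Real.exp (-((12 * C1 * lam ^ s1) ^ 2 * (lam ^ (2 + κ)) ^ 2 / 32 * N)) := by
    intro i hi
    obtain ⟨c1, c2⟩ := cen_mem hS hi
    have hwr := hS.wr
    refine prob1 μ b hb (rep_KT _ (Mm_pos h0) _) lam _ _ _ _ G g _ _ hη0 hηw hx0 hS.xG hS.xg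
      (m1 hd hS hH (by linarith) hs1 hs hκa hL) ?_ ?_
    · rw [hv_one]
      exact (hH (cen lam γ' i) ⟨by linarith, by linarith⟩ (lam ^ γ' / 16) hηw hS.wδ L hwL).2.2
    · intro u hu
      rw [hv_one]
      exact (hH u ⟨by linarith [hu.1], by linarith [hu.2]⟩ (lam ^ (2 + κ)) le_rfl hS.ηδ L hηL).2.1
  unfold Bd
  refine (measureReal_biUnion_finset_le _ _).trans ((Finset.sum_le_sum hone).trans ?_)
  rw [Finset.sum_const, nsmul_eq_mul]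
  -- the exponent
  have hexp : lam ^ (-(5 / 2 : ℝ)) + 2 * (lam ^ 5 * N) ≤
      (12 * C1 * lam ^ s1) ^ 2 * (lam ^ (2 + κ)) ^ 2 / 32 * N := by
    have e1 : lam ^ (5 - a) ≤ (lam ^ s1) ^ 2 * (lam ^ (2 + κ)) ^ 2 := by
      rw [← Real.rpow_natCast, ← Real.rpow_natCast (lam ^ (2 + κ)), ← Real.rpow_mul h0.le,
        ← Real.rpow_mul h0.le, ← Real.rpow_add h0]
      refine Real.rpow_le_rpow_of_exponent_ge h0 h1 ?_
      push_cast
      rw [hκa]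
      linarith
    have e2 : lam ^ 5 ≤ lam ^ (5 - a) := by
      rw [← Real.rpow_natCast]
      refine Real.rpow_le_rpow_of_exponent_ge h0 h1 ?_
      push_cast
      linarith
    have e3 : 3 * lam ^ (5 - a) ≤ (12 * C1 * lam ^ s1) ^ 2 * (lam ^ (2 + κ)) ^ 2 / 32 := by
      have f1 : (12 * C1 * lam ^ s1) ^ 2 * (lam ^ (2 + κ)) ^ 2 / 32 =
          9 / 2 * C1 ^ 2 * ((lam ^ s1) ^ 2 * (lam ^ (2 + κ)) ^ 2) := by ring
      rw [f1]
      have f2 : (1 : ℝ) ≤ C1 ^ 2 := one_le_pow₀ hC1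
      have f3 : 3 * lam ^ (5 - a) ≤ 9 / 2 * C1 ^ 2 * lam ^ (5 - a) :=
        mul_le_mul_of_nonneg_right (by linarith) (Real.rpow_nonneg h0.le _)
      exact f3.trans (mul_le_mul_of_nonneg_left e1 (by positivity))
    have e4 : lam ^ (-(5 / 2 : ℝ)) ≤ lam ^ (5 - a) * N := by
      have g1 : (lam ^ (-(5 / 2 : ℝ))) ^ 3 ≤ N := by
        have g2 : N = (L : ℝ) ^ d := by
          rw [hN, card_L]
        rw [g2]
        have g3 : (1 : ℝ) ≤ L := by exact_mod_cast Nat.one_le_iff_ne_zero.2 (NeZero.ne L)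
        exact (pow_le_pow_left₀ (Real.rpow_nonneg h0.le _) hL 3).trans
          (pow_le_pow_right₀ g3 hd)
      have g4 := mul_le_mul_of_nonneg_left g1 (Real.rpow_nonneg h0.le (5 - a))
      refine le_trans ?_ g4
      rw [← Real.rpow_natCast (lam ^ (-(5 / 2 : ℝ))), ← Real.rpow_mul h0.le, ← Real.rpow_add h0]
      refine Real.rpow_le_rpow_of_exponent_ge h0 h1 ?_
      push_cast
      linarith
    have e5 := mul_le_mul_of_nonneg_right e3 hN0.le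
    have e6 := mul_le_mul_of_nonneg_right e2 hN0.le
    linarith
  have hcard := Ix_card hS hE1 hE12 hE2 hd hγ
  have hpr := hS.pr
  calc ((Ix E1 E2 lam γ').card : ℝ) *
        (3 * Real.exp (-((12 * C1 * lam ^ s1) ^ 2 * (lam ^ (2 + κ)) ^ 2 / 32 * N))) ≤
        (64 * d * lam ^ (-γ')) * (3 * Real.exp (-(lam ^ (-(5 / 2 : ℝ)) + 2 * (lam ^ 5 * N)))) := by
          refine mul_le_mul hcard ?_ (by positivity) (by
            have := Real.rpow_nonneg h0.le (-γ')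
            positivity)
          refine mul_le_mul_of_nonneg_left (Real.exp_le_exp.2 (neg_le_neg hexp)) (by norm_num)
    _ = (192 * d * lam ^ (-γ')) * Real.exp (-(lam ^ (-(5 / 2 : ℝ)) + 2 * (lam ^ 5 * N))) := by ring
    _ ≤ Real.exp (lam ^ (-(5 / 2 : ℝ))) * Real.exp (-(lam ^ (-(5 / 2 : ℝ)) + 2 * (lam ^ 5 * N))) :=
        mul_le_mul_of_nonneg_right hpr (Real.exp_pos _).le
    _ = Real.exp (-(2 * (lam ^ 5 * N))) := by
        rw [← Real.exp_add]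
        congr 1
        ring

theorem outside (hS : Sm d κ s1 γ' β δ C1 g G r0 lam) (hs1 : 0 < s1)
    (hr0 : 0 < r0) (hg : 0 < g) (hG : 0 < G) (γ : ℝ) (hγ : γ ≤ γ')
    {L : ℕ} [NeZero L] (hL : lam ^ (-(5 / 2 : ℝ)) ≤ L) (V : T d L → ℝ)
    (hV : V ∉ Bd L d lam κ s1 γ' C1 g G r0 E1 E2) (ψ : T d L → T d L → ℂ) (E : T d L → ℝ)
    (hE : EB lam V ψ E) (s t : ℝ) (hs : E1 ≤ s) (ht : t ≤ E2) (hst : lam ^ γ ≤ t - s) :
    g / (16 * Real.pi) * (t - s) * (Fintype.card (T d L) : ℝ) ≤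
      ((Finset.univ.filter fun j => s ≤ E j ∧ E j ≤ t).card : ℝ) ∧
    ((Finset.univ.filter fun j => s ≤ E j ∧ E j ≤ t).card : ℝ) ≤
      4 * G * (t - s) * (Fintype.card (T d L) : ℝ) ∧
    ∀ J : Finset (T d L), (∀ j ∈ J, s ≤ E j ∧ E j ≤ t ∧
      ∃ (B : Finset (T d L)) (y0 : T d L), (∀ x ∈ B, ∀ i, |((x - y0) i).valMinAbs| ≤ lam ^ (-β)) ∧
        lam ^ (s1 / 4) ≤ ∑ x ∈ B, ‖ψ j x‖ ^ 2) →
      (J.card : ℝ) ≤ lam ^ (s1 / 4) *
        ((Finset.univ.filter fun j => s ≤ E j ∧ E j ≤ t).card : ℝ) := by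
  have h0 := hS.l0
  have h1 : lam ≤ 1 := by linarith [hS.l1]
  have hpi := Real.pi_pos
  have hη0 : 0 < lam ^ (2 + κ) := Real.rpow_pos_of_pos h0 _
  have hq0 : 0 < lam ^ γ' := Real.rpow_pos_of_pos h0 γ'
  have hw0 : 0 < lam ^ γ' / 16 := by positivity
  have hc0 : 0 < lam ^ (s1 / 4) := Real.rpow_pos_of_pos h0 _
  set N : ℝ := (Fintype.card (T d L) : ℝ) with hN
  have hN0 : 0 < N := by rw [hN]; exact_mod_cast Fintype.card_pos
  have h16 : 16 * (lam ^ γ' / 16) ≤ t - s := by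
    have e1 : lam ^ γ' ≤ lam ^ γ := Real.rpow_le_rpow_of_exponent_ge h0 h1 hγ
    linarith
  have hwin : ∀ i : ℤ, ⌊s / (2 * (lam ^ γ' / 16))⌋ ≤ i → i ≤ ⌊t / (2 * (lam ^ γ' / 16))⌋ → _ :=
    fun i hi1 hi2 => by
      have hiI : i ∈ Ix E1 E2 lam γ' := by
        unfold Ix
        rw [Finset.mem_Icc]
        constructor
        · exact (Int.floor_le_floor (div_le_div_of_nonneg_right hs (by positivity))).trans hi1
        · exact hi2.trans (Int.floor_le_floor (div_le_div_of_nonneg_right ht (by positivity)))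
      have hVi : V ∉ BW (Kw L d lam κ s1) lam (lam ^ (2 + κ)) (lam ^ γ' / 16)
          (E1 - r0) (E2 + r0) G g (12 * C1 * lam ^ s1) (cen lam γ' i) := by
        intro hbad
        exact hV (Set.mem_biUnion (Finset.mem_coe.2 hiI) hbad)
      obtain ⟨c1, c2⟩ := cen_mem hS hiI
      exact good1 (rep_KT _ (Mm_pos h0) _) hη0 hw0 hVi hE (r0 / 2) (lam ^ (s1 / 4)) (lam ^ (-β))
        (lam ^ (s1 / 4) * (g / (8 * Real.pi))) (by positivity) hc0 c1 c2 hS.ηw hS.x5 hS.ηw3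
        (fun y0 x y hx hy => ball hS hs1 hL y0 x y hx hy)
  have hcov := cover E (lam ^ γ' / 16) s t hw0 h16
    (fun j => ∃ (B : Finset (T d L)) (y0 : T d L),
      (∀ x ∈ B, ∀ i, |((x - y0) i).valMinAbs| ≤ lam ^ (-β)) ∧
        lam ^ (s1 / 4) ≤ ∑ x ∈ B, ‖ψ j x‖ ^ 2)
    (lam ^ (s1 / 4) * (g / (8 * Real.pi)) * (lam ^ γ' / 16) * N)
    (g / (4 * Real.pi) * (lam ^ γ' / 16) * N) (by positivity)
    (fun i hi1 hi2 => (hwin i hi1 hi2).1) (fun i hi1 hi2 => (hwin i hi1 hi2).2.1)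
  refine ⟨?_, ?_, fun J hJ => hcov.1 J hJ _ hc0.le (le_of_eq (by ring))⟩
  · have h2 := hcov.2 (by positivity)
    refine le_trans (le_of_eq ?_) h2
    field_simp
    ring
  · have h2 := cover_up E (lam ^ γ' / 16) s t hw0 h16 (4 * G * (lam ^ γ' / 16) * N)
      (by positivity) (fun i hi1 hi2 => (hwin i hi1 hi2).2.2)
    refine h2.trans (le_of_eq ?_)
    field_simp

end

/-- the exponent -/
noncomputable def tau (β γ : ℝ) : ℝ := min (1 / 4) (min (5 / 2 - γ) (9 / 2 - 2 * β)) / 160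

/-- **Quantitative localization lengths.** -/
theorem main (hd : 3 ≤ d) (E1 E2 : ℝ) (hE1 : 0 < E1) (hE12 : E1 < E2) (hE2 : E2 < 4 * d) :
    ∃ c0 C0 : ℝ, 0 < c0 ∧ 0 < C0 ∧ ∀ b v0 β γ : ℝ, 0 < v0 → β < 9 / 4 → γ < 5 / 2 →
    ∃ l0 : ℝ, 0 < l0 ∧ ∀ (μ : Measure ℝ) [IsProbabilityMeasure μ],
      (∀ᵐ s ∂μ, |s| ≤ b) → v0 ≤ ∫ s, (s - ∫ t, t ∂μ) ^ 2 ∂μ →
      ∀ lam : ℝ, 0 < lam → lam < l0 →
      ∀ (L : ℕ) [NeZero L], lam ^ (-(5 / 2 : ℝ)) ≤ L →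
      ∃ Bad : Set (T d L → ℝ), MeasurableSet Bad ∧
        (PL (T d L) μ).real Bad ≤ Real.exp (-(2 * (lam ^ 5 * (Fintype.card (T d L) : ℝ)))) ∧
        ∀ V, V ∉ Bad → ∀ (ψ : T d L → T d L → ℂ) (E : T d L → ℝ), EB lam V ψ E →
          ∀ s t : ℝ, E1 ≤ s → t ≤ E2 → lam ^ γ ≤ t - s →
            c0 * (t - s) * (Fintype.card (T d L) : ℝ) ≤
              ((Finset.univ.filter fun j => s ≤ E j ∧ E j ≤ t).card : ℝ) ∧
            ((Finset.univ.filter fun j => s ≤ E j ∧ E j ≤ t).card : ℝ) ≤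
              C0 * (t - s) * (Fintype.card (T d L) : ℝ) ∧
            ∀ J : Finset (T d L), (∀ j ∈ J, s ≤ E j ∧ E j ≤ t ∧
              ∃ (B : Finset (T d L)) (y0 : T d L),
                (∀ x ∈ B, ∀ i, |((x - y0) i).valMinAbs| ≤ lam ^ (-β)) ∧
                  lam ^ tau β γ ≤ ∑ x ∈ B, ‖ψ j x‖ ^ 2) →
              (J.card : ℝ) ≤ lam ^ tau β γ *
                ((Finset.univ.filter fun j => s ≤ E j ∧ E j ≤ t).card : ℝ) := by
  obtain ⟨r0, hr0⟩ : ∃ r0 : ℝ, r0 = min E1 (4 * d - E2) / 2 := ⟨_, rfl⟩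
  have hr0pos : 0 < r0 := by
    rw [hr0]
    have := lt_min hE1 (by linarith : 0 < 4 * (d : ℝ) - E2)
    positivity
  have hr01 : r0 ≤ E1 / 2 := by rw [hr0]; linarith [min_le_left E1 (4 * (d : ℝ) - E2)]
  have hr02 : r0 ≤ (4 * d - E2) / 2 := by rw [hr0]; linarith [min_le_right E1 (4 * (d : ℝ) - E2)]
  obtain ⟨g, G, hg, hG, hgn⟩ := gn hd (E1 - r0) (E2 + r0) (by linarith) (by linarith) (by linarith)
  refine ⟨g / (16 * Real.pi), 4 * G, by have := Real.pi_pos; positivity, by positivity, ?_⟩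
  intro b v0 β γ hv0 hβ hγ
  obtain ⟨κ, γ', ha, ha8, hκ, hκ4, hγ1, hγ2, hγγ, hγa, hβa⟩ := params β γ hβ hγ
  obtain ⟨δ, C1, hδ, hδ1, hC1, hgn2⟩ := hgn b v0 κ (aa0 β γ) hv0 (by linarith) (by linarith) ha
  have htau : tau β γ = aa0 β γ / 20 / 4 := by unfold tau aa0; ring
  have hs0 : (1 - 2 * κ) / 40 = aa0 β γ / 20 := by rw [hκ]; ring
  rw [htau]
  rw [hs0] at hgn2
  obtain ⟨l0, hl0, hsm⟩ := mk_sm d hd κ (aa0 β γ) (aa0 β γ / 20) γ' β δ C1 g G r0 ha ha8 hκ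
    (by linarith) (by linarith) hγ1 hγ2 hγa hβa hδ (by linarith) hg hG hr0pos
  refine ⟨l0, hl0, ?_⟩
  intro μ _ hb hv lam h1 h2 L _ hL
  have hS := hsm lam h1 h2
  have hH : Hyp d μ κ (aa0 β γ) (E1 - r0) (E2 + r0) δ C1 (aa0 β γ / 20) g G lam :=
    fun E hE η q1 q2 L _ hL => hgn2 μ hb hv E hE lam η h1 hS.lδ q1 q2 L hL
  refine ⟨Bd L d lam κ (aa0 β γ / 20) γ' C1 g G r0 E1 E2, Bd_meas hS L, ?_, ?_⟩
  · exact Bd_prob hd hS hH hC1 (by linarith) le_rfl (by linarith) hκ hE1 hE12 hE2 hγ1 hb hL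
  · intro V hV ψ E hE s t hs ht hst
    exact outside hS (by linarith) hr0pos hg hG γ hγγ hL V hV ψ E hE s t hs ht hst

end Pool.Agent.Zk60.LQ
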