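import Pool.Agent.Zk60.LQ.Sm

/-! # Localization lengths in small windows of energies: quantitative form -/

set_option autoImplicit false
set_option linter.unusedSectionVars false

open scoped BigOperators Topology
open MeasureTheory Filter

namespace Pool.Agent.Zk60.LQ

open Pool.Agent.W788.MFP.Four (T e NN NN_pos card_T)
open Pool.Agent.Zk11.QD
open Pool.Agent.Zk60.LL.Phi (hv Rep rep_KT rep_one)
open Pool.Agent.Zk60.LL.Ker (KT KT_rep KT_large)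
open Pool.Agent.Zk60.LL.Det (EB)
open Pool.Agent.Zk60.LL.Wdt (cover)

variable {d : ℕ}

/-- upper bound for the number of eigenvalues by windows -/
theorem cover_up {ι : Type} [Fintype ι] (E : ι → ℝ) (w s t : ℝ) (hw : 0 < w)
    (hst : 16 * w ≤ t - s) (a1 : ℝ) (ha1 : 0 ≤ a1)
    (h1 : ∀ i : ℤ, ⌊s / (2 * w)⌋ ≤ i → i ≤ ⌊t / (2 * w)⌋ → ∀ J : Finset ι,
      (∀ j ∈ J, |E j - (2 * i + 1) * w| ≤ w) → (J.card : ℝ) ≤ a1) :
    ((Finset.univ.filter fun j => s ≤ E j ∧ E j ≤ t).card : ℝ) ≤ (t - s) / w * a1 := by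
  classical
  set a : ℤ := ⌊s / (2 * w)⌋ with ha
  set bb : ℤ := ⌊t / (2 * w)⌋ with hbb
  have hw2 : 0 < 2 * w := by positivity
  set J := Finset.univ.filter fun j => s ≤ E j ∧ E j ≤ t with hJ
  have h4 : J.card = ∑ i ∈ Finset.Icc a bb, (J.filter fun j => ⌊E j / (2 * w)⌋ = i).card :=
    Finset.card_eq_sum_card_fiberwise (f := fun j => ⌊E j / (2 * w)⌋) (fun j hj => by
      have h5 := (Finset.mem_filter.1 hj).2
      rw [Finset.coe_Icc, Set.mem_Icc]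
      constructor
      · rw [ha]
        exact Int.floor_le_floor (div_le_div_of_nonneg_right h5.1 hw2.le)
      · rw [hbb]
        exact Int.floor_le_floor (div_le_div_of_nonneg_right h5.2 hw2.le))
  have h5 : ∀ i ∈ Finset.Icc a bb,
      ((J.filter fun j => ⌊E j / (2 * w)⌋ = i).card : ℝ) ≤ a1 := by
    intro i hi
    have hi' := Finset.mem_Icc.1 hi
    refine h1 i hi'.1 hi'.2 _ fun j hj => ?_
    have h6 := (Finset.mem_filter.1 hj).2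
    rw [Int.floor_eq_iff, le_div_iff₀ hw2, div_lt_iff₀ hw2] at h6
    rw [abs_le]
    constructor
    · linarith [h6.1]
    · linarith [h6.2]
  rw [h4]
  push_cast
  refine (Finset.sum_le_sum h5).trans ?_
  rw [Finset.sum_const, nsmul_eq_mul]
  refine mul_le_mul_of_nonneg_right ?_ ha1
  rw [Int.card_Icc]
  have hab : a ≤ bb := Int.floor_le_floor (div_le_div_of_nonneg_right (by linarith) hw2.le)
  have h7 : (((bb + 1 - a).toNat : ℕ) : ℝ) = (bb : ℝ) - a + 1 := by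
    have h8 : (((bb + 1 - a).toNat : ℕ) : ℤ) = bb - a + 1 := by
      rw [Int.toNat_of_nonneg (by omega)]; ring
    have h9 : ((((bb + 1 - a).toNat : ℕ) : ℤ) : ℝ) = ((bb - a + 1 : ℤ) : ℝ) := by
      rw [h8]
    push_cast at h9
    rw [← h9]
  rw [h7]
  have h8 : (bb : ℝ) ≤ t / (2 * w) := Int.floor_le _
  have h9 : s / (2 * w) < (a : ℝ) + 1 := Int.lt_floor_add_one _
  rw [le_div_iff₀ hw2] at h8
  rw [div_lt_iff₀ hw2] at h9
  rw [le_div_iff₀ hw]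
  nlinarith

/-- the bounds for the Fourier transform -/
def Hyp (d : ℕ) (μ : Measure ℝ) [IsProbabilityMeasure μ] (κ a F1 F2 δ C1 s0 g G lam : ℝ) : Prop :=
  ∀ E ∈ Set.Icc F1 F2, ∀ η : ℝ, lam ^ (2 + κ) ≤ η → η ≤ δ * lam ^ 2 →
      ∀ (L : ℕ) [NeZero L], lam ^ (-a) ≤ η * L →
        (∀ p : T d L, pp p ≤ δ * lam ^ 4 →
          ‖(η : ℂ) * ∑ x, e p x *
            ((∫ V, ‖uu ((E : ℂ) + η * Complex.I) lam V x‖ ^ 2 ∂(PL (T d L) μ) : ℝ) : ℂ)‖ ≤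
            C1 / (1 + pp p / (lam ^ 2 * η)) + C1 * lam ^ s0) ∧
        g ≤ η * ∑ x : T d L,
          ∫ V, ‖uu ((E : ℂ) + η * Complex.I) lam V x‖ ^ 2 ∂(PL (T d L) μ) ∧
        η * ∑ x : T d L,
          ∫ V, ‖uu ((E : ℂ) + η * Complex.I) lam V x‖ ^ 2 ∂(PL (T d L) μ) ≤ G

theorem hv_one {L : ℕ} [NeZero L] (μ : Measure ℝ) (η lam u : ℝ) :
    hv μ (fun _ : T d L => (1 : ℝ)) η lam u =
      ∑ x : T d L, ∫ V, ‖uu ((u : ℂ) + η * Complex.I) lam V x‖ ^ 2 ∂(PL (T d L) μ) := by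
  unfold hv
  exact Finset.sum_congr rfl fun x _ => one_mul _

/-- the number of frequencies -/
noncomputable def Mm (lam s1 : ℝ) : ℕ := ⌈lam ^ (-s1)⌉₊

/-- the spacing of the frequencies -/
noncomputable def Aa (lam κ s1 : ℝ) : ℝ := lam ^ (2 + κ / 2 - s1)

section
variable {κ a s1 γ' β δ C1 g G r0 lam F1 F2 s0 : ℝ} {μ : Measure ℝ} [IsProbabilityMeasure μ]

theorem Mm_pos (h : 0 < lam) : 0 < Mm lam s1 :=
  Nat.ceil_pos.2 (Real.rpow_pos_of_pos h _)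

theorem Mm_ge (lam s1 : ℝ) : lam ^ (-s1) ≤ Mm lam s1 := Nat.le_ceil _

theorem Mm_le (h : 0 < lam) (h1 : lam ≤ 1) (hs : 0 < s1) : (Mm lam s1 : ℝ) ≤ 2 * lam ^ (-s1) := by
  have h2 : (Mm lam s1 : ℝ) < lam ^ (-s1) + 1 :=
    Nat.ceil_lt_add_one (Real.rpow_pos_of_pos h _).le
  have h3 : 1 ≤ lam ^ (-s1) :=
    Real.one_le_rpow_of_pos_of_le_one_of_nonpos h h1 (by linarith)
  linarith

theorem MA_le (h : 0 < lam) (h1 : lam ≤ 1) (hs : 0 < s1) :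
    (Mm lam s1 : ℝ) * Aa lam κ s1 ≤ 2 * lam ^ (2 + κ / 2 - 2 * s1) := by
  have h2 : lam ^ (2 + κ / 2 - 2 * s1) = lam ^ (-s1) * lam ^ (2 + κ / 2 - s1) := by
    rw [← Real.rpow_add h]; congr 1; ring
  rw [h2]
  unfold Aa
  have h3 := mul_le_mul_of_nonneg_right (Mm_le h h1 hs)
    (Real.rpow_nonneg h.le (2 + κ / 2 - s1))
  linarith

theorem m1 (hd : 3 ≤ d) (hS : Sm d κ s1 γ' β δ C1 g G r0 lam)
    (hH : Hyp d μ κ a F1 F2 δ C1 s0 g G lam) (hC1 : 0 < C1) (hs1 : 0 < s1) (hs : s1 ≤ s0)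
    (hκa : κ = 1 / 2 - a) {L : ℕ} [NeZero L] (hL : lam ^ (-(5 / 2 : ℝ)) ≤ L) :
    ∀ u ∈ Set.Icc F1 F2, lam ^ (2 + κ) * hv μ (KT L (Mm lam s1) (th d (Mm lam s1) (Aa lam κ s1)))
      (lam ^ (2 + κ)) lam u ≤ 12 * C1 * lam ^ s1 := by
  intro u hu
  have h0 := hS.l0
  have h1 : lam ≤ 1 := by linarith [hS.l1]
  have hη0 : 0 < lam ^ (2 + κ) := Real.rpow_pos_of_pos h0 _
  have hA0 : 0 < Aa lam κ s1 := Real.rpow_pos_of_pos h0 _
  have hηL : lam ^ (-a) ≤ lam ^ (2 + κ) * L := by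
    have h2 := mul_le_mul_of_nonneg_left hL hη0.le
    rw [← Real.rpow_add h0] at h2
    refine le_trans (le_of_eq ?_) h2
    congr 1
    rw [hκa]; ring
  obtain ⟨hA, -, -⟩ := hH u hu (lam ^ (2 + κ)) le_rfl hS.ηδ L hηL
  have hMA := MA_le (κ := κ) h0 h1 hs1
  have hMA0 : 0 ≤ 2 * (Mm lam s1 : ℝ) * Aa lam κ s1 := by positivity
  have k := kb (by omega : 1 ≤ d) μ u (lam ^ (2 + κ)) lam δ C1 (C1 * lam ^ s0) (Aa lam κ s1)
    (Mm lam s1) (Mm_pos h0) hη0 h0 hC1 hA0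
    (hS.AL.trans (mul_le_mul_of_nonneg_left hL hA0.le))
    (by linarith [hS.MA])
    ((pow_le_pow_left₀ hMA0 (by linarith) 2).trans hS.MA2) hA
  refine k.trans ?_
  have e1 : C1 / (Mm lam s1 : ℝ) ≤ C1 * lam ^ s1 := by
    have h2 : 0 < lam ^ (-s1) := Real.rpow_pos_of_pos h0 _
    have h3 := div_le_div_of_nonneg_left hC1.le h2 (Mm_ge lam s1)
    rw [Real.rpow_neg h0.le, div_inv_eq_mul] at h3
    exact h3
  have e2 : lam ^ 2 * lam ^ (2 + κ) / Aa lam κ s1 ^ 2 ≤ lam ^ s1 := by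
    unfold Aa
    rw [← Real.rpow_natCast, ← Real.rpow_natCast (lam ^ (2 + κ / 2 - s1)), ← Real.rpow_mul h0.le,
      ← Real.rpow_add h0, ← Real.rpow_sub h0]
    refine Real.rpow_le_rpow_of_exponent_ge h0 h1 ?_
    push_cast
    linarith
  have e3 : Real.pi ^ 2 ≤ 10 := by
    have := Real.pi_lt_d2
    have := Real.pi_pos
    nlinarith
  have e4 : C1 * (Real.pi ^ 2 * (lam ^ 2 * lam ^ (2 + κ)) / Aa lam κ s1 ^ 2) ≤
      10 * C1 * lam ^ s1 := by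
    have f1 : C1 * (Real.pi ^ 2 * (lam ^ 2 * lam ^ (2 + κ)) / Aa lam κ s1 ^ 2) =
        C1 * (Real.pi ^ 2 * (lam ^ 2 * lam ^ (2 + κ) / Aa lam κ s1 ^ 2)) := by ring
    rw [f1]
    have f2 : Real.pi ^ 2 * (lam ^ 2 * lam ^ (2 + κ) / Aa lam κ s1 ^ 2) ≤ 10 * lam ^ s1 :=
      mul_le_mul e3 e2 (by positivity) (by norm_num)
    have := mul_le_mul_of_nonneg_left f2 hC1.le
    linarith
  have e5 : C1 * lam ^ s0 ≤ C1 * lam ^ s1 :=
    mul_le_mul_of_nonneg_left (Real.rpow_le_rpow_of_exponent_ge h0 h1 hs) hC1.le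
  linarith

theorem ball (hS : Sm d κ s1 γ' β δ C1 g G r0 lam) (hs1 : 0 < s1) {L : ℕ} [NeZero L]
    (hL : lam ^ (-(5 / 2 : ℝ)) ≤ L) (y0 x y : T d L)
    (hx : ∀ i, |((x - y0) i).valMinAbs| ≤ lam ^ (-β))
    (hy : ∀ i, |((y - y0) i).valMinAbs| ≤ lam ^ (-β)) :
    1 / 2 ≤ KT L (Mm lam s1) (th d (Mm lam s1) (Aa lam κ s1)) (x - y) := by
  have h0 := hS.l0
  have h1 : lam ≤ 1 := by linarith [hS.l1]
  have hpi := Real.pi_pos
  have hA0 : 0 < Aa lam κ s1 := Real.rpow_pos_of_pos h0 _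
  have hR0 : 0 < lam ^ (-β) := Real.rpow_pos_of_pos h0 _
  have hL0 : (0 : ℝ) < L := lt_of_lt_of_le (Real.rpow_pos_of_pos h0 _) hL
  refine KT_large L (Mm lam s1) (Mm_pos h0) _ ((Mm lam s1 : ℝ) * Aa lam κ s1) (lam ^ (-β)) ?_
    hR0.le ?_ y0 x y hx hy
  · intro m j
    unfold th
    split_ifs with h2
    · rw [abs_mul, abs_of_pos hA0, Nat.abs_cast]
      refine mul_le_mul_of_nonneg_right ?_ hA0.le
      exact_mod_cast m.2.le
    · rw [abs_zero]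
      positivity
  · have h2 : 2 * Real.pi / L ≤ lam ^ (2 + κ / 2 - 2 * s1) := by
      have h3 := hS.AL.trans (mul_le_mul_of_nonneg_left hL hA0.le)
      rw [div_le_iff₀ hL0]
      have h4 : Aa lam κ s1 ≤ lam ^ (2 + κ / 2 - 2 * s1) := by
        unfold Aa
        exact Real.rpow_le_rpow_of_exponent_ge h0 h1 (by linarith)
      have h5 := mul_le_mul_of_nonneg_right h4 hL0.le
      have h6 : Aa lam κ s1 * L = lam ^ (2 + κ / 2 - s1) * L := rfl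
      linarith
    have h3 := MA_le (κ := κ) h0 h1 hs1
    refine le_trans ?_ hS.cube
    have h4 : (Mm lam s1 : ℝ) * Aa lam κ s1 + 2 * Real.pi / L ≤
        3 * lam ^ (2 + κ / 2 - 2 * s1) := by linarith
    have h5 := mul_le_mul_of_nonneg_right h4 hR0.le
    have h6 := mul_le_mul_of_nonneg_left h5 (by positivity : 0 ≤ 2 * (d : ℝ))
    linarith

end

end Pool.Agent.Zk60.LQ
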