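import Pool.Agent.Zk60.LQ.Siz

/-! # Quantitative diffusion bound on tori: general laws -/

set_option autoImplicit false
set_option linter.unusedSectionVars false

open scoped BigOperators Topology
open MeasureTheory Filter

namespace Pool.Agent.Zk60.LQ

open Pool.Agent.Zk11.QD
open Pool.Agent.W788.MFP.Four (T e NN e_comm e_zero NN_pos)
open Pool.Agent.Zk60.LL.Fin (small_rpow)

variable {d : ℕ}

theorem uu_af {L : ℕ} [NeZero L] (z : ℂ) (lam v a : ℝ) (hv : v ≠ 0) (V : T d L → ℝ) (x : T d L) :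
    uu (z - ((lam * a : ℝ) : ℂ)) (lam * v) (fun y => (V y - a) / v) x = uu z lam V x := by
  have key : HM (z - ((lam * a : ℝ) : ℂ)) (lam * v) (fun y => (V y - a) / v) = HM z lam V := by
    unfold HM
    ext x y
    simp only [Matrix.of_apply]
    congr 1
    split_ifs with hxy
    · have hv' : (v : ℂ) ≠ 0 := by exact_mod_cast hv
      push_cast
      field_simp
      ring
    · rfl
  unfold uu
  rw [key]

theorem int_af {L : ℕ} [NeZero L] (μ : Measure ℝ) [IsProbabilityMeasure μ] (z : ℂ)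
    (lam v a : ℝ) (hv : v ≠ 0) [IsProbabilityMeasure (μ.map (af v a hv))] (x : T d L) :
    ∫ V, ‖uu (z - ((lam * a : ℝ) : ℂ)) (lam * v) V x‖ ^ 2 ∂(PL (T d L) (μ.map (af v a hv))) =
      ∫ V, ‖uu z lam V x‖ ^ 2 ∂(PL (T d L) μ) := by
  have h1 : PL (T d L) (μ.map (af v a hv)) =
      (PL (T d L) μ).map (fun V x => (af v a hv) (V x)) := by
    unfold PL
    rw [Measure.pi_map_pi (fun _ => (af v a hv).measurable.aemeasurable)]
  have h2 : Measurable fun V : T d L → ℝ => fun x => (af v a hv) (V x) :=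
    measurable_pi_iff.2 fun x => (af v a hv).measurable.comp (measurable_pi_apply x)
  rw [h1, integral_map h2.aemeasurable]
  · refine integral_congr_ae (Eventually.of_forall fun V => ?_)
    simp only
    rw [← uu_af z lam v a hv V x]
    rfl
  · exact ((uu_meas _ (lam * v) x).norm.pow_const 2).aestronglyMeasurable

/-- the normalized law -/
theorem norm_law (μ : Measure ℝ) [IsProbabilityMeasure μ] (b v0 : ℝ) (hv0 : 0 < v0)
    (hb : ∀ᵐ s ∂μ, |s| ≤ b) (hv : v0 ≤ ∫ s, (s - ∫ t, t ∂μ) ^ 2 ∂μ) :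
    ∃ (v a : ℝ) (hv : v ≠ 0), Real.sqrt v0 ≤ v ∧ v ≤ 2 * (|b| + 1) ∧ |a| ≤ |b| + 1 ∧
      IsProbabilityMeasure (μ.map (af v a hv)) ∧
      (∀ᵐ s ∂(μ.map (af v a hv)), |s| ≤ 2 * (|b| + 1) / Real.sqrt v0) ∧
      ∫ s, s ∂(μ.map (af v a hv)) = 0 ∧ ∫ s, s ^ 2 ∂(μ.map (af v a hv)) = 1 := by
  obtain ⟨B, hB⟩ : ∃ B : ℝ, B = |b| + 1 := ⟨_, rfl⟩
  rw [← hB]
  have hB1 : 1 ≤ B := by have := abs_nonneg b; linarith
  have hB0 : 0 < B := by linarith
  have hsv0 : 0 < Real.sqrt v0 := Real.sqrt_pos.2 hv0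
  have hμB : ∀ᵐ s ∂μ, |s| ≤ B := hb.mono fun s hs => hs.trans (by
    have := le_abs_self b
    linarith)
  set V : ℝ := ∫ s, (s - ∫ t, t ∂μ) ^ 2 ∂μ with hV
  set a : ℝ := ∫ t, t ∂μ with ha
  have hi1 : Integrable (fun s : ℝ => s) μ :=
    Integrable.of_bound aestronglyMeasurable_id B (hμB.mono fun s hs => hs)
  have haB : |a| ≤ B := by
    have h1 := norm_integral_le_of_norm_le_const (μ := μ) (f := fun s : ℝ => s) (C := B)
      (hμB.mono fun s hs => hs)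
    simpa using h1
  have hsa : ∀ᵐ s ∂μ, |s - a| ≤ 2 * B := hμB.mono fun s hs => by
    have := abs_sub s a
    linarith
  have hi2 : Integrable (fun s : ℝ => (s - a) ^ 2) μ := by
    refine Integrable.of_bound (by fun_prop) ((2 * B) ^ 2) (hsa.mono fun s hs => ?_)
    rw [Real.norm_eq_abs, abs_pow]
    exact pow_le_pow_left₀ (abs_nonneg _) hs 2
  have hV0 : 0 < V := by linarith
  have hVB : V ≤ (2 * B) ^ 2 := by
    rw [hV]
    have h1 := integral_mono_ae hi2 (integrable_const ((2 * B) ^ 2)) (hsa.mono fun s hs => by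
      have h2 : (s - a) ^ 2 = |s - a| ^ 2 := (sq_abs _).symm
      change (s - a) ^ 2 ≤ (2 * B) ^ 2
      rw [h2]
      exact pow_le_pow_left₀ (abs_nonneg _) hs 2)
    simpa using h1
  have hv0' : 0 < Real.sqrt V := Real.sqrt_pos.2 hV0
  have hvne : Real.sqrt V ≠ 0 := hv0'.ne'
  have hvsq : Real.sqrt V ^ 2 = V := Real.sq_sqrt hV0.le
  have hv1 : Real.sqrt v0 ≤ Real.sqrt V := Real.sqrt_le_sqrt hv
  have hv2 : Real.sqrt V ≤ 2 * B := by
    rw [Real.sqrt_le_left (by positivity)]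
    exact hVB
  refine ⟨Real.sqrt V, a, hvne, hv1, hv2, haB,
    Measure.isProbabilityMeasure_map (af (Real.sqrt V) a hvne).measurable.aemeasurable, ?_, ?_, ?_⟩
  · rw [(af (Real.sqrt V) a hvne).measurableEmbedding.ae_map_iff]
    refine hsa.mono fun s hs => ?_
    change |(s - a) / Real.sqrt V| ≤ _
    rw [abs_div, abs_of_pos hv0']
    exact div_le_div₀ (by positivity) hs hsv0 hv1
  · rw [integral_map_equiv]
    change ∫ s, (s - a) / Real.sqrt V ∂μ = 0
    rw [integral_div, integral_sub hi1 (integrable_const _)]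
    simp [ha]
  · rw [integral_map_equiv]
    change ∫ s, ((s - a) / Real.sqrt V) ^ 2 ∂μ = 1
    simp only [div_pow]
    rw [integral_div, hvsq]
    exact div_self hV0.ne'

theorem gn (hd : 3 ≤ d) (F1 F2 : ℝ) (hF1 : 0 < F1) (hF12 : F1 ≤ F2) (hF2 : F2 < 4 * d) :
    ∃ g G : ℝ, 0 < g ∧ 0 < G ∧ ∀ b v0 κ a : ℝ, 0 < v0 → 0 < κ → κ < 1 / 2 → 0 < a →
    ∃ δ C1 : ℝ, 0 < δ ∧ δ ≤ 1 ∧ 1 ≤ C1 ∧ ∀ (μ : Measure ℝ) [IsProbabilityMeasure μ],
      (∀ᵐ s ∂μ, |s| ≤ b) → v0 ≤ ∫ s, (s - ∫ t, t ∂μ) ^ 2 ∂μ → ∀ E ∈ Set.Icc F1 F2,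
      ∀ lam η : ℝ, 0 < lam → lam < δ → lam ^ (2 + κ) ≤ η → η ≤ δ * lam ^ 2 →
      ∀ (L : ℕ) [NeZero L], lam ^ (-a) ≤ η * L →
        (∀ p : T d L, pp p ≤ δ * lam ^ 4 →
          ‖(η : ℂ) * ∑ x, e p x *
            ((∫ V, ‖uu ((E : ℂ) + η * Complex.I) lam V x‖ ^ 2 ∂(PL (T d L) μ) : ℝ) : ℂ)‖ ≤
            C1 / (1 + pp p / (lam ^ 2 * η)) + C1 * lam ^ ((1 - 2 * κ) / 40)) ∧
        g ≤ η * ∑ x : T d L,
          ∫ V, ‖uu ((E : ℂ) + η * Complex.I) lam V x‖ ^ 2 ∂(PL (T d L) μ) ∧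
        η * ∑ x : T d L,
          ∫ V, ‖uu ((E : ℂ) + η * Complex.I) lam V x‖ ^ 2 ∂(PL (T d L) μ) ≤ G := by
  obtain ⟨g, G, hg, hG, hmain0⟩ := tqs hd (F1 / 2) ((F2 + 4 * d) / 2) (by linarith)
    (by linarith) (by linarith)
  refine ⟨g, G, hg, hG, ?_⟩
  intro b v0 κ a hv0 hκ0 hκ1 ha
  obtain ⟨B, hB⟩ : ∃ B : ℝ, B = |b| + 1 := ⟨_, rfl⟩
  have hB1 : 1 ≤ B := by have := abs_nonneg b; linarith
  have hB0 : 0 < B := by linarith
  have hsv0 : 0 < Real.sqrt v0 := Real.sqrt_pos.2 hv0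
  obtain ⟨κ', hκ'⟩ : ∃ κ' : ℝ, κ' = (κ + 1 / 2) / 2 := ⟨_, rfl⟩
  have hκ'1 : κ' < 1 / 2 := by rw [hκ']; linarith
  have hκκ' : 0 < κ' - κ := by rw [hκ']; linarith
  have hκ'0 : 0 < κ' := by linarith
  obtain ⟨δ0, C1, hδ0, hδ01, hC1, hmain⟩ := hmain0 (2 * B / Real.sqrt v0) κ' (a / 2) hκ'0 hκ'1
    (by linarith)
  obtain ⟨l1, hl1, hl1'⟩ := small_rpow (κ' - κ) (1 / (2 * B) ^ (2 + κ')) hκκ' (by positivity)
  obtain ⟨l2, hl2, hl2'⟩ := small_rpow (a / 2) (Real.sqrt v0 ^ (a / 2)) (by linarith)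
    (by positivity)
  have hm1 : 0 < min (F1 / 2) ((4 * d - F2) / 2) := lt_min (by linarith) (by linarith)
  obtain ⟨δ, hδ⟩ : ∃ δ : ℝ, δ = min (min (δ0 / (2 * B)) (min (δ0 * v0) (δ0 * v0 ^ 2)))
    (min (min 1 l1) (min l2 (min (F1 / 2) ((4 * d - F2) / 2) / B))) := ⟨_, rfl⟩
  have hδpos : 0 < δ := by
    rw [hδ]
    exact lt_min (lt_min (by positivity) (lt_min (by positivity) (by positivity)))
      (lt_min (lt_min one_pos hl1) (lt_min hl2 (by positivity)))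
  have d1 : δ ≤ δ0 / (2 * B) := by rw [hδ]; exact (min_le_left _ _).trans (min_le_left _ _)
  have d2 : δ ≤ δ0 * v0 := by
    rw [hδ]; exact (min_le_left _ _).trans ((min_le_right _ _).trans (min_le_left _ _))
  have d3 : δ ≤ δ0 * v0 ^ 2 := by
    rw [hδ]; exact (min_le_left _ _).trans ((min_le_right _ _).trans (min_le_right _ _))
  have d4 : δ ≤ 1 := by
    rw [hδ]; exact (min_le_right _ _).trans ((min_le_left _ _).trans (min_le_left _ _))
  have d5 : δ ≤ l1 := by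
    rw [hδ]; exact (min_le_right _ _).trans ((min_le_left _ _).trans (min_le_right _ _))
  have d6 : δ ≤ l2 := by
    rw [hδ]; exact (min_le_right _ _).trans ((min_le_right _ _).trans (min_le_left _ _))
  have d7 : δ ≤ min (F1 / 2) ((4 * d - F2) / 2) / B := by
    rw [hδ]; exact (min_le_right _ _).trans ((min_le_right _ _).trans (min_le_right _ _))
  rw [le_div_iff₀ (by positivity)] at d7 d1
  clear hδ
  have hs0 : 0 < (1 - 2 * κ') / 20 := by linarith
  have hs1 : (1 - 2 * κ') / 20 ≤ 1 := by linarith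
  obtain ⟨C2, hC2⟩ : ∃ C2 : ℝ, C2 = 4 * B ^ 2 * C1 + 1 := ⟨_, rfl⟩
  have hB2 : 1 ≤ B ^ 2 := one_le_pow₀ hB1
  have hBC : 0 < B ^ 2 * C1 := by positivity
  refine ⟨δ, C2, hδpos, d4, by rw [hC2]; linarith, ?_⟩
  have hs40 : (1 - 2 * κ) / 40 = (1 - 2 * κ') / 20 := by rw [hκ']; ring
  rw [hs40]
  intro μ _ hb hV E hE lam η hl0 hlδ hηκ hηδ L _ hL
  obtain ⟨v, m, hvne, hv1, hv2, hmB, hpr, n1, n2, n3⟩ := norm_law μ b v0 hv0 hb hV
  rw [← hB] at hv2 hmB n1
  have hvpos : 0 < v := lt_of_lt_of_le hsv0 hv1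
  have hl1'' : lam ≤ 1 := hlδ.le.trans d4
  -- conditions
  have hv1sq : v0 ≤ v ^ 2 := by
    have := pow_le_pow_left₀ hsv0.le hv1 2
    rwa [Real.sq_sqrt hv0.le] at this
  have q1 : E - lam * m ∈ Set.Icc (F1 / 2) ((F2 + 4 * d) / 2) := by
    have h1 : |lam * m| ≤ min (F1 / 2) ((4 * d - F2) / 2) := by
      rw [abs_mul, abs_of_pos hl0]
      exact (mul_le_mul hlδ.le hmB (abs_nonneg _) hδpos.le).trans d7
    have h2 := abs_le.1 (h1.trans (min_le_left _ _))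
    have h3 := abs_le.1 (h1.trans (min_le_right _ _))
    exact ⟨by linarith [hE.1, h2.2], by linarith [hE.2, h3.1]⟩
  have q2 : lam * v < δ0 := by
    have h1 : lam * v ≤ lam * (2 * B) := mul_le_mul_of_nonneg_left hv2 hl0.le
    have h2 : lam * (2 * B) < δ * (2 * B) := mul_lt_mul_of_pos_right hlδ (by positivity)
    linarith
  have q3 : (lam * v) ^ (2 + κ') ≤ η := by
    refine le_trans ?_ hηκ
    have h1 : (lam * v) ^ (2 + κ') ≤ (lam * (2 * B)) ^ (2 + κ') :=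
      Real.rpow_le_rpow (by positivity) (mul_le_mul_of_nonneg_left hv2 hl0.le) (by linarith)
    refine h1.trans ?_
    rw [Real.mul_rpow hl0.le (by positivity)]
    have h2 := hl1' lam hl0 (lt_of_lt_of_le hlδ d5)
    rw [le_div_iff₀ (by positivity)] at h2
    have h3 : lam ^ (2 + κ') = lam ^ (2 + κ) * lam ^ (κ' - κ) := by
      rw [← Real.rpow_add hl0]; congr 1; ring
    rw [h3, mul_assoc]
    exact mul_le_of_le_one_right (by positivity) h2
  have q4 : η ≤ δ0 * (lam * v) ^ 2 := by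
    refine hηδ.trans ?_
    have h1 : δ0 * (lam * v) ^ 2 = δ0 * v ^ 2 * lam ^ 2 := by ring
    rw [h1]
    refine mul_le_mul_of_nonneg_right (d2.trans ?_) (by positivity)
    exact mul_le_mul_of_nonneg_left hv1sq hδ0.le
  have q5 : (lam * v) ^ (-(a / 2)) ≤ η * L := by
    refine le_trans ?_ hL
    have h1 : (lam * v) ^ (-(a / 2)) ≤ (lam * Real.sqrt v0) ^ (-(a / 2)) :=
      Real.rpow_le_rpow_of_nonpos (by positivity) (mul_le_mul_of_nonneg_left hv1 hl0.le)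
        (by linarith)
    refine h1.trans ?_
    rw [Real.mul_rpow hl0.le hsv0.le]
    have h2 := hl2' lam hl0 (lt_of_lt_of_le hlδ d6)
    have h3 : lam ^ (-a) = lam ^ (-(a / 2)) * lam ^ (-(a / 2)) := by
      rw [← Real.rpow_add hl0]; congr 1; ring
    rw [h3]
    refine mul_le_mul_of_nonneg_left ?_ (by positivity)
    rw [Real.rpow_neg hsv0.le, Real.rpow_neg hl0.le]
    exact inv_anti₀ (by positivity) h2
  obtain ⟨hA, hBb, hBc⟩ := hmain (μ.map (af v m hvne)) n1 n2 n3 (E - lam * m) q1 (lam * v) η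
    (by positivity) q2 q3 q4 L q5
  have ez : (((E - lam * m : ℝ)) : ℂ) + η * Complex.I =
      ((E : ℂ) + η * Complex.I) - ((lam * m : ℝ) : ℂ) := by
    push_cast; ring
  rw [ez] at hA hBb hBc
  simp only [int_af μ ((E : ℂ) + η * Complex.I) lam v m hvne] at hA hBb hBc
  have hη0 : 0 < η := lt_of_lt_of_le (Real.rpow_pos_of_pos hl0 _) hηκ
  constructor
  · intro p hp
    have hpp := pp_nonneg p
    have hp' : pp p ≤ δ0 * (lam * v) ^ 4 := by
      refine hp.trans ?_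
      have h1 : δ0 * (lam * v) ^ 4 = δ0 * (v ^ 2) ^ 2 * lam ^ 4 := by ring
      rw [h1]
      refine mul_le_mul_of_nonneg_right (d3.trans ?_) (by positivity)
      exact mul_le_mul_of_nonneg_left (pow_le_pow_left₀ hv0.le hv1sq 2) hδ0.le
    refine (hA p hp').trans (add_le_add ?_ ?_)
    · have h1 : (1 + pp p / (lam ^ 2 * η)) / (4 * B ^ 2) ≤ 1 + pp p / ((lam * v) ^ 2 * η) := by
        rw [add_div]
        refine add_le_add ?_ ?_
        · rw [div_le_one (by positivity)]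
          linarith
        · rw [div_div]
          refine div_le_div_of_nonneg_left hpp (by positivity) ?_
          have h2 : v ^ 2 ≤ (2 * B) ^ 2 := pow_le_pow_left₀ hvpos.le hv2 2
          calc (lam * v) ^ 2 * η = lam ^ 2 * η * v ^ 2 := by ring
            _ ≤ lam ^ 2 * η * (2 * B) ^ 2 := mul_le_mul_of_nonneg_left h2 (by positivity)
            _ = _ := by ring
      have h2 : C1 / (1 + pp p / ((lam * v) ^ 2 * η)) ≤
          C1 / ((1 + pp p / (lam ^ 2 * η)) / (4 * B ^ 2)) :=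
        div_le_div_of_nonneg_left hC1.le (by positivity) h1
      refine h2.trans ?_
      rw [div_div_eq_mul_div]
      apply div_le_div_of_nonneg_right _ (by positivity)
      rw [hC2]
      linarith
    · have h1 : (lam * v) ^ ((1 - 2 * κ') / 20) = lam ^ ((1 - 2 * κ') / 20) *
          v ^ ((1 - 2 * κ') / 20) := Real.mul_rpow hl0.le hvpos.le
      have h2 : v ^ ((1 - 2 * κ') / 20) ≤ 2 * B := by
        have h3 : v ^ ((1 - 2 * κ') / 20) ≤ (2 * B) ^ ((1 - 2 * κ') / 20) :=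
          Real.rpow_le_rpow hvpos.le hv2 hs0.le
        have h4 : (2 * B) ^ ((1 - 2 * κ') / 20) ≤ (2 * B) ^ (1 : ℝ) :=
          Real.rpow_le_rpow_of_exponent_le (by linarith) hs1
        rw [Real.rpow_one] at h4
        exact h3.trans h4
      have h3 : 0 < lam ^ ((1 - 2 * κ') / 20) := by positivity
      rw [h1]
      calc C1 * (lam ^ ((1 - 2 * κ') / 20) * v ^ ((1 - 2 * κ') / 20)) ≤
            C1 * (lam ^ ((1 - 2 * κ') / 20) * (2 * B)) :=
            mul_le_mul_of_nonneg_left (mul_le_mul_of_nonneg_left h2 h3.le) hC1.le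
        _ = (2 * B * C1) * lam ^ ((1 - 2 * κ') / 20) := by ring
        _ ≤ C2 * lam ^ ((1 - 2 * κ') / 20) := by
            refine mul_le_mul_of_nonneg_right ?_ h3.le
            rw [hC2]
            have : B * C1 ≤ B ^ 2 * C1 := by
              refine mul_le_mul_of_nonneg_right ?_ hC1.le
              nlinarith
            linarith
  · exact ⟨hBb, hBc⟩

end Pool.Agent.Zk60.LQ
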