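import Pool.Agent.Zk60.LQ.Gn
import Pool.Agent.Zk60.LL.Phi

/-! # The bound for the Fejer type weights on tori -/

set_option autoImplicit false
set_option linter.unusedSectionVars false

open scoped BigOperators Topology
open MeasureTheory Filter

namespace Pool.Agent.Zk60.LQ

open Pool.Agent.Zk11.QD
open Pool.Agent.W788.MFP.Four (T e NN e_comm e_zero NN_pos)
open Pool.Agent.Zk60.LL.Phi (hv)
open Pool.Agent.Zk60.LL.Ker (KT KT_rep)

variable {d : ℕ}

/-- the frequencies -/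
noncomputable def th (d : ℕ) (M : ℕ) (A : ℝ) (q : Fin M) : Fin d → ℝ :=
  fun j => if (j : ℕ) = 0 then (q : ℕ) * A else 0

theorem an_zero (L : ℕ) : an L 0 = 0 := by
  unfold an ni
  simp

theorem pp_th (hd : 1 ≤ d) {L : ℕ} [NeZero L] (M : ℕ) (A : ℝ) (q r : Fin M) :
    pp (pm L (th d M A q) - pm L (th d M A r)) =
      2 - 2 * Real.cos (an L ((q : ℕ) * A) - an L ((r : ℕ) * A)) := by
  unfold pp
  rw [Finset.sum_eq_single (⟨0, by omega⟩ : Fin d)]
  · rw [Pi.sub_apply, co_sub, co_pm, co_pm, si_pm, si_pm, ← Real.cos_sub]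
    simp [th]
  · intro j _ hj
    have hj0 : (j : ℕ) ≠ 0 := fun h => hj (Fin.ext h)
    rw [Pi.sub_apply, co_sub, co_pm, co_pm, si_pm, si_pm, ← Real.cos_sub]
    simp only [th, if_neg hj0, an_zero, sub_self, Real.cos_zero]
    norm_num
  · intro h
    exact absurd (Finset.mem_univ _) h

theorem pp_bounds (hd : 1 ≤ d) {L : ℕ} [NeZero L] (M : ℕ) (A : ℝ) (hA : 0 < A)
    (hAL : 8 * Real.pi ≤ A * L) (hMA : 2 * M * A ≤ Real.pi) (q r : Fin M) :
    pp (pm L (th d M A q) - pm L (th d M A r)) ≤ (2 * M * A) ^ 2 ∧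
      (q ≠ r → A ^ 2 / Real.pi ^ 2 ≤ pp (pm L (th d M A q) - pm L (th d M A r))) := by
  have hpi := Real.pi_pos
  have hL0 : 0 < L := Nat.pos_of_ne_zero (NeZero.ne L)
  have hLR : (0 : ℝ) < L := by exact_mod_cast hL0
  rw [pp_th hd]
  set t := an L ((q : ℕ) * A) - an L ((r : ℕ) * A) with ht
  have h1 := an_close L hL0 ((q : ℕ) * A)
  have h2 := an_close L hL0 ((r : ℕ) * A)
  have h3 : 2 * Real.pi / L ≤ A / 4 := by
    rw [div_le_div_iff₀ hLR (by norm_num)]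
    linarith
  have h4 : |t - (((q : ℕ) : ℝ) - ((r : ℕ) : ℝ)) * A| ≤ A / 2 := by
    have e1 : t - (((q : ℕ) : ℝ) - ((r : ℕ) : ℝ)) * A =
        (an L ((q : ℕ) * A) - (q : ℕ) * A) - (an L ((r : ℕ) * A) - (r : ℕ) * A) := by
      rw [ht]; ring
    rw [e1]
    have := abs_sub (an L ((q : ℕ) * A) - (q : ℕ) * A) (an L ((r : ℕ) * A) - (r : ℕ) * A)
    linarith
  have hq1 : ((q : ℕ) : ℝ) + 1 ≤ M := by exact_mod_cast q.2
  have hr1 : ((r : ℕ) : ℝ) + 1 ≤ M := by exact_mod_cast r.2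
  have hq0 : (0 : ℝ) ≤ (q : ℕ) := Nat.cast_nonneg _
  have hr0 : (0 : ℝ) ≤ (r : ℕ) := Nat.cast_nonneg _
  have hM1 : (1 : ℝ) ≤ M := by linarith
  have h5 : |t| ≤ 2 * M * A := by
    have h6 : |(((q : ℕ) : ℝ) - ((r : ℕ) : ℝ)) * A| ≤ M * A := by
      rw [abs_mul, abs_of_pos hA]
      refine mul_le_mul_of_nonneg_right ?_ hA.le
      rw [abs_le]
      constructor <;> linarith
    have h7 : |t| ≤ |t - (((q : ℕ) : ℝ) - ((r : ℕ) : ℝ)) * A| +
        |(((q : ℕ) : ℝ) - ((r : ℕ) : ℝ)) * A| := by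
      have := abs_add_le (t - (((q : ℕ) : ℝ) - ((r : ℕ) : ℝ)) * A)
        ((((q : ℕ) : ℝ) - ((r : ℕ) : ℝ)) * A)
      rwa [sub_add_cancel] at this
    have h8 : A / 2 ≤ M * A := by nlinarith
    linarith
  constructor
  · have h6 := Real.one_sub_sq_div_two_le_cos (x := t)
    have h7 : t ^ 2 ≤ (2 * M * A) ^ 2 := by
      rw [← sq_abs]
      exact pow_le_pow_left₀ (abs_nonneg _) h5 2
    linarith
  · intro hqr
    have h6 : A / 2 ≤ |t| := by
      have h7 : A ≤ |(((q : ℕ) : ℝ) - ((r : ℕ) : ℝ)) * A| := by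
        rw [abs_mul, abs_of_pos hA]
        have h8 : (1 : ℝ) ≤ |((q : ℕ) : ℝ) - ((r : ℕ) : ℝ)| := by
          have hne : (q : ℕ) ≠ (r : ℕ) := fun h => hqr (Fin.ext h)
          rcases lt_or_gt_of_ne hne with h9 | h9
          · have h10 : ((q : ℕ) : ℝ) + 1 ≤ (r : ℕ) := by exact_mod_cast h9
            rw [abs_of_nonpos (by linarith)]
            linarith
          · have h10 : ((r : ℕ) : ℝ) + 1 ≤ (q : ℕ) := by exact_mod_cast h9
            rw [abs_of_nonneg (by linarith)]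
            linarith
        nlinarith
      have h9 : |(((q : ℕ) : ℝ) - ((r : ℕ) : ℝ)) * A| ≤
          |t - (((q : ℕ) : ℝ) - ((r : ℕ) : ℝ)) * A| + |t| := by
        have := abs_add_le (-(t - (((q : ℕ) : ℝ) - ((r : ℕ) : ℝ)) * A)) t
        rw [abs_neg] at this
        have e2 : -(t - (((q : ℕ) : ℝ) - ((r : ℕ) : ℝ)) * A) + t =
            (((q : ℕ) : ℝ) - ((r : ℕ) : ℝ)) * A := by ring
        rwa [e2] at this
      linarith
    have h7 := Real.cos_le_one_sub_mul_cos_sq (h5.trans hMA)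
    have h8 : (A / 2) ^ 2 ≤ t ^ 2 := by
      rw [← sq_abs t]
      exact pow_le_pow_left₀ (by positivity) h6 2
    have h9 : A ^ 2 / Real.pi ^ 2 = 4 / Real.pi ^ 2 * (A / 2) ^ 2 := by ring
    rw [h9]
    have h10 := mul_le_mul_of_nonneg_left h8 (by positivity : 0 ≤ 4 / Real.pi ^ 2)
    have h11 : 2 / Real.pi ^ 2 * t ^ 2 * 2 = 4 / Real.pi ^ 2 * t ^ 2 := by ring
    linarith

theorem kb (hd : 1 ≤ d) {L : ℕ} [NeZero L] (μ : Measure ℝ) [IsProbabilityMeasure μ]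
    (u η lam δ C1 X A : ℝ) (M : ℕ) (hM : 0 < M) (hη : 0 < η) (hlam : 0 < lam) (hC1 : 0 < C1)
    (hA : 0 < A)
    (hAL : 8 * Real.pi ≤ A * L) (hMA : 2 * M * A ≤ Real.pi)
    (hMA2 : (2 * M * A) ^ 2 ≤ δ * lam ^ 4)
    (hb : ∀ p : T d L, pp p ≤ δ * lam ^ 4 →
          ‖(η : ℂ) * ∑ x, e p x *
            ((∫ V, ‖uu ((u : ℂ) + η * Complex.I) lam V x‖ ^ 2 ∂(PL (T d L) μ) : ℝ) : ℂ)‖ ≤
            C1 / (1 + pp p / (lam ^ 2 * η)) + X) :
    η * hv μ (KT L M (th d M A)) η lam u ≤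
      C1 / M + C1 * (Real.pi ^ 2 * (lam ^ 2 * η) / A ^ 2) + X := by
  have hpi := Real.pi_pos
  have hM0 : (0 : ℝ) < M := by exact_mod_cast hM
  set I : T d L → ℝ := fun x => ∫ V, ‖uu ((u : ℂ) + η * Complex.I) lam V x‖ ^ 2 ∂(PL (T d L) μ)
    with hI
  have e1 : ((η * hv μ (KT L M (th d M A)) η lam u : ℝ) : ℂ) =
      ∑ q : Fin M × Fin M, (((1 / (M : ℝ) ^ 2 : ℝ)) : ℂ) *
        ((η : ℂ) * ∑ x, e (pm L (th d M A q.1) - pm L (th d M A q.2)) x * ((I x : ℝ) : ℂ)) := by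
    unfold hv
    push_cast
    have h1 : ∀ x : T d L, ((KT L M (th d M A) x : ℝ) : ℂ) * ((I x : ℝ) : ℂ) =
        ∑ q : Fin M × Fin M, (((1 / (M : ℝ) ^ 2 : ℝ)) : ℂ) *
          (e (pm L (th d M A q.1) - pm L (th d M A q.2)) x * ((I x : ℝ) : ℂ)) := by
      intro x
      rw [KT_rep, Finset.sum_mul]
      exact Finset.sum_congr rfl fun q _ => by ring
    have h2 : ∑ x : T d L, ((KT L M (th d M A) x : ℝ) : ℂ) * ((I x : ℝ) : ℂ) =
        ∑ q : Fin M × Fin M, (((1 / (M : ℝ) ^ 2 : ℝ)) : ℂ) *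
          ∑ x, (e (pm L (th d M A q.1) - pm L (th d M A q.2)) x * ((I x : ℝ) : ℂ)) := by
      simp only [h1]
      rw [Finset.sum_comm]
      simp only [Finset.mul_sum]
    have h3 : (∑ x : T d L, ((KT L M (th d M A) x : ℝ) : ℂ) *
        ((∫ V, ‖uu ((u : ℂ) + η * Complex.I) lam V x‖ ^ 2 ∂(PL (T d L) μ) : ℝ) : ℂ)) =
        ∑ x : T d L, ((KT L M (th d M A) x : ℝ) : ℂ) * ((I x : ℝ) : ℂ) := rfl
    have h4 : (η : ℂ) * ∑ x : T d L, ((KT L M (th d M A) x : ℝ) : ℂ) *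
        ((∫ V, ‖uu ((u : ℂ) + η * Complex.I) lam V x‖ ^ 2 ∂(PL (T d L) μ) : ℝ) : ℂ) =
        ∑ q : Fin M × Fin M, 1 / (M : ℂ) ^ 2 *
        ((η : ℂ) * ∑ x, e (pm L (th d M A q.1) - pm L (th d M A q.2)) x * ((I x : ℝ) : ℂ)) := by
      rw [h3, h2, Finset.mul_sum]
      refine Finset.sum_congr rfl fun q _ => ?_
      push_cast
      ring
    simpa only [integral_complex_ofReal] using h4
  have h5 : η * hv μ (KT L M (th d M A)) η lam u ≤
      ‖((η * hv μ (KT L M (th d M A)) η lam u : ℝ) : ℂ)‖ := by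
    rw [Complex.norm_real, Real.norm_eq_abs]
    exact le_abs_self _
  refine h5.trans ?_
  rw [e1]
  have h6 : ∀ q : Fin M × Fin M, ‖(((1 / (M : ℝ) ^ 2 : ℝ)) : ℂ) *
        ((η : ℂ) * ∑ x, e (pm L (th d M A q.1) - pm L (th d M A q.2)) x * ((I x : ℝ) : ℂ))‖ ≤
      1 / (M : ℝ) ^ 2 * ((if q.1 = q.2 then C1 else 0) +
        (C1 * (Real.pi ^ 2 * (lam ^ 2 * η) / A ^ 2) + X)) := by
    intro q
    rw [norm_mul, Complex.norm_real, Real.norm_eq_abs, abs_of_pos (by positivity)]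
    refine mul_le_mul_of_nonneg_left ?_ (by positivity)
    obtain ⟨g1, g2⟩ := pp_bounds hd M A hA hAL hMA q.1 q.2
    refine (hb _ (g1.trans hMA2)).trans ?_
    have hpp := pp_nonneg (pm L (th d M A q.1) - pm L (th d M A q.2))
    have hx : 0 ≤ Real.pi ^ 2 * (lam ^ 2 * η) / A ^ 2 := by positivity
    by_cases hq : q.1 = q.2
    · rw [if_pos hq]
      have h7 : C1 / (1 + pp (pm L (th d M A q.1) - pm L (th d M A q.2)) / (lam ^ 2 * η)) ≤ C1 := by
        apply div_le_self hC1.le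
        have : 0 ≤ pp (pm L (th d M A q.1) - pm L (th d M A q.2)) / (lam ^ 2 * η) := by positivity
        linarith
      have h8 : 0 ≤ C1 * (Real.pi ^ 2 * (lam ^ 2 * η) / A ^ 2) := by positivity
      linarith
    · rw [if_neg hq, zero_add]
      have h7 := g2 hq
      have h8 : A ^ 2 / Real.pi ^ 2 / (lam ^ 2 * η) ≤
          1 + pp (pm L (th d M A q.1) - pm L (th d M A q.2)) / (lam ^ 2 * η) := by
        have := div_le_div_of_nonneg_right h7 (by positivity : 0 ≤ lam ^ 2 * η)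
        linarith
      have h9 := div_le_div_of_nonneg_left hC1.le (by positivity) h8
      have h10 : C1 / (A ^ 2 / Real.pi ^ 2 / (lam ^ 2 * η)) =
          C1 * (Real.pi ^ 2 * (lam ^ 2 * η) / A ^ 2) := by
        field_simp
      rw [h10] at h9
      linarith
  refine (norm_sum_le _ _).trans ((Finset.sum_le_sum fun q _ => h6 q).trans (le_of_eq ?_))
  rw [← Finset.mul_sum, Finset.sum_add_distrib, Finset.sum_const, Finset.card_univ,
    Fintype.card_prod, Fintype.card_fin, nsmul_eq_mul, Fintype.sum_prod_type]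
  simp only [Finset.sum_ite_eq, Finset.mem_univ, if_true, Finset.sum_const, Finset.card_univ,
    Fintype.card_fin, nsmul_eq_mul]
  push_cast
  field_simp
  ring

end Pool.Agent.Zk60.LQ
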