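import Pool.Agent.Zk11.QD.Fin2

/-! # Quantitative convergence of the free resolvents on tori -/

set_option autoImplicit false
set_option linter.unusedSectionVars false

open scoped BigOperators Topology
open MeasureTheory Filter

namespace Pool.Agent.Zk60.LQ

open Pool.Agent.Zk11.QD

variable {d : ℕ}

theorem pow_diff (a b : ℂ) (ha : ‖a‖ ≤ 1) (hb : ‖b‖ ≤ 1) (n : ℕ) :
    ‖a ^ n - b ^ n‖ ≤ n * ‖a - b‖ := by
  induction n with
  | zero => simp
  | succ n ih =>
    have e1 : a ^ (n + 1) - b ^ (n + 1) = a ^ n * (a - b) + (a ^ n - b ^ n) * b := by ring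
    rw [e1]
    refine (norm_add_le _ _).trans ?_
    rw [norm_mul, norm_mul, norm_pow]
    have h1 : ‖a‖ ^ n ≤ 1 := pow_le_one₀ (norm_nonneg _) ha
    have h2 : ‖a‖ ^ n * ‖a - b‖ ≤ 1 * ‖a - b‖ := mul_le_mul_of_nonneg_right h1 (norm_nonneg _)
    have h3 : ‖a ^ n - b ^ n‖ * ‖b‖ ≤ (n * ‖a - b‖) * 1 :=
      mul_le_mul ih hb (norm_nonneg _) (by positivity)
    push_cast
    linarith

theorem jL_err (L : ℕ) [NeZero L] (t : ℝ) : ‖jL L t - J t‖ ≤ 4 * Real.pi * |t| / L := by
  have hL : 0 < L := Nat.pos_of_ne_zero (NeZero.ne L)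
  have h := riem (fun x => ex t (Real.cos (2 * Real.pi * x)))
    (by unfold ex; fun_prop) (4 * Real.pi * |t|) (phi_lip t) L hL
  refine le_trans (le_of_eq ?_) h
  unfold jL J
  rw [sum_zmod]
  congr 3
  refine Finset.sum_congr rfl fun j _ => ?_
  rw [co_nat]

theorem kL_err (L : ℕ) [NeZero L] (t : ℝ) :
    ‖kL L t - KK t‖ ≤ (16 * Real.pi + 4 * (4 * Real.pi * |t|)) / L := by
  have hL : 0 < L := Nat.pos_of_ne_zero (NeZero.ne L)
  have h := riem (fun x => ((4 * Real.sin (2 * Real.pi * x) ^ 2 : ℝ) : ℂ) *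
    ex t (Real.cos (2 * Real.pi * x)))
    (by unfold ex; fun_prop) (16 * Real.pi + 4 * (4 * Real.pi * |t|)) (by
      intro x y
      have h1 : ((4 * Real.sin (2 * Real.pi * x) ^ 2 : ℝ) : ℂ) * ex t (Real.cos (2 * Real.pi * x)) -
          ((4 * Real.sin (2 * Real.pi * y) ^ 2 : ℝ) : ℂ) * ex t (Real.cos (2 * Real.pi * y)) =
          ((4 * Real.sin (2 * Real.pi * x) ^ 2 - 4 * Real.sin (2 * Real.pi * y) ^ 2 : ℝ) : ℂ) *
            ex t (Real.cos (2 * Real.pi * x)) +
          ((4 * Real.sin (2 * Real.pi * y) ^ 2 : ℝ) : ℂ) * (ex t (Real.cos (2 * Real.pi * x)) -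
            ex t (Real.cos (2 * Real.pi * y))) := by
        push_cast
        ring
      rw [h1]
      refine (norm_add_le _ _).trans ?_
      rw [norm_mul, norm_mul, ex_norm, mul_one, Complex.norm_real, Complex.norm_real,
        Real.norm_eq_abs, Real.norm_eq_abs, add_mul]
      refine add_le_add ?_ ?_
      · have h2 : 4 * Real.sin (2 * Real.pi * x) ^ 2 - 4 * Real.sin (2 * Real.pi * y) ^ 2 =
            4 * (Real.sin (2 * Real.pi * x) - Real.sin (2 * Real.pi * y)) *
              (Real.sin (2 * Real.pi * x) + Real.sin (2 * Real.pi * y)) := by ring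
        have h3 := Real.abs_sin_sub_sin_le (2 * Real.pi * x) (2 * Real.pi * y)
        have h4 : 2 * Real.pi * x - 2 * Real.pi * y = 2 * Real.pi * (x - y) := by ring
        rw [h4, abs_mul (2 * Real.pi), abs_of_pos (by positivity : 0 < 2 * Real.pi)] at h3
        have h5 : |Real.sin (2 * Real.pi * x) + Real.sin (2 * Real.pi * y)| ≤ 2 := by
          refine (abs_add_le _ _).trans ?_
          linarith [Real.abs_sin_le_one (2 * Real.pi * x), Real.abs_sin_le_one (2 * Real.pi * y)]
        rw [h2, abs_mul, abs_mul, abs_of_pos (by norm_num : (0 : ℝ) < 4)]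
        calc 4 * |Real.sin (2 * Real.pi * x) - Real.sin (2 * Real.pi * y)| *
              |Real.sin (2 * Real.pi * x) + Real.sin (2 * Real.pi * y)| ≤
              4 * (2 * Real.pi * |x - y|) * 2 :=
              mul_le_mul (mul_le_mul_of_nonneg_left h3 (by norm_num)) h5 (abs_nonneg _)
                (by positivity)
          _ = _ := by ring
      · have h5 : |4 * Real.sin (2 * Real.pi * y) ^ 2| ≤ 4 := by
          rw [abs_of_nonneg (by positivity)]
          nlinarith [Real.sin_sq_le_one (2 * Real.pi * y)]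
        calc |4 * Real.sin (2 * Real.pi * y) ^ 2| * ‖ex t (Real.cos (2 * Real.pi * x)) -
              ex t (Real.cos (2 * Real.pi * y))‖ ≤ 4 * ((4 * Real.pi * |t|) * |x - y|) :=
              mul_le_mul h5 (phi_lip t x y) (norm_nonneg _) (by norm_num)
          _ = _ := by ring) L hL
  refine le_trans (le_of_eq ?_) h
  unfold kL KK
  rw [sum_zmod]
  congr 3
  refine Finset.sum_congr rfl fun j _ => ?_
  rw [co_nat, si_nat]

/-- Laplace transforms of close functions -/
theorem lap_err (F G : ℝ → ℂ) (hF : Continuous F) (hG : Continuous G) (B : ℝ)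
    (hB : ∀ t, ‖F t‖ ≤ B) (hBG : ∀ t, ‖G t‖ ≤ B) (A1 : ℝ)
    (hA : ∀ t, 0 ≤ t → ‖F t - G t‖ ≤ A1 * (1 + t)) (s : ℝ) (hs : 0 < s) (hs1 : s ≤ 1) (w : ℂ)
    (hw : s ≤ w.im) : ‖Lap F w - Lap G w‖ ≤ A1 * (4 / s ^ 2) := by
  have hw0 : 0 < w.im := lt_of_lt_of_le hs hw
  have hA1 : 0 ≤ A1 := by
    have := (norm_nonneg _).trans (hA 0 le_rfl)
    linarith
  unfold Lap
  rw [← mul_sub, norm_mul, Complex.norm_I, one_mul,
    ← integral_sub (lap_integrable F hF B hB w hw0) (lap_integrable G hG B hBG w hw0)]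
  have hint : IntegrableOn (fun t : ℝ => A1 * (2 / s) * Real.exp (-(s / 2 * t))) (Set.Ioi 0) :=
    (exp_int (s / 2) (by positivity)).const_mul _
  refine (norm_integral_le_of_norm_le hint ?_).trans (le_of_eq ?_)
  · refine (ae_restrict_mem measurableSet_Ioi).mono fun t ht => ?_
    have ht0 : 0 < t := ht
    rw [← mul_sub, norm_mul, exp_norm]
    have h1 : Real.exp (-(w.im * t)) ≤ Real.exp (-(s * t)) := by
      apply Real.exp_le_exp.2
      nlinarith
    have h2 := hA t ht0.le
    have h3 : 1 + t ≤ 2 / s * Real.exp (s / 2 * t) := by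
      have h4 := Real.add_one_le_exp (s / 2 * t)
      have h5 : 2 / s * (s / 2 * t + 1) ≤ 2 / s * Real.exp (s / 2 * t) :=
        mul_le_mul_of_nonneg_left h4 (by positivity)
      have h6 : 2 / s * (s / 2 * t + 1) = t + 2 / s := by field_simp
      have h7 : 1 ≤ 2 / s := by rw [le_div_iff₀ hs]; linarith
      linarith
    have h8 : Real.exp (s / 2 * t) * Real.exp (-(s * t)) = Real.exp (-(s / 2 * t)) := by
      rw [← Real.exp_add]
      congr 1
      ring
    calc Real.exp (-(w.im * t)) * ‖F t - G t‖ ≤ Real.exp (-(s * t)) * (A1 * (1 + t)) :=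
          mul_le_mul h1 h2 (norm_nonneg _) (Real.exp_pos _).le
      _ ≤ Real.exp (-(s * t)) * (A1 * (2 / s * Real.exp (s / 2 * t))) :=
          mul_le_mul_of_nonneg_left (mul_le_mul_of_nonneg_left h3 hA1) (Real.exp_pos _).le
      _ = A1 * (2 / s) * (Real.exp (s / 2 * t) * Real.exp (-(s * t))) := by ring
      _ = _ := by rw [h8]
  · rw [integral_const_mul, exp_val (s / 2) (by positivity)]
    field_simp
    ring

/-- quantitative convergence -/
theorem Ga_err (L : ℕ) [NeZero L] (hd : 1 ≤ d) (s : ℝ) (hs : 0 < s) (hs1 : s ≤ 1) (w : ℂ)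
    (hw : s ≤ w.im) :
    ‖Lap (GaL d L) w - Lap (GG d) w‖ ≤ 16 * Real.pi * (1 + d) / L * (4 / s ^ 2) ∧
    ‖Lap (HaL d L) w - Lap (HH d) w‖ ≤ 16 * Real.pi * (1 + d) / L * (4 / s ^ 2) := by
  have hpi := Real.pi_pos
  have hL := Lpos (L := L)
  have hd1 : (1 : ℝ) ≤ d := by exact_mod_cast hd
  constructor
  · refine lap_err _ _ GaL_cont GG_cont 4 GaL_le GG_le _ (fun t ht => ?_) s hs hs1 w hw
    unfold GaL GG
    rw [← mul_sub, norm_mul, fz_norm, one_mul]
    refine (pow_diff _ _ (jL_le t) (J_le t) d).trans ?_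
    have h1 := jL_err L t
    rw [abs_of_nonneg ht] at h1
    calc (d : ℝ) * ‖jL L t - J t‖ ≤ d * (4 * Real.pi * t / L) :=
          mul_le_mul_of_nonneg_left h1 (by positivity)
      _ = (4 * Real.pi * d) * t / L := by ring
      _ ≤ (16 * Real.pi * (1 + d)) * (1 + t) / L := by
          apply div_le_div_of_nonneg_right _ hL.le
          have e1 : 4 * Real.pi * d ≤ 16 * Real.pi * (1 + d) := by nlinarith
          exact mul_le_mul e1 (by linarith) ht (by positivity)
      _ = _ := by ring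
  · refine lap_err _ _ HaL_cont HH_cont 4 HaL_le HH_le _ (fun t ht => ?_) s hs hs1 w hw
    unfold HaL HH
    rw [← mul_sub, norm_mul, fz_norm, one_mul]
    have e1 : kL L t * jL L t ^ (d - 1) - KK t * J t ^ (d - 1) =
        (kL L t - KK t) * jL L t ^ (d - 1) + KK t * (jL L t ^ (d - 1) - J t ^ (d - 1)) := by ring
    rw [e1]
    refine (norm_add_le _ _).trans ?_
    rw [norm_mul, norm_mul, norm_pow]
    have h1 := jL_err L t
    have h2 := kL_err L t
    rw [abs_of_nonneg ht] at h1 h2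
    have h3 : ‖jL L t‖ ^ (d - 1) ≤ 1 := pow_le_one₀ (norm_nonneg _) (jL_le t)
    have h4 := pow_diff _ _ (jL_le (L := L) t) (J_le t) (d - 1)
    have h5 : ((d - 1 : ℕ) : ℝ) ≤ d := by exact_mod_cast Nat.sub_le d 1
    have h6 : ‖jL L t ^ (d - 1) - J t ^ (d - 1)‖ ≤ d * (4 * Real.pi * t / L) :=
      h4.trans (mul_le_mul h5 h1 (norm_nonneg _) (by positivity))
    calc ‖kL L t - KK t‖ * ‖jL L t‖ ^ (d - 1) + ‖KK t‖ * ‖jL L t ^ (d - 1) - J t ^ (d - 1)‖ ≤
          (16 * Real.pi + 4 * (4 * Real.pi * t)) / L * 1 + 4 * (d * (4 * Real.pi * t / L)) :=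
          add_le_add (mul_le_mul h2 h3 (by positivity) (by positivity))
            (mul_le_mul (KK_le t) h6 (norm_nonneg _) (by norm_num))
      _ = (16 * Real.pi + 16 * Real.pi * t + 16 * Real.pi * d * t) / L := by ring
      _ ≤ (16 * Real.pi * (1 + d) * (1 + t)) / L := by
          apply div_le_div_of_nonneg_right _ hL.le
          nlinarith [mul_nonneg hpi.le (by linarith : (0 : ℝ) ≤ d)]
      _ = _ := by ring

/-- uniform continuity at the real axis -/
theorem lap_unif (G : ℝ → ℂ) (hG : Continuous G) (hI : IntegrableOn G (Set.Ioi 0)) (ε : ℝ)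
    (hε : 0 < ε) : ∃ ρ : ℝ, 0 < ρ ∧ ∀ (E : ℝ) (w : ℂ), 0 ≤ w.im → ‖w - E‖ ≤ ρ →
      ‖Lap G w - Lap G E‖ ≤ ε := by
  have h1 : Tendsto (fun n : ℕ => ∫ t in Set.Ioi (0 : ℝ), ‖G t‖ *
      min 2 (2 * (1 / ((n : ℝ) + 1) * t))) atTop
      (𝓝 (∫ t in Set.Ioi (0 : ℝ), (fun _ : ℝ => (0 : ℝ)) t)) := by
    refine tendsto_integral_filter_of_dominated_convergence (fun t => ‖G t‖ * 2) ?_ ?_
      (hI.norm.mul_const 2) ?_
    · refine Eventually.of_forall fun n => ?_
      exact (Continuous.mul hG.norm (by fun_prop)).aestronglyMeasurable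
    · refine Eventually.of_forall fun n => (ae_restrict_mem measurableSet_Ioi).mono fun t ht => ?_
      have ht0 : 0 < t := ht
      rw [Real.norm_eq_abs, abs_of_nonneg (by positivity)]
      exact mul_le_mul_of_nonneg_left (min_le_left _ _) (norm_nonneg _)
    · refine Eventually.of_forall fun t => ?_
      have h2 : Tendsto (fun n : ℕ => 2 * (1 / ((n : ℝ) + 1) * t)) atTop (𝓝 0) := by
        have := (tendsto_one_div_add_atTop_nhds_zero_nat (𝕜 := ℝ)).mul_const t |>.const_mul 2
        simpa using this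
      have h3 : Tendsto (fun n : ℕ => min 2 (2 * (1 / ((n : ℝ) + 1) * t))) atTop
          (𝓝 (min 2 0)) := tendsto_const_nhds.min h2
      have h4 := h3.const_mul ‖G t‖
      rw [min_eq_right (by norm_num : (0 : ℝ) ≤ 2), mul_zero] at h4
      exact h4
  have h00 : ∫ t in Set.Ioi (0 : ℝ), (fun _ : ℝ => (0 : ℝ)) t = 0 := by simp
  rw [h00] at h1
  obtain ⟨n, hn⟩ := (h1.eventually_lt_const hε).exists
  refine ⟨1 / ((n : ℝ) + 1), by positivity, fun E w hw hwE => ?_⟩
  refine le_trans ?_ hn.le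
  unfold Lap
  rw [← mul_sub, norm_mul, Complex.norm_I, one_mul]
  have i1 : ∀ v : ℂ, 0 ≤ v.im → IntegrableOn (fun t : ℝ => Complex.exp (Complex.I * v * t) * G t)
      (Set.Ioi 0) := by
    intro v hv
    refine Integrable.mono' hI.norm (Continuous.mul (by fun_prop) hG).aestronglyMeasurable ?_
    refine (ae_restrict_mem measurableSet_Ioi).mono fun t ht => ?_
    have ht0 : 0 < t := ht
    rw [norm_mul, exp_norm]
    have : Real.exp (-(v.im * t)) ≤ 1 := by
      rw [Real.exp_le_one_iff]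
      nlinarith
    nlinarith [norm_nonneg (G t)]
  rw [← integral_sub (i1 w hw) (i1 E (by simp))]
  refine norm_integral_le_of_norm_le ?_ ?_
  · refine Integrable.mono' (hI.norm.mul_const 2)
      (Continuous.mul hG.norm (by fun_prop)).aestronglyMeasurable ?_
    refine (ae_restrict_mem measurableSet_Ioi).mono fun t ht => ?_
    have ht0 : 0 < t := ht
    rw [Real.norm_eq_abs, abs_of_nonneg (by positivity)]
    exact mul_le_mul_of_nonneg_left (min_le_left _ _) (norm_nonneg _)
  · refine (ae_restrict_mem measurableSet_Ioi).mono fun t ht => ?_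
    have ht0 : 0 < t := ht
    set c : ℂ := Complex.I * (w - E) * t with hc
    have e1 : Complex.exp (Complex.I * w * t) * G t - Complex.exp (Complex.I * E * t) * G t =
        Complex.exp (Complex.I * E * t) * ((Complex.exp c - 1) * G t) := by
      rw [sub_mul, mul_sub, ← mul_assoc, ← Complex.exp_add, one_mul]
      congr 3
      rw [hc]
      ring
    have n1 : ‖Complex.exp (Complex.I * E * t)‖ = 1 := by
      rw [exp_norm]
      simp
    rw [e1, norm_mul, n1, one_mul, norm_mul, mul_comm]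
    refine mul_le_mul_of_nonneg_left ?_ (norm_nonneg _)
    have hcn : ‖c‖ = ‖w - E‖ * t := by
      rw [hc, norm_mul, norm_mul, Complex.norm_I, one_mul, Complex.norm_real, Real.norm_eq_abs,
        abs_of_pos ht0]
    have hexp : ‖Complex.exp c‖ ≤ 1 := by
      rw [Complex.norm_exp, Real.exp_le_one_iff]
      have : c.re = -(w.im * t) := by
        rw [hc]
        simp [Complex.mul_re]
      rw [this]
      nlinarith
    have b1 : ‖Complex.exp c - 1‖ ≤ 2 := by
      refine (norm_sub_le _ _).trans ?_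
      rw [norm_one]
      linarith
    have b2 : ‖Complex.exp c - 1‖ ≤ 2 * ‖c‖ := by
      by_cases hc1 : ‖c‖ ≤ 1
      · exact Complex.norm_exp_sub_one_le hc1
      · rw [not_le] at hc1
        linarith
    refine le_min b1 (b2.trans ?_)
    rw [hcn]
    have := mul_le_mul_of_nonneg_right hwE ht0.le
    linarith

end Pool.Agent.Zk60.LQ
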