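import Pool.Agent.Zk60.LQ.Dif2
import Pool.Agent.Zk60.LL.Wdt

/-! # One window: explicit probabilities -/

set_option autoImplicit false
set_option linter.unusedSectionVars false

open scoped BigOperators Topology
open MeasureTheory Filter

namespace Pool.Agent.Zk60.LQ

open Pool.Agent.W788.MFP.Four (T NN NN_pos card_T)
open Pool.Agent.Zk11.QD
open Pool.Agent.Zk60.LL.Ker Pool.Agent.Zk60.LL.Prob Pool.Agent.Zk60.LL.Det Pool.Agent.Zk60.LL.Bnd
open Pool.Agent.Zk60.LL.Phi Pool.Agent.Zk60.LL.Lv Pool.Agent.Zk60.LL.Win Pool.Agent.Zk60.LL.Rar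
open Pool.Agent.Zk60.LL.Wdt Pool.Agent.Zk60.LL Pool.Agent.Zk60.LL.Cau

variable {d : ℕ}

section
variable {L : ℕ} [NeZero L] (ν : Measure ℝ) [IsFiniteMeasure ν]

theorem SS_diff2' {K : T d L → ℝ} (hK : Rep K) (z : ℂ) (hz : 0 < z.im) (σ : ℝ)
    (V : T d L → ℝ) (v : T d L) (s : ℝ) :
    |SS K z σ (Function.update V v s) - SS K z σ V| ≤ 2 / z.im ^ 2 := by
  obtain ⟨ι, _, Q, w, h1, h2, h3⟩ := hK.ex
  exact SS_diff2 Q w h1 h2 K h3 z hz σ V v s

theorem Phi_diff2 {K : T d L → ℝ} (hK : Rep K) (η : ℝ) (hη : 0 < η) (σ : ℝ) (V : T d L → ℝ)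
    (v : T d L) (s : ℝ) :
    |Phi.Phi ν K η σ V - Phi.Phi ν K η σ (Function.update V v s)| ≤
      2 / η ^ 2 * ν.real Set.univ := by
  unfold Phi.Phi
  rw [← integral_sub (SS_int ν hK η hη σ V) (SS_int ν hK η hη σ _), ← Real.norm_eq_abs]
  refine norm_integral_le_of_norm_le_const (Eventually.of_forall fun u => ?_)
  rw [Real.norm_eq_abs, abs_sub_comm]
  have h1 := SS_diff2' hK ((u : ℂ) + η * Complex.I) (by simpa using hη) σ V v s
  rwa [im_eq] at h1

theorem up1 (μ : Measure ℝ) [IsProbabilityMeasure μ] (b : ℝ)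
    (hb : ∀ᵐ s ∂μ, |s| ≤ b) {K : T d L → ℝ} (hK : Rep K) (η : ℝ) (hη : 0 < η) (σ U B t : ℝ)
    (hB0 : 0 < B) (hB : 2 / η ^ 2 * ν.real Set.univ ≤ B)
    (hmean : ∫ u, hv μ K η σ u ∂ν ≤ U) (ht : 0 ≤ t) :
    (PL (T d L) μ).real {V | (U + t) * (Fintype.card (T d L) : ℝ) ≤ Phi.Phi ν K η σ V} ≤
      Real.exp (-(t ^ 2 / (8 * B ^ 2) * (Fintype.card (T d L) : ℝ))) := by
  have hb0 : 0 ≤ b := by
    obtain ⟨s, hs⟩ := hb.exists
    exact (abs_nonneg s).trans hs
  set N : ℝ := (Fintype.card (T d L) : ℝ) with hN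
  have hN0 : 0 < N := by rw [hN]; exact_mod_cast Fintype.card_pos
  have h1 := Mcd.mcd_up (T := T d L) μ b hb0 hb (Phi.Phi ν K η σ)
    (Phi_meas ν K η hη σ) _ B (Phi_bdd ν hK η hη σ) hB0
    (fun V v s _ _ => (Phi_diff2 ν hK η hη σ V v s).trans hB) (t * N) (by positivity)
  have h2 : (∫ V, Phi.Phi ν K η σ V ∂(PL (T d L) μ)) + t * N ≤ (U + t) * N := by
    rw [Phi_avg ν μ hK η hη σ]
    have := mul_le_mul_of_nonneg_left hmean hN0.le
    linarith
  have h3 : -((t * N) ^ 2) / (8 * B ^ 2 * N) = -(t ^ 2 / (8 * B ^ 2) * N) := by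
    field_simp
  rw [← h3]
  refine le_trans (measureReal_mono ?_ (measure_ne_top _ _)) h1
  intro V hV
  have h4 : (U + t) * N ≤ Phi.Phi ν K η σ V := hV
  exact h2.trans h4

theorem low1 (μ : Measure ℝ) [IsProbabilityMeasure μ] (b : ℝ)
    (hb : ∀ᵐ s ∂μ, |s| ≤ b) {K : T d L → ℝ} (hK : Rep K) (η : ℝ) (hη : 0 < η) (σ U B t : ℝ)
    (hB0 : 0 < B) (hB : 2 / η ^ 2 * ν.real Set.univ ≤ B)
    (hmean : U ≤ ∫ u, hv μ K η σ u ∂ν) (ht : 0 ≤ t) :
    (PL (T d L) μ).real {V | Phi.Phi ν K η σ V ≤ (U - t) * (Fintype.card (T d L) : ℝ)} ≤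
      Real.exp (-(t ^ 2 / (8 * B ^ 2) * (Fintype.card (T d L) : ℝ))) := by
  have hb0 : 0 ≤ b := by
    obtain ⟨s, hs⟩ := hb.exists
    exact (abs_nonneg s).trans hs
  set N : ℝ := (Fintype.card (T d L) : ℝ) with hN
  have hN0 : 0 < N := by rw [hN]; exact_mod_cast Fintype.card_pos
  have h1 := Mcd.mcd_low (T := T d L) μ b hb0 hb (Phi.Phi ν K η σ)
    (Phi_meas ν K η hη σ) _ B (Phi_bdd ν hK η hη σ) hB0
    (fun V v s _ _ => (Phi_diff2 ν hK η hη σ V v s).trans hB) (t * N) (by positivity)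
  have h2 : (U - t) * N ≤ (∫ V, Phi.Phi ν K η σ V ∂(PL (T d L) μ)) - t * N := by
    rw [Phi_avg ν μ hK η hη σ]
    have := mul_le_mul_of_nonneg_left hmean hN0.le
    linarith
  have h3 : -((t * N) ^ 2) / (8 * B ^ 2 * N) = -(t ^ 2 / (8 * B ^ 2) * N) := by
    field_simp
  rw [← h3]
  refine le_trans (measureReal_mono ?_ (measure_ne_top _ _)) h1
  intro V hV
  have h4 : Phi.Phi ν K η σ V ≤ (U - t) * N := hV
  exact h4.trans h2

end

section
variable {L : ℕ} [NeZero L]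

/-- the bad event of one window -/
noncomputable def BW (K : T d L → ℝ) (lam η w F1 F2 C0 gm x5 E0 : ℝ) : Set (T d L → ℝ) :=
  ({V | (8 * Real.pi * w * x5 / η + 8 * Real.pi * w * x5 / η) * (Fintype.card (T d L) : ℝ) ≤
      Phi.Phi (nu1 F1 F2 E0 w) K η lam V} ∪
    {V | (C0 / w + C0 / w) * (Fintype.card (T d L) : ℝ) ≤
      Phi.Phi (Measure.dirac E0) (fun _ => 1) w lam V}) ∪
    {V | Phi.Phi (volume.restrict (Set.Icc (E0 - w / 2) (E0 + w / 2))) (fun _ => 1) η lam V ≤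
      (w * gm / η - w * gm / (2 * η)) * (Fintype.card (T d L) : ℝ)}

theorem BW_meas (K : T d L → ℝ) (lam η w F1 F2 C0 gm x5 E0 : ℝ) (hη : 0 < η) (hw : 0 < w) :
    MeasurableSet (BW K lam η w F1 F2 C0 gm x5 E0) := by
  have := nu1_finite F1 F2 E0 w hw
  refine MeasurableSet.union (MeasurableSet.union ?_ ?_) ?_
  · exact measurableSet_le measurable_const (Phi_meas _ _ η hη lam)
  · exact measurableSet_le measurable_const (Phi_meas _ _ w hw lam)
  · exact measurableSet_le (Phi_meas _ _ η hη lam) measurable_const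

theorem const_restrict' (a b x : ℝ) (hab : a ≤ b) :
    ∫ _u in Set.Icc a b, x = x * (b - a) := by
  rw [setIntegral_const, smul_eq_mul, Real.volume_real_Icc_of_le hab, mul_comm]

theorem prob1 (μ : Measure ℝ) [IsProbabilityMeasure μ] (b : ℝ)
    (hb : ∀ᵐ s ∂μ, |s| ≤ b) {K : T d L → ℝ} (hK : Rep K)
    (lam η w F1 F2 C0 gm x5 E0 : ℝ) (hη : 0 < η) (hηw : η ≤ w) (hx5 : 0 < x5)
    (hxC : x5 ≤ C0) (hxg : 2 * x5 ≤ gm)
    (m1 : ∀ u ∈ Set.Icc F1 F2, η * hv μ K η lam u ≤ x5)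
    (m2 : w * hv μ (fun _ : T d L => (1 : ℝ)) w lam E0 ≤ C0)
    (m3 : ∀ u ∈ Set.Icc (E0 - w / 2) (E0 + w / 2),
      gm ≤ η * hv μ (fun _ : T d L => (1 : ℝ)) η lam u) :
    (PL (T d L) μ).real (BW K lam η w F1 F2 C0 gm x5 E0) ≤
      3 * Real.exp (-(x5 ^ 2 * η ^ 2 / 32 * (Fintype.card (T d L) : ℝ))) := by
  have hpi := Real.pi_pos
  have hw : 0 < w := lt_of_lt_of_le hη hηw
  have hgm : 0 < gm := by linarith
  have hC0 : 0 < C0 := by linarith
  have := nu1_finite F1 F2 E0 w hw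
  set N : ℝ := (Fintype.card (T d L) : ℝ) with hN
  have hN0 : 0 < N := by rw [hN]; exact_mod_cast Fintype.card_pos
  -- first
  have nu_univ : (nu1 F1 F2 E0 w).real Set.univ ≤ 8 * Real.pi * w := by
    have h1 := nu1_const F1 F2 E0 w hw 1 zero_le_one
    simpa using h1
  have p1 : (PL (T d L) μ).real {V | (8 * Real.pi * w * x5 / η + 8 * Real.pi * w * x5 / η) * N ≤
      Phi.Phi (nu1 F1 F2 E0 w) K η lam V} ≤ Real.exp (-(x5 ^ 2 * η ^ 2 / 32 * N)) := by
    refine (up1 (nu1 F1 F2 E0 w) μ b hb hK η hη lam _ (2 / η ^ 2 * (8 * Real.pi * w)) _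
      (by positivity) (mul_le_mul_of_nonneg_left nu_univ (by positivity)) ?_
      (by positivity)).trans (le_of_eq ?_)
    · have h1 : ∫ u, hv μ K η lam u ∂(nu1 F1 F2 E0 w) ≤ ∫ _u, x5 / η ∂(nu1 F1 F2 E0 w) := by
        refine integral_mono_ae ?_ (integrable_const _) ((nu1_ae F1 F2 E0 w).mono fun u hu => ?_)
        · refine Integrable.of_bound (hv_cont μ K η hη lam).aestronglyMeasurable (1 / η ^ 2)
            (Eventually.of_forall fun u => ?_)
          rw [Real.norm_eq_abs, abs_of_nonneg (hv_nonneg μ hK η lam u)]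
          exact hv_bdd μ hK η hη lam u
        · change hv μ K η lam u ≤ x5 / η
          rw [le_div_iff₀ hη, mul_comm]
          exact m1 u hu
      refine h1.trans ((nu1_const F1 F2 E0 w hw (x5 / η) (by positivity)).trans (le_of_eq ?_))
      field_simp
    · congr 2
      field_simp
      ring
  have p2 : (PL (T d L) μ).real {V | (C0 / w + C0 / w) * N ≤
      Phi.Phi (Measure.dirac E0) (fun _ => 1) w lam V} ≤
        Real.exp (-(x5 ^ 2 * η ^ 2 / 32 * N)) := by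
    refine (up1 (Measure.dirac E0) μ b hb rep_one w hw lam _ (2 / w ^ 2 * 1) _
      (by positivity) (by simp) ?_ (by positivity)).trans ?_
    · rw [integral_dirac, le_div_iff₀ hw, mul_comm]
      exact m2
    · apply Real.exp_le_exp.2
      apply neg_le_neg
      refine mul_le_mul_of_nonneg_right ?_ hN0.le
      have e1 : (C0 / w) ^ 2 / (8 * (2 / w ^ 2 * 1) ^ 2) = C0 ^ 2 * w ^ 2 / 32 := by
        field_simp
        norm_num
      rw [e1]
      apply div_le_div_of_nonneg_right _ (by norm_num)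
      exact mul_le_mul (pow_le_pow_left₀ hx5.le hxC 2) (pow_le_pow_left₀ hη.le hηw 2)
        (by positivity) (by positivity)
  have p3 : (PL (T d L) μ).real {V | Phi.Phi (volume.restrict
      (Set.Icc (E0 - w / 2) (E0 + w / 2))) (fun _ => 1) η lam V ≤
      (w * gm / η - w * gm / (2 * η)) * N} ≤ Real.exp (-(x5 ^ 2 * η ^ 2 / 32 * N)) := by
    have hvol : (volume.restrict (Set.Icc (E0 - w / 2) (E0 + w / 2))).real Set.univ = w := by
      rw [measureReal_restrict_apply MeasurableSet.univ, Set.univ_inter,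
        Real.volume_real_Icc_of_le (by linarith)]
      ring
    refine (low1 (volume.restrict (Set.Icc (E0 - w / 2) (E0 + w / 2))) μ b hb rep_one η hη lam _
      (2 / η ^ 2 * w) _ (by positivity) (by rw [hvol]) ?_ (by positivity)).trans ?_
    · have h1 : ∫ _u in Set.Icc (E0 - w / 2) (E0 + w / 2), gm / η ≤
          ∫ u in Set.Icc (E0 - w / 2) (E0 + w / 2), hv μ (fun _ : T d L => (1 : ℝ)) η lam u := by
        refine setIntegral_mono_on (integrable_const _) ?_ measurableSet_Icc fun u hu => ?_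
        · refine Integrable.of_bound (hv_cont μ _ η hη lam).aestronglyMeasurable (1 / η ^ 2)
            (Eventually.of_forall fun u => ?_)
          rw [Real.norm_eq_abs, abs_of_nonneg (hv_nonneg μ rep_one η lam u)]
          exact hv_bdd μ rep_one η hη lam u
        · rw [div_le_iff₀ hη, mul_comm]
          exact m3 u hu
      rw [const_restrict' _ _ _ (by linarith)] at h1
      refine le_trans (le_of_eq ?_) h1
      field_simp
      ring
    · apply Real.exp_le_exp.2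
      apply neg_le_neg
      refine mul_le_mul_of_nonneg_right ?_ hN0.le
      have e1 : (w * gm / (2 * η)) ^ 2 / (8 * (2 / η ^ 2 * w) ^ 2) = gm ^ 2 * η ^ 2 / 128 := by
        field_simp
        norm_num
      rw [e1]
      have h2 : (2 * x5) ^ 2 ≤ gm ^ 2 := pow_le_pow_left₀ (by positivity) hxg 2
      have h3 := mul_le_mul_of_nonneg_right h2 (by positivity : 0 ≤ η ^ 2 / 128)
      linarith
  unfold BW
  refine (measureReal_union_le _ _).trans ?_
  have h4 := (measureReal_union_le (μ := PL (T d L) μ) _ _).trans (add_le_add p1 p2)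
  linarith

/-- outside of the bad event -/
theorem good1 {K : T d L → ℝ} (hK : Rep K) {lam η w F1 F2 C0 gm x5 E0 : ℝ}
    (hη : 0 < η) (hw : 0 < w) {V : T d L → ℝ} (hV : V ∉ BW K lam η w F1 F2 C0 gm x5 E0)
    {ψ : T d L → T d L → ℂ} {E : T d L → ℝ} (hE : EB lam V ψ E)
    (r c R ε' : ℝ) (hr : 0 < r) (hc : 0 < c) (h1r : F1 + r ≤ E0) (h2r : E0 + r ≤ F2)
    (hηw1 : η ≤ w / 2)
    (hx5 : 8 * (48 * w * x5 + 6 * η * C0 + 12 * w ^ 2 / r ^ 2) ≤ ε' * c ^ 2 * w)
    (hηw3 : η * (64 * C0) ≤ gm * w)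
    (hball : ∀ y0 x y : T d L, (∀ i, |((x - y0) i).valMinAbs| ≤ R) →
      (∀ i, |((y - y0) i).valMinAbs| ≤ R) → 1 / 2 ≤ K (x - y)) :
    (∀ J : Finset (T d L), (∀ j ∈ J, |E j - E0| ≤ w ∧ ∃ (B : Finset (T d L)) (y0 : T d L),
      (∀ x ∈ B, ∀ i, |((x - y0) i).valMinAbs| ≤ R) ∧ c ≤ ∑ x ∈ B, ‖ψ j x‖ ^ 2) →
      (J.card : ℝ) ≤ ε' * w * (Fintype.card (T d L) : ℝ)) ∧
    gm / (4 * Real.pi) * w * (Fintype.card (T d L) : ℝ) ≤
      ((Finset.univ.filter fun j => |E j - E0| < w).card : ℝ) ∧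
    (∀ J : Finset (T d L), (∀ j ∈ J, |E j - E0| ≤ w) →
      (J.card : ℝ) ≤ 4 * C0 * w * (Fintype.card (T d L) : ℝ)) := by
  have hpi := Real.pi_pos
  have := nu1_finite F1 F2 E0 w hw
  unfold BW at hV
  simp only [Set.mem_union, Set.mem_ofPred_eq, not_or, not_le] at hV
  obtain ⟨⟨v1, v2⟩, v3⟩ := hV
  set N : ℝ := (Fintype.card (T d L) : ℝ) with hN
  have hN0 : 0 ≤ N := by rw [hN]; positivity
  obtain ⟨h1, h2⟩ := win_det hE hK η w E0 F1 F2 r c R
    _ _ _ hη hw hηw1 hr h1r h2r hc hball v1.le v2.le v3.le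
  have e1 : η * (8 * Real.pi * w * x5 / η + 8 * Real.pi * w * x5 / η) = 16 * Real.pi * w * x5 := by
    field_simp; ring
  have e2 : w * (C0 / w + C0 / w) = 2 * C0 := by field_simp; norm_num
  have e3 : η * (w * gm / η - w * gm / (2 * η)) = w * gm / 2 := by field_simp; norm_num
  rw [e1, e2] at h1
  rw [e2, e3] at h2
  refine ⟨?_, ?_, ?_⟩
  · intro J hJ
    have h3 := h1 J hJ
    have h4 : Real.pi * (c ^ 2 / 8) * (J.card : ℝ) ≤
        Real.pi * (c ^ 2 / 8) * (ε' * w * N) := by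
      refine h3.trans ?_
      have h5 : 3 * (16 * Real.pi * w * x5) + 3 * Real.pi * η * (2 * C0) +
          12 * Real.pi * w ^ 2 / r ^ 2 ≤ Real.pi * (c ^ 2 / 8) * (ε' * w) := by
        have h6 := mul_le_mul_of_nonneg_left hx5 (by positivity : 0 ≤ Real.pi / 8)
        have e5 : 12 * Real.pi * w ^ 2 / r ^ 2 = Real.pi * (12 * w ^ 2 / r ^ 2) := by ring
        rw [e5]
        linarith
      have h6 := mul_le_mul_of_nonneg_right h5 hN0
      linarith
    exact le_of_mul_le_mul_left h4 (by positivity)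
  · have h3 : Real.pi * (gm / (4 * Real.pi) * w * N) ≤
        Real.pi * ((Finset.univ.filter fun j => |E j - E0| < w).card : ℝ) := by
      refine le_trans ?_ h2
      have e4 : Real.pi * (gm / (4 * Real.pi) * w * N) = gm * w / 4 * N := by field_simp
      rw [e4]
      refine mul_le_mul_of_nonneg_right ?_ hN0
      linarith
    exact le_of_mul_le_mul_left h3 hpi
  · intro J hJ
    have h3 : Phi.Phi (Measure.dirac E0) (fun _ => 1) w lam V = ∑ j, fc w (E j) (E j) E0 := by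
      unfold Phi.Phi
      rw [integral_dirac, SS_one hE w E0 hw]
    rw [h3] at v2
    have h4 : ∀ j, fc w (E j) (E j) E0 = 1 / ((E j - E0) ^ 2 + w ^ 2) := by
      intro j
      unfold fc
      have : 0 < (E j - E0) ^ 2 + w ^ 2 := by positivity
      rw [div_eq_div_iff (by positivity) (by positivity)]
      ring
    simp only [h4] at v2
    have h5 : ∑ j ∈ J, 1 / (2 * w ^ 2) ≤ ∑ j, 1 / ((E j - E0) ^ 2 + w ^ 2) := by
      refine (Finset.sum_le_sum fun j hj => ?_).trans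
        (Finset.sum_le_univ_sum_of_nonneg (s := J) fun j => by positivity)
      apply one_div_le_one_div_of_le (by positivity)
      have h6 : (E j - E0) ^ 2 ≤ w ^ 2 := sq_le_sq' (by linarith [(abs_le.1 (hJ j hj)).1])
        (abs_le.1 (hJ j hj)).2
      linarith
    rw [Finset.sum_const, nsmul_eq_mul] at h5
    have h6 : (J.card : ℝ) * (1 / (2 * w ^ 2)) ≤ (C0 / w + C0 / w) * N := h5.trans v2.le
    have h7 := mul_le_mul_of_nonneg_right h6 (by positivity : 0 ≤ 2 * w ^ 2)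
    have e4 : (J.card : ℝ) * (1 / (2 * w ^ 2)) * (2 * w ^ 2) = J.card := by field_simp
    have e5 : (C0 / w + C0 / w) * N * (2 * w ^ 2) = 4 * C0 * w * N := by field_simp; ring
    rw [e4, e5] at h7
    exact h7

end

end Pool.Agent.Zk60.LQ
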