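import Pool.Agent.Zk60.LQ.Tqm
import Pool.Agent.Zk96.SZ

/-! # Quantitative diffusion bound on tori: all sizes -/

set_option autoImplicit false
set_option linter.unusedSectionVars false

open scoped BigOperators Topology
open MeasureTheory Filter

namespace Pool.Agent.Zk60.LQ

open Pool.Agent.Zk11.QD
open Pool.Agent.W788.MFP.Four (T e NN e_comm e_zero NN_pos)
open Pool.Agent.Zk60.LL.Fin (small_rpow)

variable {d : ℕ}

theorem pp_mul {L n : ℕ} [NeZero L] [NeZero (n * L)] (p : T d L) :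
    pp (fun i => ((n * (p i).val : ℕ) : ZMod (n * L)) : T d (n * L)) = pp p := by
  unfold pp
  refine Finset.sum_congr rfl fun i _ => ?_
  have hn : (n : ℝ) ≠ 0 := by
    have : n ≠ 0 := fun h => NeZero.ne (n * L) (by rw [h, zero_mul])
    exact_mod_cast this
  have hL : (L : ℝ) ≠ 0 := by exact_mod_cast NeZero.ne L
  have h1 : co (((n * (p i).val : ℕ) : ZMod (n * L))) = co (p i) := by
    have h2 := co_nat (L := L) (p i).val
    rw [ZMod.natCast_zmod_val] at h2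
    rw [co_nat, h2]
    congr 1
    push_cast
    field_simp
  rw [h1]

theorem exp_small (d : ℕ) (hd : 1 ≤ d) (a : ℝ) (ha : 0 < a) : ∃ l0 : ℝ, 0 < l0 ∧ l0 ≤ 1 ∧
    ∀ σ η L : ℝ, 0 < σ → σ < l0 → σ ^ (3 : ℕ) ≤ η → σ ^ (-a) ≤ η * L →
      (84 * d) * (1 / η) ^ 2 * Real.exp (-(η * L / (16 * d))) ≤ σ := by
  have hd0 : (0 : ℝ) < d := by exact_mod_cast (by omega : 0 < d)
  obtain ⟨N, hN⟩ := exists_nat_ge (8 / a)
  have hN' : 8 ≤ a * N := by
    rw [div_le_iff₀ ha] at hN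
    linarith
  obtain ⟨K, hK⟩ : ∃ K : ℝ, K = 84 * d * ((Nat.factorial N : ℝ) * (16 * d) ^ N) := ⟨_, rfl⟩
  have hK0 : 0 < K := by rw [hK]; positivity
  refine ⟨min 1 (1 / K), lt_min one_pos (by positivity), min_le_left _ _, ?_⟩
  intro σ η L hσ0 hσ hη hL
  have hσ1 : σ ≤ 1 := hσ.le.trans (min_le_left _ _)
  have hσK : σ ≤ 1 / K := hσ.le.trans (min_le_right _ _)
  have hη0 : 0 < η := lt_of_lt_of_le (by positivity) hη
  set x := η * L / (16 * d) with hx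
  have hSa : 0 < σ ^ (-a) := Real.rpow_pos_of_pos hσ0 _
  have hx1 : σ ^ (-a) / (16 * d) ≤ x := div_le_div_of_nonneg_right hL (by positivity)
  have hx0 : 0 < x := lt_of_lt_of_le (by positivity) hx1
  have h1 := Real.pow_div_factorial_le_exp x hx0.le N
  have h2 : Real.exp (-x) ≤ (Nat.factorial N : ℝ) / x ^ N := by
    rw [Real.exp_neg, inv_eq_one_div, div_le_div_iff₀ (Real.exp_pos _) (by positivity), one_mul]
    rwa [div_le_iff₀ (by positivity), mul_comm] at h1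
  have h3 : (Nat.factorial N : ℝ) / x ^ N ≤ (Nat.factorial N : ℝ) * (16 * d) ^ N * σ ^ 8 := by
    have h4 : (σ ^ (-a) / (16 * d)) ^ N ≤ x ^ N := pow_le_pow_left₀ (by positivity) hx1 N
    refine (div_le_div_of_nonneg_left (by positivity) (by positivity) h4).trans ?_
    rw [div_pow, div_div_eq_mul_div, div_le_iff₀ (by positivity)]
    have h5 : 1 ≤ σ ^ 8 * (σ ^ (-a)) ^ N := by
      rw [← Real.rpow_natCast, ← Real.rpow_natCast (σ ^ (-a)), ← Real.rpow_mul hσ0.le,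
        ← Real.rpow_add hσ0]
      refine Real.one_le_rpow_of_pos_of_le_one_of_nonpos hσ0 hσ1 ?_
      push_cast
      linarith
    have h6 : 0 ≤ (Nat.factorial N : ℝ) * (16 * d) ^ N := by positivity
    have h7 := mul_le_mul_of_nonneg_left h5 h6
    linarith
  have h4 : (1 / η) ^ 2 ≤ 1 / σ ^ 6 := by
    rw [one_div_pow]
    apply one_div_le_one_div_of_le (by positivity)
    have := pow_le_pow_left₀ (by positivity) hη 2
    rwa [← pow_mul] at this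
  calc (84 * d) * (1 / η) ^ 2 * Real.exp (-x) ≤
        (84 * d) * (1 / σ ^ 6) * ((Nat.factorial N : ℝ) * (16 * d) ^ N * σ ^ 8) :=
        mul_le_mul (mul_le_mul_of_nonneg_left h4 (by positivity)) (h2.trans h3)
          (Real.exp_pos _).le (by positivity)
    _ = K * σ * σ := by rw [hK]; field_simp
    _ ≤ 1 * σ := by
        refine mul_le_mul_of_nonneg_right ?_ hσ0.le
        rw [le_div_iff₀ hK0] at hσK
        linarith
    _ = σ := one_mul _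

theorem tqs (hd : 3 ≤ d) (F1 F2 : ℝ) (hF1 : 0 < F1) (hF12 : F1 ≤ F2) (hF2 : F2 < 4 * d) :
    ∃ g G : ℝ, 0 < g ∧ 0 < G ∧ ∀ b κ a : ℝ, 0 < κ → κ < 1 / 2 → 0 < a →
    ∃ δ C1 : ℝ, 0 < δ ∧ δ ≤ 1 ∧ 0 < C1 ∧ ∀ (μ : Measure ℝ) [IsProbabilityMeasure μ],
      (∀ᵐ s ∂μ, |s| ≤ b) → ∫ s, s ∂μ = 0 → ∫ s, s ^ 2 ∂μ = 1 → ∀ E ∈ Set.Icc F1 F2,
      ∀ σ η : ℝ, 0 < σ → σ < δ → σ ^ (2 + κ) ≤ η → η ≤ δ * σ ^ 2 →
      ∀ (L : ℕ) [NeZero L], σ ^ (-a) ≤ η * L →
        (∀ p : T d L, pp p ≤ δ * σ ^ 4 →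
          ‖(η : ℂ) * ∑ x, e p x *
            ((∫ V, ‖uu ((E : ℂ) + η * Complex.I) σ V x‖ ^ 2 ∂(PL (T d L) μ) : ℝ) : ℂ)‖ ≤
            C1 / (1 + pp p / (σ ^ 2 * η)) + C1 * σ ^ ((1 - 2 * κ) / 20)) ∧
        g ≤ η * ∑ x : T d L,
          ∫ V, ‖uu ((E : ℂ) + η * Complex.I) σ V x‖ ^ 2 ∂(PL (T d L) μ) ∧
        η * ∑ x : T d L,
          ∫ V, ‖uu ((E : ℂ) + η * Complex.I) σ V x‖ ^ 2 ∂(PL (T d L) μ) ≤ G := by
  obtain ⟨g, G, hg, hG, htq0⟩ := tq hd F1 F2 hF1 hF12 hF2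
  refine ⟨g / 2, G + g / 2, by positivity, by positivity, ?_⟩
  intro b κ a hκ0 hκ1 ha
  obtain ⟨δ, C1, hδ, hC1, htq⟩ := htq0 b κ hκ0 hκ1
  obtain ⟨l0, hl0, hl01, hexp⟩ := exp_small d (by omega) a ha
  refine ⟨min δ (min l0 (g / 2)), 2 * C1 + 1, lt_min hδ (lt_min hl0 (by positivity)),
    (min_le_right _ _).trans ((min_le_left _ _).trans hl01), by positivity, ?_⟩
  intro μ _ hb hm1 hm2 E hE σ η hσ0 hσδ hηκ hηδ L _ hL
  have hσδ' : σ < δ := lt_of_lt_of_le hσδ (min_le_left _ _)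
  have hσl0 : σ < l0 := lt_of_lt_of_le hσδ ((min_le_right _ _).trans (min_le_left _ _))
  have hσC : σ < g / 2 := lt_of_lt_of_le hσδ ((min_le_right _ _).trans (min_le_right _ _))
  have hσ1 : σ ≤ 1 := hσl0.le.trans hl01
  have hη0 : 0 < η := lt_of_lt_of_le (Real.rpow_pos_of_pos hσ0 _) hηκ
  have hηδ' : η ≤ δ * σ ^ 2 :=
    hηδ.trans (mul_le_mul_of_nonneg_right (min_le_left _ _) (by positivity))
  have hη1 : η ≤ 1 := by
    refine hηδ.trans ?_
    have h1 : σ ^ 2 ≤ 1 := pow_le_one₀ hσ0.le hσ1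
    calc min δ (min l0 (g / 2)) * σ ^ 2 ≤ 1 * 1 :=
          mul_le_mul ((min_le_right _ _).trans ((min_le_left _ _).trans hl01)) h1
            (by positivity) (by norm_num)
      _ = 1 := one_mul _
  have hη3 : σ ^ (3 : ℕ) ≤ η := by
    refine le_trans ?_ hηκ
    rw [← Real.rpow_natCast]
    exact Real.rpow_le_rpow_of_exponent_ge hσ0 hσ1 (by push_cast; linarith)
  have herr := hexp σ η L hσ0 hσl0 hη3 hL
  -- the big torus
  obtain ⟨n, hn⟩ := exists_nat_ge (13 * (1 + (1 / η) ^ 4 + (1 / η) ^ 4) ^ 2)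
  have hn0 : (0 : ℝ) < n := lt_of_lt_of_le (by positivity) hn
  have hnL : NeZero (n * L) := ⟨Nat.mul_ne_zero (by intro h; rw [h] at hn0; simp at hn0)
    (NeZero.ne L)⟩
  have hLR : (1 : ℝ) ≤ L := by exact_mod_cast Nat.one_le_iff_ne_zero.2 (NeZero.ne L)
  have hnL' : 13 * (1 + (1 / η) ^ 4 + (1 / η) ^ 4) ^ 2 ≤ ((n * L : ℕ) : ℝ) := by
    push_cast
    refine hn.trans ?_
    exact le_mul_of_one_le_right hn0.le hLR
  obtain ⟨hA, hB, hBc⟩ := htq μ hb hm1 hm2 E hE σ η hσ0 hσδ' hηκ hηδ' (n * L) hnL'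
  have hst := fun p : T d L =>
    (Pool.Agent.Zk96.SZ.size_transfer_strong d (by omega) L n μ E η σ hη0 hη1 p).trans herr
  have hσp : σ ≤ σ ^ ((1 - 2 * κ) / 20) := by
    nth_rw 1 [← Real.rpow_one σ]
    exact Real.rpow_le_rpow_of_exponent_ge hσ0 hσ1 (by linarith)
  have hσp0 : 0 < σ ^ ((1 - 2 * κ) / 20) := Real.rpow_pos_of_pos hσ0 _
  constructor
  · intro p hp
    have h1 := hA _ (le_of_eq_of_le (pp_mul p)
      (hp.trans (mul_le_mul_of_nonneg_right (min_le_left _ _) (by positivity))))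
    rw [pp_mul p] at h1
    have h2 := norm_le_norm_add_norm_sub' ((η : ℂ) * ∑ x, e p x *
            ((∫ V, ‖uu ((E : ℂ) + η * Complex.I) σ V x‖ ^ 2 ∂(PL (T d L) μ) : ℝ) : ℂ))
        ((η : ℂ) * ∑ x : T d (n * L), e (fun i => ((n * (p i).val : ℕ) : ZMod (n * L))) x *
        ((∫ V, ‖uu ((E : ℂ) + η * Complex.I) σ V x‖ ^ 2 ∂(PL (T d (n * L)) μ) : ℝ) : ℂ))
    rw [norm_sub_rev] at h2
    refine (h2.trans (add_le_add h1 (hst p))).trans ?_
    have hpp := pp_nonneg p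
    have h3 : 0 ≤ pp p / (σ ^ 2 * η) := by positivity
    have h4 : C1 / (1 + pp p / (σ ^ 2 * η)) ≤ (2 * C1 + 1) / (1 + pp p / (σ ^ 2 * η)) :=
      div_le_div_of_nonneg_right (by linarith) (by positivity)
    have h5 : C1 * σ ^ ((1 - 2 * κ) / 20) + σ ≤ (2 * C1 + 1) * σ ^ ((1 - 2 * κ) / 20) := by
      have : 0 < C1 * σ ^ ((1 - 2 * κ) / 20) := by positivity
      linarith
    linarith
  · have h1 := hst 0
    have e0 : ∀ (M : ℕ) [NeZero M], (η : ℂ) * ∑ x : T d M, e 0 x *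
        ((∫ V, ‖uu ((E : ℂ) + η * Complex.I) σ V x‖ ^ 2 ∂(PL (T d M) μ) : ℝ) : ℂ) =
        ((η * ∑ x : T d M, ∫ V, ‖uu ((E : ℂ) + η * Complex.I) σ V x‖ ^ 2 ∂(PL (T d M) μ) : ℝ) :
          ℂ) := by
      intro M _
      push_cast
      congr 1
      refine Finset.sum_congr rfl fun x _ => ?_
      rw [e_comm, e_zero, one_mul]
    have e1 : (fun i => ((n * ((0 : T d L) i).val : ℕ) : ZMod (n * L))) = (0 : T d (n * L)) := by
      funext i
      simp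
    rw [e1, e0, e0, ← Complex.ofReal_sub, Complex.norm_real, Real.norm_eq_abs] at h1
    have h2 := (abs_le.1 h1).2
    have h3 := (abs_le.1 h1).1
    constructor
    · linarith
    · linarith

end Pool.Agent.Zk60.LQ
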