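import Pool.Agent.Zk60.LQ.Pb
import Pool.Agent.Zk60.LQ.Kb

/-! # Choice of the parameters -/

set_option autoImplicit false
set_option linter.unusedSectionVars false

open scoped BigOperators Topology
open MeasureTheory Filter

namespace Pool.Agent.Zk60.LQ

open Pool.Agent.Zk60.LL.Fin (small_rpow)

/-- twenty times the exponent of the exceptional mass is `aa0` -/
noncomputable def aa0 (β γ : ℝ) : ℝ := min (1 / 4) (min (5 / 2 - γ) (9 / 2 - 2 * β)) / 2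

theorem params (β γ : ℝ) (hβ : β < 9 / 4) (hγ : γ < 5 / 2) : ∃ κ γ' : ℝ, 0 < aa0 β γ ∧
    aa0 β γ ≤ 1 / 8 ∧
    κ = 1 / 2 - aa0 β γ ∧ 1 / 4 ≤ κ ∧ 9 / 4 ≤ γ' ∧ γ' < 5 / 2 ∧ γ ≤ γ' ∧ aa0 β γ ≤ 2 + κ - γ' ∧
    β + aa0 β γ / 2 ≤ 2 + κ / 2 := by
  obtain ⟨a, ha⟩ : ∃ a : ℝ, a = aa0 β γ := ⟨_, rfl⟩
  have hm : 2 * a = min (1 / 4) (min (5 / 2 - γ) (9 / 2 - 2 * β)) := by
    rw [ha]; unfold aa0; ring
  have h1 : 2 * a ≤ 1 / 4 := by rw [hm]; exact min_le_left _ _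
  have h2 : 2 * a ≤ 5 / 2 - γ := by rw [hm]; exact (min_le_right _ _).trans (min_le_left _ _)
  have h3 : 2 * a ≤ 9 / 2 - 2 * β := by rw [hm]; exact (min_le_right _ _).trans (min_le_right _ _)
  have h4 : 0 < 2 * a := by
    rw [hm]; exact lt_min (by norm_num) (lt_min (by linarith) (by linarith))
  rw [← ha]
  refine ⟨1 / 2 - a, max γ (9 / 4), by linarith, by linarith, rfl, by linarith,
    le_max_right _ _, max_lt hγ (by norm_num), le_max_left _ _, ?_, by linarith⟩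
  have h5 : max γ (9 / 4) ≤ 5 / 2 - 2 * a := max_le (by linarith) (by linarith)
  linarith

/-- the smallness of the coupling constant -/
structure Sm (d : ℕ) (κ s1 γ' β δ C1 g G r0 lam : ℝ) : Prop where
  l0 : 0 < lam
  l1 : lam ≤ 1 / 2
  lδ : lam < δ
  ηδ : lam ^ (2 + κ) ≤ δ * lam ^ 2
  wδ : lam ^ γ' / 16 ≤ δ * lam ^ 2
  ηw : lam ^ (2 + κ) ≤ lam ^ γ' / 16 / 2
  ηw3 : lam ^ (2 + κ) * (64 * G) ≤ g * (lam ^ γ' / 16)
  xG : 12 * C1 * lam ^ s1 ≤ G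
  xg : 2 * (12 * C1 * lam ^ s1) ≤ g
  x5 : 8 * (48 * (lam ^ γ' / 16) * (12 * C1 * lam ^ s1) + 6 * lam ^ (2 + κ) * G +
    12 * (lam ^ γ' / 16) ^ 2 / (r0 / 2) ^ 2) ≤
      (lam ^ (s1 / 4) * (g / (8 * Real.pi))) * (lam ^ (s1 / 4)) ^ 2 * (lam ^ γ' / 16)
  wr : lam ^ γ' / 16 ≤ r0 / 4
  MA : 4 * lam ^ (2 + κ / 2 - 2 * s1) ≤ Real.pi
  MA2 : (4 * lam ^ (2 + κ / 2 - 2 * s1)) ^ 2 ≤ δ * lam ^ 4
  AL : 8 * Real.pi ≤ lam ^ (2 + κ / 2 - s1) * lam ^ (-(5 / 2 : ℝ))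
  cube : 2 * (d * (3 * lam ^ (2 + κ / 2 - 2 * s1) * lam ^ (-β))) ≤ 1 / 4
  pr : 192 * d * lam ^ (-γ') ≤ Real.exp (lam ^ (-(5 / 2 : ℝ)))

theorem exp_pr (d : ℕ) (lam γ' : ℝ) (h0 : 0 < lam) (h1 : lam ≤ 1) (hγ : γ' ≤ 5 / 2)
    (h : lam ^ (5 / 2 : ℝ) * (384 * d) ≤ 1) :
    192 * d * lam ^ (-γ') ≤ Real.exp (lam ^ (-(5 / 2 : ℝ))) := by
  have h2 : lam ^ (-γ') ≤ lam ^ (-(5 / 2 : ℝ)) :=
    Real.rpow_le_rpow_of_exponent_ge h0 h1 (by linarith)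
  have h3 : 0 < lam ^ (-(5 / 2 : ℝ)) := by positivity
  have h4 : lam ^ (5 / 2 : ℝ) * lam ^ (-(5 / 2 : ℝ)) = 1 := by
    rw [← Real.rpow_add h0]
    simp
  generalize lam ^ (-(5 / 2 : ℝ)) = y at *
  have h5 : 384 * d ≤ y := by
    have := mul_le_mul_of_nonneg_right h h3.le
    calc 384 * (d : ℝ) = (384 * d) * (lam ^ (5 / 2 : ℝ) * y) := by rw [h4, mul_one]
      _ = lam ^ (5 / 2 : ℝ) * (384 * d) * y := by ring
      _ ≤ 1 * y := this
      _ = y := one_mul y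
  have h6 : y ^ 2 / 2 ≤ Real.exp y := by
    have := Real.pow_div_factorial_le_exp y h3.le 2
    simpa [Nat.factorial] using this
  have h7 : 192 * d * lam ^ (-γ') ≤ 192 * d * y := mul_le_mul_of_nonneg_left h2 (by positivity)
  have h8 : 192 * d * y ≤ y ^ 2 / 2 := by
    have := mul_le_mul_of_nonneg_right h5 h3.le
    nlinarith
  linarith

theorem mk_sm (d : ℕ) (hd : 3 ≤ d) (κ a s1 γ' β δ C1 g G r0 : ℝ) (ha : 0 < a) (ha8 : a ≤ 1 / 8)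
    (hκ : κ = 1 / 2 - a) (hs1 : 0 < s1) (hs1a : s1 ≤ a / 8)
    (hγ1 : 9 / 4 ≤ γ') (hγ2 : γ' < 5 / 2) (hγa : a ≤ 2 + κ - γ') (hβ : β + a / 2 ≤ 2 + κ / 2)
    (hδ : 0 < δ) (hC1 : 0 < C1) (hg : 0 < g) (hG : 0 < G) (hr0 : 0 < r0) :
    ∃ l0 : ℝ, 0 < l0 ∧ ∀ lam : ℝ, 0 < lam → lam < l0 → Sm d κ s1 γ' β δ C1 g G r0 lam := by
  have hpi := Real.pi_pos
  have hd0 : (0 : ℝ) < d := by exact_mod_cast (by omega : 0 < d)
  obtain ⟨l1, hl1, h1⟩ := small_rpow κ δ (by linarith) hδ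
  obtain ⟨l2, hl2, h2⟩ := small_rpow (1 / 4) (min δ (1 / (8 * Real.pi))) (by norm_num)
    (lt_min hδ (by positivity))
  obtain ⟨l3, hl3, h3⟩ := small_rpow a (min (1 / 32) (g / (1024 * G))) ha
    (lt_min (by norm_num) (by positivity))
  obtain ⟨l4, hl4, h4⟩ := small_rpow s1 (min G (g / 2) / (12 * C1)) hs1
    (div_pos (lt_min hG (by positivity)) (by positivity))
  obtain ⟨K, hK⟩ : ∃ K : ℝ, K = 8 * (576 * C1 + 96 * G + 3 / r0 ^ 2) := ⟨_, rfl⟩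
  have hK0 : 0 < K := by rw [hK]; positivity
  obtain ⟨l5, hl5, h5⟩ := small_rpow (s1 / 4) (g / (8 * Real.pi) / K) (by linarith)
    (by positivity)
  obtain ⟨l6, hl6, h6⟩ := small_rpow (1 / 8) (δ / 16) (by norm_num) (by positivity)
  obtain ⟨l7, hl7, h7⟩ := small_rpow (a / 4) (1 / (24 * d)) (by linarith) (by positivity)
  obtain ⟨l8, hl8, h8⟩ := small_rpow (5 / 2) (1 / (384 * d)) (by norm_num) (by positivity)
  refine ⟨min (min (min (1 / 2) δ) (min l1 l2)) (min (min l3 l4) (min (min l5 l6)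
    (min (min l7 l8) (r0 / 4)))), ?_, ?_⟩
  · simp only [lt_min_iff]
    exact ⟨⟨⟨by norm_num, hδ⟩, hl1, hl2⟩, ⟨hl3, hl4⟩, ⟨hl5, hl6⟩, ⟨hl7, hl8⟩, by positivity⟩
  intro lam hl0 hl
  simp only [lt_min_iff] at hl
  obtain ⟨⟨⟨q1, q2⟩, q3, q4⟩, ⟨q5, q6⟩, ⟨q7, q8⟩, ⟨q9, q10⟩, q11⟩ := hl
  have hlam1 : lam ≤ 1 := by linarith
  have mono : ∀ x y : ℝ, x ≤ y → lam ^ y ≤ lam ^ x := fun x y hxy =>
    Real.rpow_le_rpow_of_exponent_ge hl0 hlam1 hxy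
  have pos : ∀ x : ℝ, 0 < lam ^ x := fun x => Real.rpow_pos_of_pos hl0 x
  have ad : ∀ x y : ℝ, lam ^ (x + y) = lam ^ x * lam ^ y := fun x y => Real.rpow_add hl0 x y
  have hsq : lam ^ (2 : ℝ) = lam ^ 2 := Real.rpow_two lam
  have h4a := h4 lam hl0 q6
  rw [le_div_iff₀ (by positivity)] at h4a
  have h3a := h3 lam hl0 q5
  have h3b := h3a.trans (min_le_left _ _)
  have h3c := h3a.trans (min_le_right _ _)
  rw [le_div_iff₀ (by positivity)] at h3c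
  have hηw : lam ^ (2 + κ) ≤ lam ^ a * lam ^ γ' := by
    rw [← ad]
    exact mono _ _ (by linarith)
  have hγl : lam ^ γ' ≤ lam := by
    have := mono 1 γ' (by linarith)
    rwa [Real.rpow_one] at this
  refine ⟨hl0, q1.le, q2, ?_, ?_, ?_, ?_, ?_, ?_, ?_, ?_, ?_, ?_, ?_, ?_, ?_⟩
  · rw [ad, hsq, mul_comm]
    exact mul_le_mul_of_nonneg_right (h1 lam hl0 q3) (by positivity)
  · have e1 : lam ^ γ' ≤ lam ^ (1 / 4 : ℝ) * lam ^ 2 := by
      rw [← hsq, ← ad]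
      exact mono _ _ (by linarith)
    have e2 := (h2 lam hl0 q4).trans (min_le_left _ _)
    have e3 := mul_le_mul_of_nonneg_right e2 (by positivity : 0 ≤ lam ^ 2)
    have e4 : 0 < lam ^ γ' := pos _
    linarith
  · have := mul_le_mul_of_nonneg_right h3b (pos γ').le
    linarith
  · have := mul_le_mul_of_nonneg_right h3c (pos γ').le
    have e1 := mul_le_mul_of_nonneg_right hηw (by positivity : 0 ≤ 64 * G)
    linarith
  · linarith [min_le_left G (g / 2)]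
  · linarith [min_le_right G (g / 2)]
  · have h5a := h5 lam hl0 q7
    rw [le_div_iff₀ hK0] at h5a
    have e1 : lam ^ a ≤ lam ^ s1 := mono _ _ (by linarith)
    have e2 : lam ^ γ' ≤ lam ^ s1 := mono _ _ (by linarith)
    have e3 : lam ^ s1 = lam ^ (s1 / 4) * (lam ^ (s1 / 4) * (lam ^ (s1 / 4)) ^ 2) := by
      rw [← Real.rpow_two, ← Real.rpow_mul hl0.le, ← ad, ← ad]
      congr 1
      ring
    have e4 : 6 * lam ^ (2 + κ) * G ≤ 96 * G * lam ^ s1 * (lam ^ γ' / 16) := by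
      have := mul_le_mul_of_nonneg_right e1 (pos γ').le
      have f1 := mul_le_mul_of_nonneg_left (hηw.trans this) (by positivity : 0 ≤ 6 * G)
      linarith
    have e5 : 12 * (lam ^ γ' / 16) ^ 2 / (r0 / 2) ^ 2 ≤
        3 / r0 ^ 2 * lam ^ s1 * (lam ^ γ' / 16) := by
      have f1 : 12 * (lam ^ γ' / 16) ^ 2 / (r0 / 2) ^ 2 =
          3 / r0 ^ 2 * lam ^ γ' * (lam ^ γ' / 16) := by
        field_simp
        norm_num
      rw [f1]
      refine mul_le_mul_of_nonneg_right ?_ (by positivity)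
      exact mul_le_mul_of_nonneg_left e2 (by positivity)
    have e6 : 8 * (48 * (lam ^ γ' / 16) * (12 * C1 * lam ^ s1) + 6 * lam ^ (2 + κ) * G +
        12 * (lam ^ γ' / 16) ^ 2 / (r0 / 2) ^ 2) ≤ K * lam ^ s1 * (lam ^ γ' / 16) := by
      rw [hK]
      linarith
    refine e6.trans ?_
    refine mul_le_mul_of_nonneg_right ?_ (by positivity)
    rw [e3]
    have e7 := mul_le_mul_of_nonneg_right h5a
      (by positivity : 0 ≤ lam ^ (s1 / 4) * (lam ^ (s1 / 4)) ^ 2)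
    linarith
  · linarith [pos γ']
  · have e1 : lam ^ (2 + κ / 2 - 2 * s1) ≤ lam := by
      have := mono 1 (2 + κ / 2 - 2 * s1) (by linarith)
      rwa [Real.rpow_one] at this
    linarith [Real.pi_gt_three]
  · have e1 : (4 * lam ^ (2 + κ / 2 - 2 * s1)) ^ 2 = 16 * lam ^ (κ - 4 * s1) * lam ^ 4 := by
      rw [mul_pow, ← Real.rpow_natCast (lam ^ (2 + κ / 2 - 2 * s1)), ← Real.rpow_mul hl0.le,
        ← Real.rpow_natCast lam 4, mul_assoc, ← ad]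
      norm_num
      congr 1
      ring
    rw [e1]
    refine mul_le_mul_of_nonneg_right ?_ (by positivity)
    have e2 : lam ^ (κ - 4 * s1) ≤ lam ^ (1 / 8 : ℝ) := mono _ _ (by linarith)
    linarith [h6 lam hl0 q8]
  · have e1 := (h2 lam hl0 q4).trans (min_le_right _ _)
    rw [le_div_iff₀ (by positivity)] at e1
    have e2 : lam ^ (-(1 / 4 : ℝ)) ≤ lam ^ (2 + κ / 2 - s1) * lam ^ (-(5 / 2 : ℝ)) := by
      rw [← ad]
      exact mono _ _ (by linarith)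
    refine le_trans ?_ e2
    have e3 : lam ^ (1 / 4 : ℝ) * lam ^ (-(1 / 4 : ℝ)) = 1 := by
      rw [← ad]; simp
    have e4 := mul_le_mul_of_nonneg_right e1 (pos (-(1 / 4 : ℝ))).le
    calc 8 * Real.pi = (lam ^ (1 / 4 : ℝ) * lam ^ (-(1 / 4 : ℝ))) * (8 * Real.pi) := by
          rw [e3, one_mul]
      _ = lam ^ (1 / 4 : ℝ) * (8 * Real.pi) * lam ^ (-(1 / 4 : ℝ)) := by ring
      _ ≤ 1 * lam ^ (-(1 / 4 : ℝ)) := e4
      _ = _ := one_mul _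
  · have e1 := h7 lam hl0 q9
    rw [le_div_iff₀ (by positivity)] at e1
    have e2 : 3 * lam ^ (2 + κ / 2 - 2 * s1) * lam ^ (-β) ≤ 3 * lam ^ (a / 4) := by
      rw [mul_assoc, ← ad]
      refine mul_le_mul_of_nonneg_left (mono _ _ (by linarith)) (by norm_num)
    have e3 := mul_le_mul_of_nonneg_left e2 (by positivity : 0 ≤ 2 * (d : ℝ))
    linarith
  · have e1 := h8 lam hl0 q10
    rw [le_div_iff₀ (by positivity)] at e1
    exact exp_pr d lam γ' hl0 hlam1 hγ2.le e1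

end Pool.Agent.Zk60.LQ
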