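import Pool.Agent.Zk60.LQ.Lp
import Pool.Agent.Zk60.LL.Rar

/-! # Quantitative bounds on tori -/

set_option autoImplicit false
set_option linter.unusedSectionVars false

open scoped BigOperators Topology
open MeasureTheory Filter

namespace Pool.Agent.Zk60.LQ

open Pool.Agent.Zk11.QD
open Pool.Agent.W788.MFP.Four (T e NN e_comm e_zero NN_pos)

variable {d : ℕ}

/-- the averaged resolvent on the torus -/
theorem setup (hd : 3 ≤ d) (F1 F2 gm hm : ℝ) (hgm : 0 < gm) (hhm : 0 < hm)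
    (hbulk : ∀ u ∈ Set.Icc F1 F2, gm ≤ (g0 d u).im ∧ hm ≤ (h0 d u).im) :
    ∃ (δ Bm : ℝ), 0 < δ ∧ 1 ≤ Bm ∧ ∀ E ∈ Set.Icc F1 F2, ∀ σ η : ℝ, 0 < σ → σ ≤ δ → 0 < η →
      η ≤ δ → ∀ (L : ℕ) [NeZero L], 13 * (1 + (1 / η) ^ 4 + (1 / η) ^ 4) ^ 2 ≤ (L : ℝ) →
      ∀ m : ℂ, MD d L ((E : ℂ) + η * Complex.I) σ m → ‖m‖ ≤ Bm ∧ gm / 2 ≤ m.im ∧
        ∀ j, hm / 2 ≤ Qv d L ((E : ℂ) + η * Complex.I) σ m j := by
  have hpi := Real.pi_pos
  set C0 : ℝ := ∫ t in Set.Ioi (0 : ℝ), ‖GG d t‖ with hC0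
  have hC00 : 0 ≤ C0 := integral_nonneg fun _ => norm_nonneg _
  set ε0 : ℝ := min 1 (min (gm / 4) (hm / 4)) with hε0
  have hε00 : 0 < ε0 := lt_min one_pos (lt_min (by positivity) (by positivity))
  have hε01 : ε0 ≤ 1 := min_le_left _ _
  have hε0g : ε0 ≤ gm / 4 := (min_le_right _ _).trans (min_le_left _ _)
  have hε0h : ε0 ≤ hm / 4 := (min_le_right _ _).trans (min_le_right _ _)
  obtain ⟨ρ1, hρ1, hu1⟩ := lap_unif (GG d) GG_cont (GG_int hd) ε0 hε00
  obtain ⟨ρ2, hρ2, hu2⟩ := lap_unif (HH d) HH_cont (HH_int hd) ε0 hε00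
  set D : ℝ := 64 * Real.pi * (1 + d) with hD
  have hD0 : 0 < D := by positivity
  refine ⟨min 1 (min (ε0 / D) (min ρ1 ρ2 / (2 + C0))), C0 + 1, ?_, by linarith, ?_⟩
  · refine lt_min one_pos (lt_min (by positivity) ?_)
    have := lt_min hρ1 hρ2
    positivity
  intro E hE σ η hσ hσδ hη hηδ L _ hL m hm'
  have hσ1 : σ ≤ 1 := hσδ.trans (min_le_left _ _)
  have hη1 : η ≤ 1 := hηδ.trans (min_le_left _ _)
  have hηD : η ≤ ε0 / D := hηδ.trans ((min_le_right _ _).trans (min_le_left _ _))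
  have hηρ : η ≤ min ρ1 ρ2 / (2 + C0) := hηδ.trans ((min_le_right _ _).trans (min_le_right _ _))
  have hσρ : σ ≤ min ρ1 ρ2 / (2 + C0) := hσδ.trans ((min_le_right _ _).trans (min_le_right _ _))
  set z : ℂ := (E : ℂ) + η * Complex.I with hz
  have hzim : z.im = η := by simp [hz]
  set w : ℂ := z + (σ : ℂ) ^ 2 * m with hw
  have hwim : η ≤ w.im := by
    rw [hw, w_im]
    unfold ss
    rw [hzim]
    have := hm'.mim
    have : 0 ≤ σ ^ 2 * m.im := by positivity
    linarith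
  have hmlap : m = Lap (GaL d L) w := m_lap hm'
  -- the error
  have hLp := Lpos (L := L)
  have herr : 16 * Real.pi * (1 + d) / L * (4 / η ^ 2) ≤ ε0 := by
    have h1 : (1 / η) ^ 8 ≤ (L : ℝ) := by
      refine le_trans ?_ hL
      have h2 : (1 / η) ^ 8 = ((1 / η) ^ 4) ^ 2 := by ring
      have h3 : 0 ≤ (1 / η) ^ 4 := by positivity
      rw [h2]
      nlinarith
    have h2 : 1 / (L : ℝ) ≤ η ^ 8 := by
      rw [div_le_iff₀ hLp]
      have h3 := mul_le_mul_of_nonneg_left h1 (by positivity : 0 ≤ η ^ 8)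
      refine le_trans (le_of_eq ?_) h3
      field_simp
    calc 16 * Real.pi * (1 + d) / L * (4 / η ^ 2) = D * (1 / L) * (1 / η ^ 2) := by
          rw [hD]; ring
      _ ≤ D * η ^ 8 * (1 / η ^ 2) := by
          refine mul_le_mul_of_nonneg_right ?_ (by positivity)
          exact mul_le_mul_of_nonneg_left h2 hD0.le
      _ = D * η ^ 5 * η := by field_simp
      _ ≤ D * 1 * η := by
          refine mul_le_mul_of_nonneg_right ?_ hη.le
          exact mul_le_mul_of_nonneg_left (pow_le_one₀ hη.le hη1) hD0.le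
      _ ≤ ε0 := by
          rw [le_div_iff₀ hD0] at hηD
          linarith
  obtain ⟨ea, eb⟩ := Ga_err (d := d) L (by omega) η hη hη1 w hwim
  have ea' := ea.trans herr
  have eb' := eb.trans herr
  rw [← hmlap] at ea'
  have hmB : ‖m‖ ≤ C0 + 1 := by
    have h1 := lap_bound (GG d) (GG_int hd) w (hη.le.trans hwim)
    have e1 : m = (m - Lap (GG d) w) + Lap (GG d) w := by ring
    rw [e1]
    refine (norm_add_le _ _).trans ?_
    linarith
  have hwE : ‖w - E‖ ≤ min ρ1 ρ2 := by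
    have e1 : w - E = η * Complex.I + (σ : ℂ) ^ 2 * m := by
      rw [hw, hz]; ring
    rw [e1]
    refine (norm_add_le _ _).trans ?_
    rw [norm_mul, Complex.norm_I, mul_one, Complex.norm_real, Real.norm_eq_abs,
      abs_of_pos hη, norm_mul, norm_pow, Complex.norm_real, Real.norm_eq_abs, sq_abs]
    have h1 : σ ^ 2 ≤ σ := by nlinarith
    have h2 : σ ^ 2 * ‖m‖ ≤ σ * (C0 + 1) := mul_le_mul h1 hmB (norm_nonneg _) hσ.le
    rw [le_div_iff₀ (by positivity)] at hηρ hσρ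
    set M := min ρ1 ρ2
    have h3 : η ≤ M / (2 + C0) := by rw [le_div_iff₀ (by positivity)]; exact hηρ
    have h4 : σ ≤ M / (2 + C0) := by rw [le_div_iff₀ (by positivity)]; exact hσρ
    have h5 : σ * (C0 + 1) ≤ M / (2 + C0) * (C0 + 1) :=
      mul_le_mul_of_nonneg_right h4 (by positivity)
    have h6 : M / (2 + C0) + M / (2 + C0) * (C0 + 1) = M := by field_simp; ring
    linarith
  have u1 := hu1 E w (hη.le.trans hwim) (hwE.trans (min_le_left _ _))
  have u2 := hu2 E w (hη.le.trans hwim) (hwE.trans (min_le_right _ _))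
  obtain ⟨bg, bh⟩ := hbulk E hE
  refine ⟨hmB, ?_, ?_⟩
  · have h1 : ‖m - g0 d E‖ ≤ ε0 + ε0 := by
      have e1 : m - g0 d E = (m - Lap (GG d) w) + (Lap (GG d) w - Lap (GG d) E) := by
        unfold g0; ring
      rw [e1]
      exact (norm_add_le _ _).trans (add_le_add ea' u1)
    have h2 := (abs_le.1 ((Complex.abs_im_le_norm _).trans h1)).1
    rw [Complex.sub_im] at h2
    linarith
  · intro j
    rw [Q_lap hm' j]
    have h1 : ‖Lap (HaL d L) w - h0 d E‖ ≤ ε0 + ε0 := by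
      have e1 : Lap (HaL d L) w - h0 d E = (Lap (HaL d L) w - Lap (HH d) w) +
        (Lap (HH d) w - Lap (HH d) E) := by
        unfold h0; ring
      rw [e1]
      exact (norm_add_le _ _).trans (add_le_add eb' u2)
    have h2 := (abs_le.1 ((Complex.abs_im_le_norm _).trans h1)).1
    rw [Complex.sub_im] at h2
    linarith

/-- the denominator of the ladder sum -/
theorem denom {L : ℕ} [NeZero L] {z : ℂ} {σ : ℝ} {m : ℂ} (hmd : MD d L z σ m) (B hm τ : ℝ)
    (hhm : 0 < hm) (hB : m.im ≤ B) (hs : ss z σ m ≤ B * σ ^ 2)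
    (hQ : ∀ j, hm / 2 ≤ Qv d L z σ m j) (hτ : |τ ^ 2 - σ ^ 2| ≤ σ ^ 2 / 2)
    (hq : 3 / 4 * (z.im / ss z σ m) ≤ 1 - τ ^ 2 * (m.im / ss z σ m)) (p : T d L)
    (hp : pp p ≤ 1)
    (herr : Real.sqrt (m.im * ss z σ m) + 10 * d * Real.sqrt (pp p) * m.im +
      30 * d ^ 3 * Real.sqrt (pp p) * (m.im / ss z σ m) ≤ hm / 32) :
    ‖z.im * (tt z σ m p / (1 - τ ^ 2 * tt z σ m p))‖ ≤
      B / (3 / 4 + hm / (64 * B ^ 2) * (pp p / (σ ^ 2 * z.im))) := by
  have hz := hmd.zim
  have hmi := hmd.mim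
  have hs0 := ss_pos hmd
  have hp0 := pp_nonneg p
  have hB0 : 0 < B := lt_of_lt_of_le hmi hB
  have hσ2 : 0 < σ ^ 2 := by
    have h1 : 0 < B * σ ^ 2 := lt_of_lt_of_le hs0 hs
    exact pos_of_mul_pos_right h1 hB0.le
  have hτ2 : σ ^ 2 / 2 ≤ τ ^ 2 := by
    have := (abs_le.1 hτ).1
    linarith
  set s := ss z σ m with hsd
  set η := z.im with hη
  set mi := m.im with hmi'
  have hexp := tt_exp hmd p hp
  rw [← hsd, ← hmi'] at hexp
  set X : ℝ := 1 / (4 * s ^ 3) * ∑ i, si (p i) ^ 2 * Qv d L z σ m i with hX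
  have hXlow : hm * pp p / (16 * s ^ 3) ≤ X := by
    have h1 : hm / 2 * (pp p / 2) ≤ ∑ i, si (p i) ^ 2 * Qv d L z σ m i := by
      have h2 : ∀ i, hm / 2 * ((2 - 2 * co (p i)) / 2) ≤ si (p i) ^ 2 * Qv d L z σ m i := by
        intro i
        have h3 : 2 - 2 * co (p i) ≤ pp p := by
          unfold pp
          exact Finset.single_le_sum (f := fun i => 2 - 2 * co (p i)) (fun j _ => by
            have := (abs_le.1 (co_le (p j))).2
            linarith) (Finset.mem_univ i)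
        have h4 : 0 ≤ co (p i) := by linarith
        have h5 := (abs_le.1 (co_le (p i))).2
        have h6 := co_si (p i)
        have h7 : (2 - 2 * co (p i)) / 2 ≤ si (p i) ^ 2 := by nlinarith
        rw [mul_comm]
        exact mul_le_mul h7 (hQ i) (by positivity) (by positivity)
      have h3 := Finset.sum_le_sum fun i (_ : i ∈ (Finset.univ : Finset (Fin d))) => h2 i
      rw [← Finset.mul_sum, ← Finset.sum_div] at h3
      exact h3
    rw [hX]
    have h2 : hm * pp p / (16 * s ^ 3) = 1 / (4 * s ^ 3) * (hm / 2 * (pp p / 2)) := by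
      field_simp
      ring
    rw [h2]
    exact mul_le_mul_of_nonneg_left h1 (by positivity)
  have hEle : pp p / s ^ 2 * Real.sqrt (mi / s) +
      10 * (d : ℝ) * (pp p * Real.sqrt (pp p)) * mi / s ^ 3 +
      30 * (d : ℝ) ^ 3 * (pp p * Real.sqrt (pp p)) * mi / s ^ 4 ≤ hm * pp p / (32 * s ^ 3) := by
    have h1 : Real.sqrt (mi * s) = s * Real.sqrt (mi / s) := by
      have : mi * s = s ^ 2 * (mi / s) := by field_simp
      rw [this, Real.sqrt_mul (by positivity), Real.sqrt_sq hs0.le]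
    rw [h1] at herr
    have h2 := mul_le_mul_of_nonneg_left herr (by positivity : 0 ≤ pp p / s ^ 3)
    refine le_trans (le_of_eq ?_) (h2.trans (le_of_eq ?_))
    · field_simp
    · field_simp
  have hre : 3 / 4 * (η / s) + τ ^ 2 * (hm * pp p / (32 * s ^ 3)) ≤
      (1 - (τ : ℂ) ^ 2 * tt z σ m p).re := by
    have h1 : (tt z σ m p).re ≤ mi / s - X + hm * pp p / (32 * s ^ 3) := by
      have h2 := (abs_le.1 ((Complex.abs_re_le_norm _).trans (hexp.trans hEle))).2
      rw [Complex.sub_re, Complex.ofReal_re] at h2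
      linarith
    have h2 : (1 - (τ : ℂ) ^ 2 * tt z σ m p).re = 1 - τ ^ 2 * (tt z σ m p).re := by
      rw [Complex.sub_re, Complex.one_re, ← Complex.ofReal_pow, Complex.re_ofReal_mul]
    rw [h2]
    have h3 := mul_le_mul_of_nonneg_left h1 (sq_nonneg τ)
    have h4 := mul_le_mul_of_nonneg_left hXlow (sq_nonneg τ)
    have h5 : τ ^ 2 * (hm * pp p / (16 * s ^ 3)) = 2 * (τ ^ 2 * (hm * pp p / (32 * s ^ 3))) := by
      ring
    rw [h5] at h4
    linarith
  have hden : 0 < 3 / 4 * (η / s) + τ ^ 2 * (hm * pp p / (32 * s ^ 3)) := by positivity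
  have hnorm : 3 / 4 * (η / s) + τ ^ 2 * (hm * pp p / (32 * s ^ 3)) ≤
      ‖1 - (τ : ℂ) ^ 2 * tt z σ m p‖ := hre.trans (Complex.re_le_norm _)
  rw [norm_mul, norm_div, Complex.norm_real, Real.norm_eq_abs, abs_of_pos hz]
  have htt := tt_norm hmd p
  rw [← hsd, ← hmi'] at htt
  calc η * (‖tt z σ m p‖ / ‖1 - (τ : ℂ) ^ 2 * tt z σ m p‖) ≤
        η * ((mi / s) / (3 / 4 * (η / s) + τ ^ 2 * (hm * pp p / (32 * s ^ 3)))) := by
          refine mul_le_mul_of_nonneg_left ?_ hz.le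
          exact div_le_div₀ (by positivity) htt hden hnorm
    _ = mi / (3 / 4 + τ ^ 2 * hm * pp p / (32 * s ^ 2 * η)) := by
        field_simp
    _ ≤ B / (3 / 4 + hm / (64 * B ^ 2) * (pp p / (σ ^ 2 * η))) := by
        apply div_le_div₀ hB0.le hB (by positivity)
        have h1 : s ^ 2 ≤ (B * σ ^ 2) ^ 2 := pow_le_pow_left₀ hs0.le hs 2
        have h2 : hm / (64 * B ^ 2) * (pp p / (σ ^ 2 * η)) ≤ τ ^ 2 * hm * pp p / (32 * s ^ 2 * η) := by
          calc hm / (64 * B ^ 2) * (pp p / (σ ^ 2 * η)) =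
                (σ ^ 2 / 2) * hm * pp p / (32 * (B * σ ^ 2) ^ 2 * η) := by
                field_simp
                ring
            _ ≤ _ := by
                apply div_le_div₀ (by positivity) _ (by positivity) _
                · have h3 : 0 ≤ hm * pp p := by positivity
                  nlinarith
                · have := mul_le_mul_of_nonneg_right h1 hz.le
                  nlinarith
        linarith

end Pool.Agent.Zk60.LQ
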