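import Pool.Agent.Zk60.LQ.Tq
import Pool.Agent.Zk60.LL.Fin

/-! # Quantitative diffusion bound on tori: auxiliary estimates -/

set_option autoImplicit false
set_option linter.unusedSectionVars false

open scoped BigOperators Topology
open MeasureTheory Filter

namespace Pool.Agent.Zk60.LQ

open Pool.Agent.Zk11.QD
open Pool.Agent.W788.MFP.Four (T e NN e_comm e_zero NN_pos)

variable {d : ℕ}

/-- the fourth moment -/
theorem N4_le (hd : 3 ≤ d) {L : ℕ} [NeZero L] {z : ℂ} {σ : ℝ} {m : ℂ} (hMD : MD d L z σ m)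
    (hη1 : z.im ≤ 1) (hL : 13 * (1 + (1 / z.im) ^ 4 + (1 / z.im) ^ 4) ^ 2 ≤ (L : ℝ)) (Bm : ℝ)
    (hBm : 1 ≤ Bm) (hmB : ‖m‖ ≤ Bm) :
    N4 d L z σ m ≤ (Bm ^ 4 + 10 * d * Bm + d * (5 * 10 ^ 18)) * (1 + Real.log (1 / z.im)) ^ 3 := by
  have hη0 := hMD.zim
  set η := z.im with hη
  have hsη : η ≤ ss z σ m := by
    unfold ss
    have := hMD.mim
    have : 0 ≤ σ ^ 2 * m.im := by positivity
    linarith
  have hwim : η ≤ (z + (σ : ℂ) ^ 2 * m).im := by rw [w_im]; exact hsη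
  have hmiB : m.im ≤ Bm := ((le_abs_self _).trans (Complex.abs_im_le_norm _)).trans hmB
  have hk0 : ‖kc (rv (z + (σ : ℂ) ^ 2 * m)) (0 : T d L)‖ ≤ Bm := by
    have h1 := Mk_diag hMD 0
    unfold Mk at h1
    rw [sub_self, Mh_w] at h1
    unfold rv
    rw [h1]
    exact hmB
  have hk2 : ∑ x : T d L, ‖kc (rv (z + (σ : ℂ) ^ 2 * m)) x‖ ^ 2 ≤ Bm / η := by
    have h1 := sq_sum hMD
    have h2 := parseval_sq (Mh z σ m : T d L → ℂ)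
    rw [h1, Mh_w] at h2
    unfold rv
    rw [h2]
    exact div_le_div₀ (by linarith) hmiB hη0 hsη
  have hL2 : (1 + (1 / η) ^ 4) ^ 3 ≤ (L : ℝ) ^ 2 := by
    have h3 : 0 ≤ (1 / η) ^ 4 := by positivity
    have h4 : (1 + (1 / η) ^ 4) ^ 2 ≤ (L : ℝ) := by
      refine le_trans ?_ hL
      nlinarith
    have h5 : (1 + (1 / η) ^ 4) ^ 3 ≤ ((1 + (1 / η) ^ 4) ^ 2) ^ 2 := by
      have h6 : (1 : ℝ) ≤ 1 + (1 / η) ^ 4 := by linarith
      calc (1 + (1 / η) ^ 4) ^ 3 ≤ (1 + (1 / η) ^ 4) ^ 4 := pow_le_pow_right₀ h6 (by norm_num)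
        _ = _ := by ring
    exact h5.trans (pow_le_pow_left₀ (by positivity) h4 2)
  have h1 := four_bound hd (z + (σ : ℂ) ^ 2 * m) η hη0 hη1 hwim hL
    hL2 Bm (by linarith) hk0 hk2
  have h2 : N4 d L z σ m = ∑ x : T d L, ‖kc (rv (z + (σ : ℂ) ^ 2 * m)) x‖ ^ 4 := by
    unfold N4 rv
    rw [Mh_w]
  rw [h2]
  refine h1.trans ?_
  have hlogη0 : 0 ≤ Real.log (1 / η) := Real.log_nonneg (by
    rw [le_div_iff₀ hη0]
    linarith)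
  have hΛ1 : 1 ≤ (1 + Real.log (1 / η)) ^ 3 := one_le_pow₀ (by linarith)
  have h4 : 0 ≤ Bm ^ 4 + 10 * d * Bm := by positivity
  have h5 := mul_le_mul_of_nonneg_left hΛ1 h4
  rw [mul_one] at h5
  calc Bm ^ 4 + 10 * d * Bm + d * (5 * 10 ^ 18 * (1 + Real.log (1 / η)) ^ 3) ≤
        (Bm ^ 4 + 10 * d * Bm) * (1 + Real.log (1 / η)) ^ 3 +
          d * (5 * 10 ^ 18 * (1 + Real.log (1 / η)) ^ 3) := add_le_add h5 le_rfl
    _ = _ := by ring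

/-- the effective step -/
theorem ustep {L : ℕ} [NeZero L] {z : ℂ} {σ : ℝ} {m : ℂ} (hMD : MD d L z σ m) (τ : ℝ)
    (h : |(τ ^ 2 - σ ^ 2) * m.im| ≤ z.im / 4) :
    3 / 4 * (z.im / ss z σ m) ≤ 1 - τ ^ 2 * (m.im / ss z σ m) ∧
      1 - τ ^ 2 * (m.im / ss z σ m) ≤ 5 / 4 * (z.im / ss z σ m) := by
  have hs0 := ss_pos hMD
  have hsdef : ss z σ m = z.im + σ ^ 2 * m.im := rfl
  have e1 : 1 - τ ^ 2 * (m.im / ss z σ m) = (z.im - (τ ^ 2 - σ ^ 2) * m.im) / ss z σ m := by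
    rw [eq_div_iff hs0.ne', sub_mul, one_mul]
    have : τ ^ 2 * (m.im / ss z σ m) * ss z σ m = τ ^ 2 * m.im := by field_simp
    rw [this, hsdef]
    ring
  have h2 := abs_le.1 h
  rw [e1]
  constructor
  · rw [← mul_div_assoc]
    apply div_le_div_of_nonneg_right _ hs0.le
    linarith
  · rw [← mul_div_assoc]
    apply div_le_div_of_nonneg_right _ hs0.le
    linarith

theorem small1 (κ C Bm σ η mi t : ℝ) (hσ0 : 0 < σ) (hη : σ ^ (2 + κ) ≤ η) (hC : 0 < C)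
    (hBm : 0 < Bm) (hmi : 0 < mi) (hmB : mi ≤ Bm) (h1 : σ ^ (1 - κ) * (4 * C * Bm) ≤ 1)
    (ht : |t| ≤ C * σ ^ 3) : |t * mi| ≤ η / 4 := by
  have hη0 : 0 < η := lt_of_lt_of_le (Real.rpow_pos_of_pos hσ0 _) hη
  have h2 : σ ^ 3 = σ ^ (1 - κ) * σ ^ (2 + κ) := by
    rw [← Real.rpow_add hσ0, ← Real.rpow_natCast]
    congr 1
    push_cast
    ring
  have h3 : 0 < σ ^ (1 - κ) := Real.rpow_pos_of_pos hσ0 _
  rw [abs_mul, abs_of_pos hmi]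
  calc |t| * mi ≤ C * σ ^ 3 * mi := mul_le_mul_of_nonneg_right ht hmi.le
    _ ≤ C * σ ^ 3 * Bm := mul_le_mul_of_nonneg_left hmB (by positivity)
    _ = (C * Bm) * σ ^ (1 - κ) * σ ^ (2 + κ) := by rw [h2]; ring
    _ ≤ (C * Bm) * σ ^ (1 - κ) * η := mul_le_mul_of_nonneg_left hη (by positivity)
    _ = (σ ^ (1 - κ) * (4 * C * Bm)) * (η / 4) := by ring
    _ ≤ 1 * (η / 4) := mul_le_mul_of_nonneg_right h1 (by positivity)
    _ = _ := one_mul _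

theorem log_small (κ σ η θ C4 B : ℝ) (hσ0 : 0 < σ) (hσ1 : σ ≤ 1) (hκ1 : κ < 1 / 2)
    (hκ0 : 0 < κ) (hη : σ ^ (2 + κ) ≤ η) (hη1 : η ≤ 1) (hθ0 : 0 < θ) (hθ1 : θ ≤ 1) (hC4 : 0 ≤ C4)
    (hB1 : 1 ≤ B) (hBd : C4 * (4 / θ) ^ 3 ≤ B) (hBe : 1 / θ ≤ B) :
    Real.log (1 / σ) ≤ B * σ ^ (-θ) ∧
      C4 * (1 + Real.log (1 / η)) ^ 3 ≤ (B * (σ ^ (-θ)) ^ 2) ^ 2 := by
  have hη0 : 0 < η := lt_of_lt_of_le (Real.rpow_pos_of_pos hσ0 _) hη
  have hSp : (σ ^ (-θ)) = (1 / σ) ^ θ := by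
    rw [Real.rpow_neg hσ0.le, one_div, Real.inv_rpow hσ0.le]
  have h1σ : 1 ≤ 1 / σ := by
    rw [le_div_iff₀ hσ0]
    linarith
  have hS1 : 1 ≤ σ ^ (-θ) := by
    rw [hSp]
    exact Real.one_le_rpow h1σ hθ0.le
  have hS0 : 0 < σ ^ (-θ) := by linarith
  have hlog1 : Real.log (1 / σ) ≤ 1 / θ * σ ^ (-θ) := by
    have h5 := Real.log_le_rpow_div (x := 1 / σ) (by positivity) hθ0
    rw [hSp]
    refine h5.trans (le_of_eq ?_)
    ring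
  have hlogη0 : 0 ≤ Real.log (1 / η) := Real.log_nonneg (by
    rw [le_div_iff₀ hη0]
    linarith)
  have hlog2 : Real.log (1 / η) ≤ 3 * Real.log (1 / σ) := by
    have h5 : Real.log (σ ^ (2 + κ)) ≤ Real.log η :=
      Real.log_le_log (by positivity) hη
    rw [Real.log_rpow hσ0] at h5
    have h6 : 0 ≤ Real.log (1 / σ) := Real.log_nonneg h1σ
    rw [one_div, Real.log_inv] at h6 ⊢
    rw [one_div, Real.log_inv]
    have h7 : (2 + κ) * -Real.log σ ≤ 3 * -Real.log σ :=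
      mul_le_mul_of_nonneg_right (by linarith) h6
    linarith
  refine ⟨hlog1.trans (mul_le_mul_of_nonneg_right hBe hS0.le), ?_⟩
  have h5 : 1 + Real.log (1 / η) ≤ 4 / θ * σ ^ (-θ) := by
    have h6 : 3 * Real.log (1 / σ) ≤ 3 * (1 / θ * σ ^ (-θ)) := by linarith
    have h7 : 1 ≤ 1 / θ * σ ^ (-θ) := by
      have : 1 ≤ 1 / θ := by
        rw [le_div_iff₀ hθ0]
        linarith
      exact one_le_mul_of_one_le_of_one_le this hS1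
    calc 1 + Real.log (1 / η) ≤ 4 * (1 / θ * σ ^ (-θ)) := by linarith
      _ = _ := by ring
  have hlog3 : 0 ≤ 1 + Real.log (1 / η) := by linarith
  calc C4 * (1 + Real.log (1 / η)) ^ 3 ≤ C4 * (4 / θ * σ ^ (-θ)) ^ 3 := by gcongr
    _ = C4 * (4 / θ) ^ 3 * (σ ^ (-θ)) ^ 3 := by ring
    _ ≤ B * (σ ^ (-θ)) ^ 4 := by
        have h8 : (σ ^ (-θ)) ^ 3 ≤ (σ ^ (-θ)) ^ 4 := pow_le_pow_right₀ hS1 (by norm_num)
        gcongr
    _ ≤ B ^ 2 * (σ ^ (-θ)) ^ 4 := by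
        have : B ≤ B ^ 2 := by
          calc B = B ^ 1 := (pow_one B).symm
            _ ≤ B ^ 2 := pow_le_pow_right₀ hB1 (by norm_num)
        gcongr
    _ = _ := by ring

/-- the parameters of the ladder bound -/
theorem mkPr (hd : 3 ≤ d) {L : ℕ} [NeZero L] {z : ℂ} {σ : ℝ} {m : ℂ} (hMD : MD d L z σ m)
    (τ κ θ gm Bm B : ℝ) (hκ0 : 0 < κ) (hκ1 : κ < 1 / 2) (hθ : θ = (1 - 2 * κ) / 10)
    (hσ0 : 0 < σ) (hσ1 : σ ≤ 1) (hηκ : σ ^ (2 + κ) ≤ z.im) (hησ : z.im ≤ σ ^ 2)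
    (hgm : 0 < gm) (hmg : gm / 2 ≤ m.im) (hBm : 1 ≤ Bm) (hmB : ‖m‖ ≤ Bm) (hBa : Bm + 1 ≤ B)
    (hBb : 2 / gm ≤ B)
    (hBd : (Bm ^ 4 + 10 * d * Bm + d * (5 * 10 ^ 18)) * (4 / θ) ^ 3 ≤ B) (hBe : 1 / θ ≤ B)
    (hτ : |τ ^ 2 - σ ^ 2| ≤ σ ^ 2 / 2)
    (hu : 3 / 4 * (z.im / ss z σ m) ≤ 1 - τ ^ 2 * (m.im / ss z σ m))
    (hy : σ ^ θ * (10 ^ 25 * B ^ 15) ≤ 1)
    (hL : 13 * (1 + (1 / z.im) ^ 4 + (1 / z.im) ^ 4) ^ 2 ≤ (L : ℝ)) :
    Pr d L z σ m τ B (σ ^ (-κ)) (σ ^ (-θ)) (σ ^ ((1 : ℝ) / 6)) (σ ^ θ) := by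
  have hθ0 : 0 < θ := by rw [hθ]; linarith
  have hθ1 : θ ≤ 1 := by rw [hθ]; linarith
  have hB1 : 1 ≤ B := by linarith
  have hσ2 : σ ^ 2 ≤ 1 := pow_le_one₀ hσ0.le hσ1
  have hη1 : z.im ≤ 1 := hησ.trans hσ2
  have hmiB : m.im ≤ Bm := ((le_abs_self _).trans (Complex.abs_im_le_norm _)).trans hmB
  obtain ⟨hlg, hlN⟩ := log_small κ σ z.im θ (Bm ^ 4 + 10 * d * Bm + d * (5 * 10 ^ 18)) B hσ0 hσ1
    hκ1 hκ0 hηκ hη1 hθ0 hθ1 (by positivity) hB1 hBd hBe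
  have h1σ : 1 ≤ 1 / σ := by
    rw [le_div_iff₀ hσ0]
    linarith
  have hS1 : 1 ≤ σ ^ (-θ) := by
    have : (σ ^ (-θ)) = (1 / σ) ^ θ := by
      rw [Real.rpow_neg hσ0.le, one_div, Real.inv_rpow hσ0.le]
    rw [this]
    exact Real.one_le_rpow h1σ hθ0.le
  have hk1 : 1 ≤ σ ^ (-κ) := by
    have : (σ ^ (-κ)) = (1 / σ) ^ κ := by
      rw [Real.rpow_neg hσ0.le, one_div, Real.inv_rpow hσ0.le]
    rw [this]
    exact Real.one_le_rpow h1σ hκ0.le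
  have hg6 : σ = (σ ^ ((1 : ℝ) / 6)) ^ 6 := by
    rw [← Real.rpow_natCast, ← Real.rpow_mul hσ0.le]
    norm_num
  refine ⟨hd, hMD, hB1, hk1, hS1, by positivity, Real.rpow_le_one hσ0.le hσ1 (by norm_num), hg6,
    hmiB.trans (by linarith), ?_, hησ, ?_, (N4_le hd hMD hη1 hL Bm hBm hmB).trans hlN, ?_, hu, ?_,
    by linarith, hlg, hL⟩
  · have h5 : 1 / B ≤ 1 / (2 / gm) := one_div_le_one_div_of_le (by positivity) hBb
    rw [one_div_div] at h5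
    exact h5.trans hmg
  · have h5 := mul_le_mul_of_nonneg_left hηκ (by positivity : 0 ≤ σ ^ (-κ))
    rw [← Real.rpow_add hσ0] at h5
    have e1 : -κ + (2 + κ) = ((2 : ℕ) : ℝ) := by push_cast; ring
    rw [e1, Real.rpow_natCast] at h5
    exact h5
  · have h5 := (abs_le.1 hτ).2
    have : 0 ≤ σ ^ 2 := by positivity
    linarith
  · have e1 : (σ ^ (-κ)) * (σ ^ ((1 : ℝ) / 6)) ^ 3 * (σ ^ (-θ)) ^ 3 =
        σ ^ (1 / 2 - κ - 3 * θ) := by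
      rw [← Real.rpow_natCast, ← Real.rpow_natCast, ← Real.rpow_mul hσ0.le,
        ← Real.rpow_mul hσ0.le, ← Real.rpow_add hσ0, ← Real.rpow_add hσ0]
      congr 1
      push_cast
      ring
    rw [e1]
    exact Real.rpow_le_rpow_of_exponent_ge hσ0 hσ1 (by rw [hθ]; linarith)

theorem err_small (B σ θ : ℝ) (hB1 : 1 ≤ B) (hσ0 : 0 < σ) (hσ1 : σ ≤ 1) (hθ : 0 < θ) :
    4 * B * σ ^ (θ / 2) + (1 + 1 / σ ^ (θ / 2)) * (10 ^ 26 * B ^ 17 * σ ^ θ) +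
      10 ^ 26 * B ^ 15 * σ ^ θ ≤ (4 * B + 3 * 10 ^ 26 * B ^ 17) * σ ^ (θ / 2) := by
  have e1 : σ ^ θ = σ ^ (θ / 2) * σ ^ (θ / 2) := by
    rw [← Real.rpow_add hσ0]; congr 1; ring
  rw [e1]
  have hy0 : 0 < σ ^ (θ / 2) := Real.rpow_pos_of_pos hσ0 _
  have hy1 : σ ^ (θ / 2) ≤ 1 := Real.rpow_le_one hσ0.le hσ1 (by positivity)
  generalize σ ^ (θ / 2) = y at hy0 hy1
  have hB0 : 0 < B := by linarith
  have hB15 : B ^ 15 ≤ B ^ 17 := pow_le_pow_right₀ hB1 (by norm_num)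
  have hyy : y * y ≤ y := by nlinarith
  have e2 : (1 + 1 / y) * (10 ^ 26 * B ^ 17 * (y * y)) =
      10 ^ 26 * B ^ 17 * (y * y) + 10 ^ 26 * B ^ 17 * y := by
    field_simp
  rw [e2]
  have h1 : 10 ^ 26 * B ^ 17 * (y * y) ≤ 10 ^ 26 * B ^ 17 * y :=
    mul_le_mul_of_nonneg_left hyy (by positivity)
  have h2 : 10 ^ 26 * B ^ 15 * (y * y) ≤ 10 ^ 26 * B ^ 17 * y :=
    mul_le_mul (mul_le_mul_of_nonneg_left hB15 (by norm_num)) hyy (by positivity) (by positivity)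
  linarith

/-- the smallness condition for the expansion -/
theorem small2 (hd : 1 ≤ d) (δ σ pv mi s B hm : ℝ) (hσ0 : 0 < σ) (hσδ : σ ≤ δ) (hδ1 : δ ≤ 1)
    (hB0 : 0 < B)
    (hhm : 0 < hm) (h96 : δ * (96 * B) ≤ hm) (h960 : δ * (960 * d * B) ≤ hm)
    (hsq : δ ≤ (hm / (2880 * d ^ 3)) ^ 2) (hp : pv ≤ δ * σ ^ 4) (hmi : 0 < mi) (hmB : mi ≤ B)
    (hs0 : 0 < s) (hs : s ≤ B * σ ^ 2) (hs' : σ ^ 2 * mi ≤ s) :
    Real.sqrt (mi * s) + 10 * d * Real.sqrt pv * mi + 30 * d ^ 3 * Real.sqrt pv * (mi / s) ≤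
      hm / 32 := by
  have hd0 : (0 : ℝ) < d := by exact_mod_cast hd
  have hδ0 : 0 < δ := lt_of_lt_of_le hσ0 hσδ
  have hσ1 : σ ≤ 1 := hσδ.trans hδ1
  have hsqp : Real.sqrt pv ≤ Real.sqrt δ * σ ^ 2 := by
    have h1 := Real.sqrt_le_sqrt hp
    have h2 : δ * σ ^ 4 = δ * (σ ^ 2) ^ 2 := by ring
    rw [h2, Real.sqrt_mul hδ0.le, Real.sqrt_sq (by positivity)] at h1
    exact h1
  have s1 : Real.sqrt (mi * s) ≤ hm / 96 := by
    have h1 : mi * s ≤ (B * σ) ^ 2 := by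
      calc mi * s ≤ B * (B * σ ^ 2) := mul_le_mul hmB hs hs0.le hB0.le
        _ = _ := by ring
    have h2 := Real.sqrt_le_sqrt h1
    rw [Real.sqrt_sq (by positivity)] at h2
    refine h2.trans ?_
    have h3 : B * σ ≤ B * δ := mul_le_mul_of_nonneg_left hσδ hB0.le
    linarith
  have hsd1 : Real.sqrt δ ≤ 1 := by
    rw [Real.sqrt_le_one]; exact hδ1
  have s2 : 10 * d * Real.sqrt pv * mi ≤ hm / 96 := by
    have h1 : Real.sqrt pv ≤ δ := by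
      refine hsqp.trans ?_
      have h4 : Real.sqrt δ * σ ^ 2 ≤ 1 * σ ^ 2 := mul_le_mul_of_nonneg_right hsd1 (by positivity)
      have h5 : σ ^ 2 ≤ σ := by nlinarith
      linarith
    calc 10 * d * Real.sqrt pv * mi ≤ 10 * d * δ * B :=
          mul_le_mul (mul_le_mul_of_nonneg_left h1 (by positivity)) hmB hmi.le (by positivity)
      _ = δ * (960 * d * B) / 96 := by ring
      _ ≤ hm / 96 := div_le_div_of_nonneg_right h960 (by norm_num)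
  have s3 : 30 * d ^ 3 * Real.sqrt pv * (mi / s) ≤ hm / 96 := by
    have h1 : mi / s ≤ 1 / σ ^ 2 := by
      rw [div_le_div_iff₀ hs0 (by positivity)]
      linarith
    have h2 : Real.sqrt δ ≤ hm / (2880 * d ^ 3) := by
      rw [← Real.sqrt_sq (by positivity : 0 ≤ hm / (2880 * d ^ 3))]
      exact Real.sqrt_le_sqrt hsq
    rw [le_div_iff₀ (by positivity)] at h2
    calc 30 * d ^ 3 * Real.sqrt pv * (mi / s) ≤
          30 * d ^ 3 * (Real.sqrt δ * σ ^ 2) * (1 / σ ^ 2) := by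
          refine mul_le_mul (mul_le_mul_of_nonneg_left hsqp (by positivity)) h1
            (by positivity) (by positivity)
      _ = (Real.sqrt δ * (2880 * d ^ 3)) / 96 := by
          field_simp
          ring
      _ ≤ hm / 96 := div_le_div_of_nonneg_right h2 (by norm_num)
  linarith

end Pool.Agent.Zk60.LQ
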