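import Pool.Agent.Zk60.LQ.Tqa

/-! # Quantitative diffusion bound on tori: the core -/

set_option autoImplicit false
set_option linter.unusedSectionVars false

open scoped BigOperators Topology
open MeasureTheory Filter

namespace Pool.Agent.Zk60.LQ

open Pool.Agent.Zk11.QD
open Pool.Agent.W788.MFP.Four (T e NN e_comm e_zero NN_pos)

variable {d : ℕ}

/-- the constants -/
structure Cst (d : ℕ) (κ θ gm hm Bm B C δ : ℝ) : Prop where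
  κ0 : 0 < κ
  κ1 : κ < 1 / 2
  θe : θ = (1 - 2 * κ) / 10
  gm0 : 0 < gm
  hm0 : 0 < hm
  Bm1 : 1 ≤ Bm
  Ba : Bm + 1 ≤ B
  Bb : 2 / gm ≤ B
  C0 : 0 < C
  Bc : C ≤ B
  Bd : (Bm ^ 4 + 10 * d * Bm + d * (5 * 10 ^ 18)) * (4 / θ) ^ 3 ≤ B
  Be : 1 / θ ≤ B
  δ1 : δ ≤ 1
  δ96 : δ * (96 * B) ≤ hm
  δ960 : δ * (960 * d * B) ≤ hm
  δsq : δ ≤ (hm / (2880 * d ^ 3)) ^ 2

variable {κ θ gm hm Bm B C δ : ℝ}

theorem core_pr (hd : 3 ≤ d) (hc : Cst d κ θ gm hm Bm B C δ) {L : ℕ} [NeZero L] {z : ℂ} {σ : ℝ}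
    {m : ℂ} (hMD : MD d L z σ m) {τ : ℝ} (hσ0 : 0 < σ) (hσδ : σ ≤ δ)
    (hηκ : σ ^ (2 + κ) ≤ z.im) (hηδ : z.im ≤ δ * σ ^ 2) (hmB : ‖m‖ ≤ Bm) (hmg : gm / 2 ≤ m.im)
    (hτ : |τ ^ 2 - σ ^ 2| ≤ C * σ ^ 3)
    (hCσ : C * σ ≤ 1 / 2) (hs1 : σ ^ (1 - κ) * (4 * C * Bm) ≤ 1)
    (hs2 : σ ^ θ * (10 ^ 25 * B ^ 15) ≤ 1)
    (hL : 13 * (1 + (1 / z.im) ^ 4 + (1 / z.im) ^ 4) ^ 2 ≤ (L : ℝ)) :
    Pr d L z σ m τ B (σ ^ (-κ)) (σ ^ (-θ)) (σ ^ ((1 : ℝ) / 6)) (σ ^ θ) ∧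
      |τ ^ 2 - σ ^ 2| ≤ σ ^ 2 / 2 ∧
      3 / 4 * (z.im / ss z σ m) ≤ 1 - τ ^ 2 * (m.im / ss z σ m) ∧
      1 - τ ^ 2 * (m.im / ss z σ m) ≤ 5 / 4 * (z.im / ss z σ m) := by
  have hσ1 : σ ≤ 1 := hσδ.trans hc.δ1
  have hσ2 : 0 < σ ^ 2 := by positivity
  have hησ : z.im ≤ σ ^ 2 := by
    refine hηδ.trans ?_
    have := mul_le_mul_of_nonneg_right hc.δ1 hσ2.le
    linarith
  have hmi0 : 0 < m.im := hMD.mim
  have hmiB : m.im ≤ Bm := ((le_abs_self _).trans (Complex.abs_im_le_norm _)).trans hmB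
  have hτσ : |τ ^ 2 - σ ^ 2| ≤ σ ^ 2 / 2 := by
    refine hτ.trans ?_
    calc C * σ ^ 3 = (C * σ) * σ ^ 2 := by ring
      _ ≤ 1 / 2 * σ ^ 2 := mul_le_mul_of_nonneg_right hCσ (by positivity)
      _ = _ := by ring
  have h1 := small1 κ C Bm σ z.im m.im (τ ^ 2 - σ ^ 2) hσ0 hηκ hc.C0
    (lt_of_lt_of_le one_pos hc.Bm1) hmi0 hmiB hs1 hτ
  have hu := ustep hMD τ h1
  refine ⟨?_, hτσ, hu⟩
  exact mkPr hd hMD τ κ θ gm Bm B hc.κ0 hc.κ1 hc.θe hσ0 hσ1 hηκ hησ hc.gm0 hmg hc.Bm1 hmB hc.Ba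
    hc.Bb hc.Bd hc.Be hτσ hu.1 hs2 hL

theorem core (hd : 3 ≤ d) (hc : Cst d κ θ gm hm Bm B C δ) {L : ℕ} [NeZero L] {z : ℂ} {σ : ℝ}
    {m : ℂ} (hMD : MD d L z σ m) {τ : ℝ} {hh : ℝ → ℂ} (μ : Measure ℝ) [IsProbabilityMeasure μ]
    (hS : Sit μ σ m C τ hh) (hσ0 : 0 < σ) (hσδ : σ ≤ δ)
    (hηκ : σ ^ (2 + κ) ≤ z.im) (hηδ : z.im ≤ δ * σ ^ 2) (hmB : ‖m‖ ≤ Bm) (hmg : gm / 2 ≤ m.im)
    (hQ : ∀ j, hm / 2 ≤ Qv d L z σ m j)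
    (hCσ : C * σ ≤ 1 / 2) (hs1 : σ ^ (1 - κ) * (4 * C * Bm) ≤ 1)
    (hs2 : σ ^ θ * (10 ^ 25 * B ^ 15) ≤ 1)
    (hL : 13 * (1 + (1 / z.im) ^ 4 + (1 / z.im) ^ 4) ^ 2 ≤ (L : ℝ)) :
    (∀ p : T d L, pp p ≤ δ * σ ^ 4 →
      ‖(z.im : ℂ) * ∑ x, e p x * ((∫ V, ‖uu z σ V x‖ ^ 2 ∂(PL (T d L) μ) : ℝ) : ℂ)‖ ≤
        B / (3 / 4 + hm / (64 * B ^ 2) * (pp p / (σ ^ 2 * z.im))) +
          (4 * B + 3 * 10 ^ 26 * B ^ 17) * σ ^ (θ / 2)) ∧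
    4 / 5 * m.im - (4 * B + 3 * 10 ^ 26 * B ^ 17) * σ ^ (θ / 2) ≤
      z.im * ∑ x : T d L, ∫ V, ‖uu z σ V x‖ ^ 2 ∂(PL (T d L) μ) ∧
    z.im * ∑ x : T d L, ∫ V, ‖uu z σ V x‖ ^ 2 ∂(PL (T d L) μ) ≤
      4 / 3 * m.im + (4 * B + 3 * 10 ^ 26 * B ^ 17) * σ ^ (θ / 2) := by
  obtain ⟨hPr, hτσ, hu1, hu2⟩ := core_pr hd hc hMD hσ0 hσδ hηκ hηδ hmB hmg hS.τσ hCσ hs1 hs2 hL
  have hσ1 : σ ≤ 1 := hσδ.trans hc.δ1
  have hσ2 : 0 < σ ^ 2 := by positivity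
  have hη0 := hMD.zim
  have hB1 : 1 ≤ B := by linarith [hc.Ba, hc.Bm1]
  have hB0 : 0 < B := by linarith
  have hθ0 : 0 < θ := by rw [hc.θe]; linarith [hc.κ1]
  have hησ : z.im ≤ σ ^ 2 := by
    refine hηδ.trans ?_
    have := mul_le_mul_of_nonneg_right hc.δ1 hσ2.le
    linarith
  have hmi0 : 0 < m.im := hMD.mim
  have hmiB : m.im ≤ Bm := ((le_abs_self _).trans (Complex.abs_im_le_norm _)).trans hmB
  have hmiB' : m.im ≤ B := hmiB.trans (by linarith [hc.Ba])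
  have hsdef : ss z σ m = z.im + σ ^ 2 * m.im := rfl
  have hs0 := ss_pos hMD
  have hsB : ss z σ m ≤ B * σ ^ 2 := by
    rw [hsdef]
    have h1 : σ ^ 2 * m.im ≤ σ ^ 2 * Bm := mul_le_mul_of_nonneg_left hmiB (by positivity)
    have h2 := mul_le_mul_of_nonneg_right hc.Ba (by positivity : 0 ≤ σ ^ 2)
    linarith
  have hlad := fun p : T d L => err_bound2 hPr μ C hh hS hc.C0.le hc.Bc p
    (fun V x => uu z σ V x) (fun x => uu_meas z σ x)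
    (fun V x => uu_eq z hη0 σ V x) (σ ^ (θ / 2)) (by positivity)
  have herr := err_small B σ θ hB1 hσ0 hσ1 hθ0
  constructor
  · intro p hp
    have hp0 := pp_nonneg p
    have hp1 : pp p ≤ 1 := by
      refine hp.trans ?_
      have h1 : σ ^ 4 ≤ 1 := pow_le_one₀ hσ0.le hσ1
      have h2 : 0 ≤ σ ^ 4 := by positivity
      calc δ * σ ^ 4 ≤ 1 * σ ^ 4 := mul_le_mul_of_nonneg_right hc.δ1 h2
        _ ≤ 1 := by linarith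
    have hsmall := small2 (by omega) δ σ (pp p) m.im (ss z σ m) B hm hσ0 hσδ hc.δ1 hB0 hc.hm0
      hc.δ96 hc.δ960 hc.δsq hp hmi0 hmiB' hs0 hsB (by rw [hsdef]; linarith)
    have hden := denom hMD B hm τ hc.hm0 hmiB' hsB hQ hτσ hu1 p hp1 hsmall
    exact (norm_le_norm_add_norm_sub' _ _).trans (add_le_add hden ((hlad p).trans herr))
  · have hl := (hlad 0).trans herr
    have e0 : (z.im : ℂ) * ∑ x : T d L, e 0 x *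
        ((∫ V, ‖uu z σ V x‖ ^ 2 ∂(PL (T d L) μ) : ℝ) : ℂ) =
        ((z.im * ∑ x, ∫ V, ‖uu z σ V x‖ ^ 2 ∂(PL (T d L) μ) : ℝ) : ℂ) := by
      push_cast
      congr 1
      refine Finset.sum_congr rfl fun x _ => ?_
      rw [e_comm, e_zero, one_mul]
    rw [e0, tt_zero hMD] at hl
    have e1 : (z.im : ℂ) * ((((m.im / ss z σ m : ℝ)) : ℂ) /
        (1 - (τ : ℂ) ^ 2 * ((m.im / ss z σ m : ℝ) : ℂ))) =
        ((z.im * ((m.im / ss z σ m) / (1 - τ ^ 2 * (m.im / ss z σ m))) : ℝ) : ℂ) := by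
      push_cast
      ring
    rw [e1, ← Complex.ofReal_sub, Complex.norm_real, Real.norm_eq_abs] at hl
    have h1 := (abs_le.1 hl).1
    have h2 := (abs_le.1 hl).2
    have hu0 : 0 < 1 - τ ^ 2 * (m.im / ss z σ m) := lt_of_lt_of_le (by positivity) hu1
    have h4 : z.im * ((m.im / ss z σ m) / (1 - τ ^ 2 * (m.im / ss z σ m))) ≤ 4 / 3 * m.im := by
      rw [← mul_div_assoc, div_le_iff₀ hu0]
      calc z.im * (m.im / ss z σ m) = 4 / 3 * m.im * (3 / 4 * (z.im / ss z σ m)) := by ring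
        _ ≤ _ := mul_le_mul_of_nonneg_left hu1 (by positivity)
    have h3 : 4 / 5 * m.im ≤
        z.im * ((m.im / ss z σ m) / (1 - τ ^ 2 * (m.im / ss z σ m))) := by
      rw [← mul_div_assoc, le_div_iff₀ hu0]
      calc 4 / 5 * m.im * (1 - τ ^ 2 * (m.im / ss z σ m)) ≤
            4 / 5 * m.im * (5 / 4 * (z.im / ss z σ m)) :=
            mul_le_mul_of_nonneg_left hu2 (by positivity)
        _ = _ := by ring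
    constructor
    · linarith
    · linarith

end Pool.Agent.Zk60.LQ
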