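import Pool.Agent.Zk60.LQ.Tqb
import Pool.Agent.Zk60.LL.Rar

/-! # Quantitative diffusion bound on tori -/

set_option autoImplicit false
set_option linter.unusedSectionVars false

open scoped BigOperators Topology
open MeasureTheory Filter

namespace Pool.Agent.Zk60.LQ

open Pool.Agent.Zk11.QD
open Pool.Agent.W788.MFP.Four (T e NN e_comm e_zero NN_pos)
open Pool.Agent.Zk60.LL.Fin (small_rpow)

variable {d : ℕ}

theorem mk_cst (hd : 3 ≤ d) (κ gm hm Bm C : ℝ) (hκ0 : 0 < κ) (hκ1 : κ < 1 / 2) (hgm : 0 < gm)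
    (hhm : 0 < hm) (hBm : 1 ≤ Bm) (hC : 0 < C) : ∃ B δ0 : ℝ, 1 ≤ B ∧ 0 < δ0 ∧ ∀ δ ≤ δ0,
      Cst d κ ((1 - 2 * κ) / 10) gm hm Bm B C δ := by
  have hd0 : (0 : ℝ) < d := by exact_mod_cast (by omega : 0 < d)
  have hθ0 : 0 < (1 - 2 * κ) / 10 := by linarith
  set θ := (1 - 2 * κ) / 10 with hθ
  obtain ⟨C4, hC4⟩ : ∃ C4 : ℝ, C4 = (Bm ^ 4 + 10 * d * Bm + d * (5 * 10 ^ 18)) := ⟨_, rfl⟩
  have hC40 : 0 < C4 := by rw [hC4]; positivity
  have hC4' : 0 ≤ C4 * (4 / θ) ^ 3 := by positivity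
  have hθ' : 0 < 1 / θ := by positivity
  have hg' : 0 < 2 / gm := by positivity
  obtain ⟨B, hB⟩ : ∃ B : ℝ, B = 1 + (Bm + 1) + 2 / gm + C + C4 * (4 / θ) ^ 3 + 1 / θ := ⟨_, rfl⟩
  have hB1 : 1 ≤ B := by rw [hB]; linarith
  have hB0 : 0 < B := by linarith
  refine ⟨B, min 1 (min (hm / (96 * B)) (min (hm / (960 * d * B)) ((hm / (2880 * d ^ 3)) ^ 2))),
    hB1, ?_, ?_⟩
  · simp only [lt_min_iff]
    exact ⟨one_pos, by positivity, by positivity, by positivity⟩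
  · intro δ hδ
    have h1 : δ ≤ 1 := hδ.trans (min_le_left _ _)
    have h2 : δ ≤ hm / (96 * B) := hδ.trans ((min_le_right _ _).trans (min_le_left _ _))
    have h3 : δ ≤ hm / (960 * d * B) :=
      hδ.trans ((min_le_right _ _).trans ((min_le_right _ _).trans (min_le_left _ _)))
    have h4 : δ ≤ (hm / (2880 * d ^ 3)) ^ 2 :=
      hδ.trans ((min_le_right _ _).trans ((min_le_right _ _).trans (min_le_right _ _)))
    refine ⟨hκ0, hκ1, hθ, hgm, hhm, hBm, by rw [hB]; linarith, by rw [hB]; linarith, hC,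
      by rw [hB]; linarith, by rw [← hC4, hB]; linarith, by rw [hB]; linarith, h1, ?_, ?_, h4⟩
    · rwa [le_div_iff₀ (by positivity)] at h2
    · rwa [le_div_iff₀ (by positivity)] at h3

theorem fin_alg (B hm gm c3 C5 C1 x y : ℝ) (hB0 : 0 < B) (hgm : 0 < gm)
    (hc3 : c3 = min (3 / 4) (hm / (64 * B ^ 2))) (hc30 : 0 < c3) (hC5 : 0 < C5)
    (hC1 : C1 = B / c3 + C5 + 5 / gm) (hx0 : 0 ≤ x) (hy : 0 ≤ y) :
    B / (3 / 4 + hm / (64 * B ^ 2) * x) + C5 * y ≤ C1 / (1 + x) + C1 * y := by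
  have h5 : 0 < 5 / gm := by positivity
  have h6 : 0 < B / c3 := by positivity
  refine add_le_add ?_ ?_
  · have h1 : c3 * (1 + x) ≤ 3 / 4 + hm / (64 * B ^ 2) * x := by
      have h2 : c3 ≤ 3 / 4 := by rw [hc3]; exact min_le_left _ _
      have h3 : c3 ≤ hm / (64 * B ^ 2) := by rw [hc3]; exact min_le_right _ _
      have h4 := mul_le_mul_of_nonneg_right h3 hx0
      linarith
    calc B / (3 / 4 + hm / (64 * B ^ 2) * x) ≤ B / (c3 * (1 + x)) :=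
          div_le_div_of_nonneg_left hB0.le (by positivity) h1
      _ = (B / c3) / (1 + x) := by field_simp
      _ ≤ C1 / (1 + x) := by
          apply div_le_div_of_nonneg_right _ (by positivity)
          rw [hC1]
          linarith
  · refine mul_le_mul_of_nonneg_right ?_ hy
    rw [hC1]
    linarith

theorem tq (hd : 3 ≤ d) (F1 F2 : ℝ) (hF1 : 0 < F1) (hF12 : F1 ≤ F2) (hF2 : F2 < 4 * d) :
    ∃ g G : ℝ, 0 < g ∧ 0 < G ∧ ∀ b κ : ℝ, 0 < κ → κ < 1 / 2 →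
    ∃ δ C1 : ℝ, 0 < δ ∧ 0 < C1 ∧ ∀ (μ : Measure ℝ) [IsProbabilityMeasure μ],
      (∀ᵐ s ∂μ, |s| ≤ b) → ∫ s, s ∂μ = 0 → ∫ s, s ^ 2 ∂μ = 1 → ∀ E ∈ Set.Icc F1 F2,
      ∀ σ η : ℝ, 0 < σ → σ < δ → σ ^ (2 + κ) ≤ η → η ≤ δ * σ ^ 2 →
      ∀ (L : ℕ) [NeZero L], 13 * (1 + (1 / η) ^ 4 + (1 / η) ^ 4) ^ 2 ≤ (L : ℝ) →
        (∀ p : T d L, pp p ≤ δ * σ ^ 4 →
          ‖(η : ℂ) * ∑ x, e p x *
            ((∫ V, ‖uu ((E : ℂ) + η * Complex.I) σ V x‖ ^ 2 ∂(PL (T d L) μ) : ℝ) : ℂ)‖ ≤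
            C1 / (1 + pp p / (σ ^ 2 * η)) + C1 * σ ^ ((1 - 2 * κ) / 20)) ∧
        g ≤ η * ∑ x : T d L,
          ∫ V, ‖uu ((E : ℂ) + η * Complex.I) σ V x‖ ^ 2 ∂(PL (T d L) μ) ∧
        η * ∑ x : T d L,
          ∫ V, ‖uu ((E : ℂ) + η * Complex.I) σ V x‖ ^ 2 ∂(PL (T d L) μ) ≤ G := by
  obtain ⟨C0', gm, hm, hC0', hgm, hhm, hbulk⟩ := Pool.Agent.Zk60.LL.Rar.bulk hd F1 F2 hF1 hF12 hF2
  obtain ⟨δs, Bm, hδs, hBm1, hset⟩ := setup hd F1 F2 gm hm hgm hhm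
    (fun u hu => ⟨(hbulk u hu).1, (hbulk u hu).2.2⟩)
  refine ⟨gm / 5, 4 / 3 * Bm + gm / 5, by positivity, by positivity, ?_⟩
  intro b κ hκ0 hκ1
  obtain ⟨b', hb'⟩ : ∃ b' : ℝ, b' = max b 1 := ⟨_, rfl⟩
  have hb'1 : 1 ≤ b' := by rw [hb']; exact le_max_right _ _
  have hb'b : b ≤ b' := by rw [hb']; exact le_max_left _ _
  obtain ⟨c, hc⟩ : ∃ c : ℝ, c = b' * (Bm + 1) := ⟨_, rfl⟩
  have hbc : b' ≤ c := by rw [hc]; nlinarith
  have hc1 : 1 ≤ c := hb'1.trans hbc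
  have hc0 : 0 < c := by linarith
  obtain ⟨C, hC⟩ : ∃ C : ℝ, C = 100 * c ^ 3 := ⟨_, rfl⟩
  have hC0 : 0 < C := by rw [hC]; positivity
  obtain ⟨B, δ0, hB1, hδ0, hcst⟩ := mk_cst hd κ gm hm Bm C hκ0 hκ1 hgm hhm hBm1 hC0
  have hB0 : 0 < B := by linarith
  obtain ⟨c3, hc3⟩ : ∃ c3 : ℝ, c3 = min (3 / 4) (hm / (64 * B ^ 2)) := ⟨_, rfl⟩
  have hc30 : 0 < c3 := by rw [hc3]; exact lt_min (by norm_num) (by positivity)
  obtain ⟨C5, hC5⟩ : ∃ C5 : ℝ, C5 = 4 * B + 3 * 10 ^ 26 * B ^ 17 := ⟨_, rfl⟩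
  have hC50 : 0 < C5 := by rw [hC5]; positivity
  obtain ⟨C1, hC1⟩ : ∃ C1 : ℝ, C1 = B / c3 + C5 + 5 / gm := ⟨_, rfl⟩
  have hC10 : 0 < C1 := by rw [hC1]; positivity
  have hBm0 : 0 < Bm := by linarith
  have hθ0 : 0 < (1 - 2 * κ) / 10 := by linarith
  obtain ⟨l1, hl1, hl1'⟩ := small_rpow ((1 - 2 * κ) / 10) (1 / (10 ^ 25 * B ^ 15)) hθ0
    (by positivity)
  obtain ⟨l2, hl2, hl2'⟩ := small_rpow (1 - κ) (1 / (4 * C * Bm)) (by linarith) (by positivity)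
  obtain ⟨l3, hl3, hl3'⟩ := small_rpow ((1 - 2 * κ) / 10 / 2) (gm / (5 * C5)) (by positivity)
    (by positivity)
  obtain ⟨δ, hδ⟩ : ∃ δ : ℝ, δ = min (min δ0 (min δs (1 / (200 * c ^ 3)))) (min l1 (min l2 l3)) :=
    ⟨_, rfl⟩
  have hδpos : 0 < δ := by
    rw [hδ]
    exact lt_min (lt_min hδ0 (lt_min hδs (by positivity))) (lt_min hl1 (lt_min hl2 hl3))
  have hδδ0 : δ ≤ δ0 := by rw [hδ]; exact (min_le_left _ _).trans (min_le_left _ _)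
  have hδδs : δ ≤ δs := by
    rw [hδ]; exact (min_le_left _ _).trans ((min_le_right _ _).trans (min_le_left _ _))
  have hδc : δ ≤ 1 / (200 * c ^ 3) := by
    rw [hδ]; exact (min_le_left _ _).trans ((min_le_right _ _).trans (min_le_right _ _))
  have hδl1 : δ ≤ l1 := by rw [hδ]; exact (min_le_right _ _).trans (min_le_left _ _)
  have hδl2 : δ ≤ l2 := by
    rw [hδ]; exact (min_le_right _ _).trans ((min_le_right _ _).trans (min_le_left _ _))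
  have hδl3 : δ ≤ l3 := by
    rw [hδ]; exact (min_le_right _ _).trans ((min_le_right _ _).trans (min_le_right _ _))
  clear hδ
  refine ⟨δ, C1, hδpos, hC10, ?_⟩
  intro μ _ hb hm1 hm2 E hE σ η hσ0 hσδ hηκ hηδ L _ hL
  have hCst := hcst δ hδδ0
  have hσ1 : σ ≤ 1 := hσδ.le.trans hCst.δ1
  have hσ2 : σ ^ 2 ≤ 1 := pow_le_one₀ hσ0.le hσ1
  have hη0 : 0 < η := lt_of_lt_of_le (Real.rpow_pos_of_pos hσ0 _) hηκ
  have hηδ' : η ≤ δ := hηδ.trans (mul_le_of_le_one_right hδpos.le hσ2)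
  have hzim : ((E : ℂ) + η * Complex.I).im = η := by simp
  obtain ⟨m, hm0, hmeq⟩ := mde_exists (aa (d := d) (L := L)) ((E : ℂ) + η * Complex.I)
    (by rw [hzim]; exact hη0) σ
  have hMD : MD d L ((E : ℂ) + η * Complex.I) σ m := ⟨by rw [hzim]; exact hη0, hm0, hmeq⟩
  obtain ⟨hmB, hmg, hQ⟩ := hset E hE σ η hσ0 (hσδ.le.trans hδδs) hη0 (hηδ'.trans hδδs) L hL m hMD
  have hσc := hσδ.le.trans hδc
  rw [le_div_iff₀ (by positivity)] at hσc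
  obtain ⟨τ, hh, hS⟩ := site_aux μ b' c σ m hb'1 hbc
    (by rw [hc]; nlinarith [norm_nonneg m]) (by rw [hc]; nlinarith [norm_nonneg m]) hσ0
    (by linarith) (hb.mono fun s hs => hs.trans hb'b) hm1 hm2
  rw [← hC] at hS
  have g1 := hl1' σ hσ0 (lt_of_lt_of_le hσδ hδl1)
  rw [le_div_iff₀ (by positivity)] at g1
  have g2 := hl2' σ hσ0 (lt_of_lt_of_le hσδ hδl2)
  rw [le_div_iff₀ (by positivity)] at g2
  have g3 := hl3' σ hσ0 (lt_of_lt_of_le hσδ hδl3)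
  rw [le_div_iff₀ (by positivity)] at g3
  have hcore := core hd hCst hMD μ hS hσ0 hσδ.le (by rw [hzim]; exact hηκ)
    (by rw [hzim]; exact hηδ) hmB hmg hQ (by rw [hC]; linarith) g2 g1 (by rw [hzim]; exact hL)
  rw [hzim] at hcore
  obtain ⟨hA, hBb, hBc⟩ := hcore
  rw [← hC5] at hA hBb hBc
  have hexp : (1 - 2 * κ) / 20 = (1 - 2 * κ) / 10 / 2 := by ring
  rw [hexp]
  constructor
  · intro p hp
    refine (hA p hp).trans ?_
    have := pp_nonneg p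
    exact fin_alg B hm gm c3 C5 C1 _ _ hB0 hgm hc3 hc30 hC50 hC1 (by positivity) (by positivity)
  · constructor
    · linarith
    · have hmiB : m.im ≤ Bm := ((le_abs_self _).trans (Complex.abs_im_le_norm _)).trans hmB
      linarith

end Pool.Agent.Zk60.LQ
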