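import Pool.Agent.Zk60.LL.Dif

/-! # Comparison of the numbers of eigenvalues with those of the free Laplacian -/

set_option autoImplicit false
set_option linter.unusedSectionVars false

open scoped BigOperators Topology
open MeasureTheory Filter

namespace Pool.Agent.Zk60.LQ

open Pool.Agent.W788.MFP.Four (T e NN e_add e_add_left e_zero e_comm e_neg e_neg_left e_normSq
  card_T NN_pos)
open Pool.Agent.Zk11.QD (Hz aa aa_eq co si co_si e_norm sum_e')
open Pool.Agent.Zk60.LL.Det (EB Hz_eig Hz_sum)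
open Pool.Agent.Zk60.LL.Dif (pars1)

variable {d L : ℕ} [NeZero L]

/-- the quadratic form -/
theorem quad {σ : ℝ} {V : T d L → ℝ} {ψ : T d L → T d L → ℂ} {E : T d L → ℝ} (h : EB σ V ψ E)
    (c : T d L → ℂ) : ∑ x, (starRingEnd ℂ) (∑ j, c j * ψ j x) *
      Hz 0 σ V (fun x => ∑ j, c j * ψ j x) x = ((∑ j, E j * ‖c j‖ ^ 2 : ℝ) : ℂ) := by
  have h1 : ∀ x, (starRingEnd ℂ) (∑ j, c j * ψ j x) *
      Hz 0 σ V (fun x => ∑ j, c j * ψ j x) x =
      ∑ j, ∑ k, ((starRingEnd ℂ) (c j) * (c k * E k)) * ((starRingEnd ℂ) (ψ j x) * ψ k x) := by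
    intro x
    rw [Hz_sum, map_sum, Finset.sum_mul_sum]
    refine Finset.sum_congr rfl fun j _ => Finset.sum_congr rfl fun k _ => ?_
    rw [h.eig, map_mul]
    ring
  simp only [h1]
  rw [Finset.sum_comm]
  push_cast
  refine Finset.sum_congr rfl fun j _ => ?_
  rw [Finset.sum_comm]
  simp only [← Finset.mul_sum, h.orth]
  simp only [mul_ite, mul_one, mul_zero]
  rw [Finset.sum_ite_eq Finset.univ j]
  simp only [Finset.mem_univ, if_true]
  have e1 : (starRingEnd ℂ) (c j) * c j = ((‖c j‖ ^ 2 : ℝ) : ℂ) := by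
    rw [mul_comm, Complex.mul_conj, Complex.normSq_eq_norm_sq]
  push_cast at e1
  linear_combination (E j : ℂ) * e1

/-- two quadratic forms -/
theorem quad_diff {σ b : ℝ} {V : T d L → ℝ} (hσ : 0 ≤ σ) (hb : ∀ x, |V x| ≤ b) (f : T d L → ℂ) :
    ‖∑ x, (starRingEnd ℂ) (f x) * Hz 0 σ V f x -
      ∑ x, (starRingEnd ℂ) (f x) * Hz 0 0 0 f x‖ ≤ σ * b * ∑ x, ‖f x‖ ^ 2 := by
  rw [← Finset.sum_sub_distrib, Finset.mul_sum]
  refine (norm_sum_le _ _).trans (Finset.sum_le_sum fun x _ => ?_)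
  have e1 : (starRingEnd ℂ) (f x) * Hz 0 σ V f x - (starRingEnd ℂ) (f x) * Hz 0 0 0 f x =
      ((σ * V x : ℝ) : ℂ) * ((starRingEnd ℂ) (f x) * f x) := by
    unfold Hz
    push_cast
    simp only [Pi.zero_apply]
    push_cast
    ring
  rw [e1, norm_mul, norm_mul, RCLike.norm_conj, Complex.norm_real, Real.norm_eq_abs, abs_mul,
    abs_of_nonneg hσ]
  have h2 := mul_le_mul_of_nonneg_left (hb x) hσ
  have h3 := mul_le_mul_of_nonneg_right h2 (by positivity : 0 ≤ ‖f x‖ ^ 2)
  calc σ * |V x| * (‖f x‖ * ‖f x‖) = σ * |V x| * ‖f x‖ ^ 2 := by ring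
    _ ≤ _ := h3

/-- comparison of the numbers of eigenvalues; `s` is a sign -/
theorem weyl {σ b : ℝ} {V : T d L → ℝ} {ψ ψ0 : T d L → T d L → ℂ} {E E0 : T d L → ℝ}
    (h : EB σ V ψ E) (h0 : EB 0 0 ψ0 E0) (hσ : 0 ≤ σ) (hb : ∀ x, |V x| ≤ b) (a s : ℝ)
    (hs : |s| = 1) (P Q : Finset (T d L)) (hP : ∀ j ∈ P, s * E j < a)
    (hQ : ∀ j ∈ Q, a + σ * b ≤ s * E0 j) :
    P.card + Q.card ≤ Fintype.card (T d L) := by
  classical
  set v : P ⊕ Q → (T d L → ℂ) := Sum.elim (fun j => ψ j) (fun p => ψ0 p) with hv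
  have hli : LinearIndependent ℂ v := by
    rw [Fintype.linearIndependent_iff]
    intro g hg
    set c : T d L → ℂ := fun j => if hj : j ∈ P then g (Sum.inl ⟨j, hj⟩) else 0 with hc
    set c0 : T d L → ℂ := fun j => if hj : j ∈ Q then -g (Sum.inr ⟨j, hj⟩) else 0 with hc0
    set f : T d L → ℂ := fun x => ∑ j, c j * ψ j x with hf
    set f0 : T d L → ℂ := fun x => ∑ j, c0 j * ψ0 j x with hf0
    have hff : f = f0 := by
      funext x
      have h1 := congrFun hg x
      rw [Fintype.sum_sum_type, Pi.add_apply, Finset.sum_apply, Finset.sum_apply] at h1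
      simp only [Pi.smul_apply, smul_eq_mul, hv, Sum.elim_inl, Sum.elim_inr, Pi.zero_apply] at h1
      have e1 : f x = ∑ i : P, g (Sum.inl i) * ψ i x := by
        rw [hf]
        simp only
        have e2 : ∑ i : P, g (Sum.inl i) * ψ i x = ∑ i : P, c i * ψ i x := by
          refine Finset.sum_congr rfl fun i _ => ?_
          rw [hc]
          simp only [i.2, dif_pos]
        rw [e2, Finset.sum_coe_sort P (fun j => c j * ψ j x)]
        symm
        apply Finset.sum_subset (Finset.subset_univ P)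
        intro j _ hj
        rw [hc]
        simp only [dif_neg hj, zero_mul]
      have e3 : f0 x = -∑ i : Q, g (Sum.inr i) * ψ0 i x := by
        rw [hf0]
        simp only
        have e2 : -∑ i : Q, g (Sum.inr i) * ψ0 i x = ∑ i : Q, c0 i * ψ0 i x := by
          rw [← Finset.sum_neg_distrib]
          refine Finset.sum_congr rfl fun i _ => ?_
          rw [hc0]
          simp only [i.2, dif_pos]
          ring
        rw [e2, Finset.sum_coe_sort Q (fun j => c0 j * ψ0 j x)]
        symm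
        apply Finset.sum_subset (Finset.subset_univ Q)
        intro j _ hj
        rw [hc0]
        simp only [dif_neg hj, zero_mul]
      rw [e1, e3]
      linear_combination h1
    have n1 : ∑ x, ‖f x‖ ^ 2 = ∑ j, ‖c j‖ ^ 2 := pars1 h c
    have n2 : ∑ x, ‖f x‖ ^ 2 = ∑ j, ‖c0 j‖ ^ 2 := by rw [hff]; exact pars1 h0 c0
    have q1 := quad h c
    have q2 := quad h0 c0
    have q3 := quad_diff (σ := σ) hσ hb f
    have q1' : ∑ x, (starRingEnd ℂ) (f x) * Hz 0 σ V f x = ((∑ j, E j * ‖c j‖ ^ 2 : ℝ) : ℂ) := q1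
    have q2' : ∑ x, (starRingEnd ℂ) (f x) * Hz 0 0 0 f x =
        ((∑ j, E0 j * ‖c0 j‖ ^ 2 : ℝ) : ℂ) := by rw [hff]; exact q2
    rw [q1', q2', ← Complex.ofReal_sub, Complex.norm_real, Real.norm_eq_abs] at q3
    have q4 : |s * (∑ j, E j * ‖c j‖ ^ 2) - s * ∑ j, E0 j * ‖c0 j‖ ^ 2| ≤
        σ * b * ∑ x, ‖f x‖ ^ 2 := by
      rw [← mul_sub, abs_mul, hs, one_mul]
      exact q3
    have q5 : a * ∑ x, ‖f x‖ ^ 2 + σ * b * ∑ x, ‖f x‖ ^ 2 ≤ s * ∑ j, E0 j * ‖c0 j‖ ^ 2 := by
      rw [n2, ← add_mul, Finset.mul_sum, Finset.mul_sum]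
      refine Finset.sum_le_sum fun j _ => ?_
      by_cases hj : j ∈ Q
      · have := mul_le_mul_of_nonneg_right (hQ j hj) (by positivity : 0 ≤ ‖c0 j‖ ^ 2)
        linarith
      · have : c0 j = 0 := by rw [hc0]; simp only [dif_neg hj]
        rw [this]; simp
    have q6 : s * ∑ j, E j * ‖c j‖ ^ 2 ≤ a * ∑ x, ‖f x‖ ^ 2 := by
      rw [n1, Finset.mul_sum, Finset.mul_sum]
      refine Finset.sum_le_sum fun j _ => ?_
      by_cases hj : j ∈ P
      · have := mul_le_mul_of_nonneg_right (hP j hj).le (by positivity : 0 ≤ ‖c j‖ ^ 2)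
        linarith
      · have : c j = 0 := by rw [hc]; simp only [dif_neg hj]
        rw [this]; simp
    -- equality everywhere, hence zero
    have q7 : ∑ j, (a - s * E j) * ‖c j‖ ^ 2 ≤ 0 := by
      have h3 := (abs_le.1 q4).1
      have e1 : ∑ j, (a - s * E j) * ‖c j‖ ^ 2 =
          a * ∑ x, ‖f x‖ ^ 2 - s * ∑ j, E j * ‖c j‖ ^ 2 := by
        rw [n1, Finset.mul_sum, Finset.mul_sum, ← Finset.sum_sub_distrib]
        exact Finset.sum_congr rfl fun j _ => by ring
      rw [e1]
      linarith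
    have q8 : ∀ j ∈ (Finset.univ : Finset (T d L)), 0 ≤ (a - s * E j) * ‖c j‖ ^ 2 := by
      intro j _
      by_cases hj : j ∈ P
      · have := hP j hj
        exact mul_nonneg (by linarith) (by positivity)
      · have : c j = 0 := by rw [hc]; simp only [dif_neg hj]
        rw [this]; simp
    have q9 : ∀ j, c j = 0 := by
      intro j
      by_cases hj : j ∈ P
      · have h3 := (Finset.sum_eq_zero_iff_of_nonneg q8).1
          (le_antisymm q7 (Finset.sum_nonneg q8)) j (Finset.mem_univ j)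
        have h4 := hP j hj
        rcases mul_eq_zero.1 h3 with h5 | h5
        · linarith
        · exact norm_eq_zero.1 (pow_eq_zero_iff two_ne_zero |>.1 h5)
      · rw [hc]; simp only [dif_neg hj]
    have q10 : ∑ j, ‖c0 j‖ ^ 2 = 0 := by
      rw [← n2, n1]
      exact Finset.sum_eq_zero fun j _ => by rw [q9 j]; simp
    have q11 : ∀ j, c0 j = 0 := by
      intro j
      have h3 := (Finset.sum_eq_zero_iff_of_nonneg fun j _ => by positivity).1 q10 j
        (Finset.mem_univ j)
      exact norm_eq_zero.1 (pow_eq_zero_iff two_ne_zero |>.1 h3)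
    rintro (i | i)
    · have := q9 i
      rw [hc] at this
      simpa only [i.2, dif_pos] using this
    · have := q11 i
      rw [hc0] at this
      simpa only [i.2, dif_pos, neg_eq_zero] using this
  have h3 := hli.fintype_card_le_finrank
  rw [Module.finrank_pi, Fintype.card_sum, Fintype.card_coe, Fintype.card_coe] at h3
  exact h3

/-- the plane waves -/
noncomputable def pw (d L : ℕ) [NeZero L] (p x : T d L) : ℂ :=
  (((Real.sqrt (NN d L))⁻¹ : ℝ) : ℂ) * e p x

theorem e_step (p x : T d L) (i : Fin d) :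
    e p (x + Pi.single i 1) + e p (x - Pi.single i 1) = 2 * (co (p i) : ℂ) * e p x := by
  have h1 : e p (Pi.single i (1 : ZMod L)) = ZMod.stdAddChar (p i) := by
    unfold e
    congr 1
    rw [Finset.sum_eq_single i]
    · simp
    · intro j _ hj
      simp [Pi.single_eq_of_ne hj]
    · intro hcon
      exact absurd (Finset.mem_univ i) hcon
  rw [sub_eq_add_neg, e_add, e_add, e_neg, h1]
  have h2 : (ZMod.stdAddChar (p i) : ℂ) + (starRingEnd ℂ) (ZMod.stdAddChar (p i)) =
      2 * (co (p i) : ℂ) := by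
    rw [Complex.add_conj]
    unfold co
    push_cast
    ring
  linear_combination (e p x) * h2

theorem pw_EB : EB 0 0 (pw d L) (fun p : T d L => aa p) := by
  have hN := NN_pos (d := d) (L := L)
  refine ⟨fun j k => ?_, fun j x => ?_⟩
  · have h1 : ∀ x, (starRingEnd ℂ) (pw d L j x) * pw d L k x =
        (((NN d L)⁻¹ : ℝ) : ℂ) * e (k - j) x := by
      intro x
      unfold pw
      rw [map_mul, Complex.conj_ofReal, sub_eq_add_neg, e_add_left, e_neg_left]
      have h2 : (((Real.sqrt (NN d L))⁻¹ : ℝ) : ℂ) * (((Real.sqrt (NN d L))⁻¹ : ℝ) : ℂ) =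
          (((NN d L)⁻¹ : ℝ) : ℂ) := by
        rw [← Complex.ofReal_mul, ← mul_inv, Real.mul_self_sqrt hN.le]
      linear_combination (e k x * (starRingEnd ℂ) (e j x)) * h2
    simp only [h1]
    rw [← Finset.mul_sum, sum_e']
    by_cases hjk : j = k
    · subst hjk
      rw [sub_self, if_pos rfl, if_pos rfl, ← Complex.ofReal_mul, inv_mul_cancel₀ hN.ne']
      simp
    · rw [if_neg hjk, if_neg (fun h => hjk (sub_eq_zero.1 h).symm), mul_zero]
  · unfold Hz
    have h1 : ∑ i : Fin d, (pw d L j (x + Pi.single i 1) + pw d L j (x - Pi.single i 1)) =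
        (∑ i : Fin d, 2 * (co (j i) : ℂ)) * pw d L j x := by
      rw [Finset.sum_mul]
      refine Finset.sum_congr rfl fun i _ => ?_
      unfold pw
      have := e_step j x i
      linear_combination (((Real.sqrt (NN d L))⁻¹ : ℝ) : ℂ) * this
    rw [h1, aa_eq]
    push_cast
    rw [Finset.sum_sub_distrib]
    simp
    ring

end Pool.Agent.Zk60.LQ
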